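import Pool.Agent.TH735.FO.Pot

/-!
Analyticity of the sums of negative powers of the points of an analytically moving family of
polynomial growth.
-/

set_option autoImplicit false

namespace Pool.Agent.TH735.FO

open Set Filter Topology Complex Metric Real ComplexConjugate Function

theorem approx {D : Set ℂ} {m : ℂ → ℂ → ℕ} (h : Dv D m) {δ : ℝ} {C ρ : ℕ}
    (g : Gr D m δ C ρ) {k : ℕ} (hk : ρ + 2 ≤ k) {α β : ℂ} {M C₁ : ℝ} (hM0 : 0 ≤ M)
    (hC₁ : M * 2 ^ k < C₁ * Real.log 2) {t : ℂ} (ht : t ∈ D) (hM : ‖α + β * t‖ ≤ M) {n : ℕ}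
    (hn : 1 ≤ n) :
    |∑ᶠ x, m t x • Phi α β k (C₁ / (n : ℝ) ^ k) n t x - ((α + β * t) * G m k t).re| ≤
      ((2 * C₁ / δ + M + C₁) * C * 5 ^ ρ + M * C * 3 ^ ρ) / n := by
  classical
  have hn0 : (0 : ℝ) < n := by exact_mod_cast hn
  have hn1 : (1 : ℝ) ≤ n := by exact_mod_cast hn
  have hδ := g.pos
  have hlog2 : 0 < Real.log 2 := Real.log_pos (by norm_num)
  have hC0 : 0 < C₁ := by
    by_contra hneg
    push Not at hneg
    have : 0 ≤ M * 2 ^ k := by positivity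
    nlinarith
  set Φ : ℂ → ℝ := Phi α β k (C₁ / (n : ℝ) ^ k) n t with hΦ
  -- the finite support
  have hsupp : ∀ x, 4 * (n : ℝ) < ‖x‖ → Φ x = 0 := fun x hx => Phi_zero hn0 hM0 hC₁ hM hx
  have hfs : (Function.support fun x => m t x • Φ x).Finite := by
    refine (h.fin t ht (4 * n)).subset ?_
    intro x hx
    rw [Function.mem_support] at hx
    refine ⟨?_, fun h0 => hx (by simp [h0])⟩
    by_contra hlt
    exact hx (by simp [hsupp x (not_le.1 hlt)])
  have hsum1 : HasSum (fun x => m t x • Φ x) (∑ᶠ x, m t x • Φ x) := by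
    have h1 : Summable fun x => m t x • Φ x := summable_of_hasFiniteSupport hfs
    have h2 := tsum_eq_finsum hfs (L := SummationFilter.unconditional ℂ)
    rw [← h2]
    exact h1.hasSum
  have hsum2 : HasSum (fun x => m t x • AA α β k t x) ((α + β * t) * G m k t).re := by
    have h1 := ((g.summable h ht hk).hasSum.mul_left (α + β * t))
    have h2 : HasSum (fun x => ((α + β * t) * m t x • ((x : ℂ) ^ k)⁻¹).re)
        ((α + β * t) * G m k t).re := Complex.hasSum_re h1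
    convert h2 using 1
    funext x
    unfold AA
    rw [nsmul_eq_mul, nsmul_eq_mul, show (α + β * t) * ((m t x : ℂ) * (x ^ k)⁻¹) =
      ((m t x : ℝ) : ℂ) * ((α + β * t) * (x ^ k)⁻¹) by push_cast; ring, Complex.re_ofReal_mul]
  have hsub := hsum1.sub hsum2
  rw [← hsub.tsum_eq]
  -- bound of the partial sums of the norms
  set B : ℝ := C₁ / (n : ℝ) ^ k * (2 * n / δ) + M / (n : ℝ) ^ k + C₁ / (n : ℝ) ^ k with hB
  have hB0 : 0 ≤ B := by positivity
  have hpart : ∀ F : Finset ℂ, ∑ x ∈ F, ‖m t x • Φ x - m t x • AA α β k t x‖ ≤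
      B * (C * (4 * n + 1) ^ ρ) + M * (C * 3 ^ ρ * 2 / (4 * n)) := by
    intro F
    rw [← Finset.sum_filter_add_sum_filter_not F (fun x : ℂ => ‖x‖ ≤ 4 * n)]
    apply add_le_add
    · have h1 : ∀ x ∈ F.filter (fun x : ℂ => ‖x‖ ≤ 4 * n),
          ‖m t x • Φ x - m t x • AA α β k t x‖ ≤ (m t x : ℝ) * B := by
        intro x hx
        rw [← smul_sub, nsmul_eq_mul, norm_mul, Real.norm_natCast]
        by_cases hmx : m t x = 0
        · simp [hmx]
        · gcongr
          rw [Real.norm_eq_abs]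
          exact Phi_sub hn0 hM0 hC0.le hδ hM (g.low t ht x hmx) (Finset.mem_filter.1 hx).2
      refine (Finset.sum_le_sum h1).trans ?_
      rw [← Finset.sum_mul, mul_comm]
      apply mul_le_mul_of_nonneg_left _ hB0
      have h2 := g.sum_le h ht (4 * n) (F := F.filter (fun x : ℂ => ‖x‖ ≤ 4 * n)) (by
        intro x hx
        push_cast
        exact (Finset.mem_filter.1 hx).2)
      exact_mod_cast h2
    · have h1 : ∀ x ∈ F.filter (fun x : ℂ => ¬ ‖x‖ ≤ 4 * n),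
          ‖m t x • Φ x - m t x • AA α β k t x‖ ≤ M * ((m t x : ℝ) / ‖x‖ ^ k) := by
        intro x hx
        have hx' := not_le.1 (Finset.mem_filter.1 hx).2
        rw [hsupp x hx', smul_zero, zero_sub, norm_neg, nsmul_eq_mul, norm_mul,
          Real.norm_natCast, Real.norm_eq_abs]
        have := AA_le (k := k) (x := x) hM
        calc (m t x : ℝ) * |AA α β k t x| ≤ (m t x : ℝ) * (M / ‖x‖ ^ k) := by gcongr
          _ = M * ((m t x : ℝ) / ‖x‖ ^ k) := by ring
      refine (Finset.sum_le_sum h1).trans ?_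
      rw [← Finset.mul_sum]
      have h2 := g.tail h ht hk (N := 4 * n) (by omega)
        (F := F.filter (fun x : ℂ => ¬ ‖x‖ ≤ 4 * n)) (by
        intro x hx
        push_cast
        exact (not_le.1 (Finset.mem_filter.1 hx).2).le)
      push_cast at h2
      gcongr
  have hnorm : ‖∑' x, (m t x • Φ x - m t x • AA α β k t x)‖ ≤
      B * (C * (4 * n + 1) ^ ρ) + M * (C * 3 ^ ρ * 2 / (4 * n)) := by
    have hs : Summable fun x => ‖m t x • Φ x - m t x • AA α β k t x‖ :=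
      summable_of_sum_le (fun x => norm_nonneg _) hpart
    exact (norm_tsum_le_tsum_norm hs).trans (hs.tsum_le_of_sum_le hpart)
  rw [Real.norm_eq_abs] at hnorm
  refine hnorm.trans ?_
  -- arithmetic
  have hpow : (n : ℝ) ^ (ρ + 2) ≤ (n : ℝ) ^ k := pow_le_pow_right₀ hn1 hk
  have hBle : B ≤ (2 * C₁ / δ + M + C₁) * n / (n : ℝ) ^ k := by
    rw [hB, le_div_iff₀ (by positivity)]
    have e1 : (C₁ / (n : ℝ) ^ k * (2 * n / δ) + M / (n : ℝ) ^ k + C₁ / (n : ℝ) ^ k) * (n : ℝ) ^ k =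
        C₁ * (2 * n / δ) + M + C₁ := by
      field_simp
    rw [e1]
    have e2 : C₁ * (2 * n / δ) = 2 * C₁ / δ * n := by ring
    rw [e2]
    nlinarith
  have h5 : (4 * (n : ℝ) + 1) ^ ρ ≤ 5 ^ ρ * (n : ℝ) ^ ρ := by
    rw [← mul_pow]
    gcongr
    linarith
  have h6 : B * (C * (4 * n + 1) ^ ρ) ≤ (2 * C₁ / δ + M + C₁) * C * 5 ^ ρ / n := by
    calc B * (C * (4 * n + 1) ^ ρ) ≤ (2 * C₁ / δ + M + C₁) * n / (n : ℝ) ^ k *
          (C * (5 ^ ρ * (n : ℝ) ^ ρ)) := by gcongr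
      _ = (2 * C₁ / δ + M + C₁) * C * 5 ^ ρ * ((n : ℝ) ^ (ρ + 1) / (n : ℝ) ^ k) := by
        rw [pow_succ]; ring
      _ ≤ (2 * C₁ / δ + M + C₁) * C * 5 ^ ρ * (1 / n) := by
        have : (n : ℝ) ^ (ρ + 1) / (n : ℝ) ^ k ≤ 1 / n := by
          rw [div_le_div_iff₀ (by positivity) hn0, one_mul, ← pow_succ]
          exact hpow
        gcongr
      _ = (2 * C₁ / δ + M + C₁) * C * 5 ^ ρ / n := by ring
  have h7 : M * (C * 3 ^ ρ * 2 / (4 * n)) ≤ M * C * 3 ^ ρ / n := by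
    have e1 : M * (C * 3 ^ ρ * 2 / (4 * n)) = M * C * 3 ^ ρ / n * (1 / 2) := by
      field_simp
      ring
    rw [e1]
    have : 0 ≤ M * C * 3 ^ ρ / n := by positivity
    linarith
  rw [add_div]
  linarith

theorem touch_Phi {D : Set ℂ} (hD : IsOpen D) {m : ℂ → ℂ → ℕ} (h : Dv D m) {δ : ℝ} {C ρ : ℕ}
    (g : Gr D m δ C ρ) {k : ℕ} {α β : ℂ} {M C₁ : ℝ} (hM0 : 0 ≤ M)
    (hC₁ : M * 2 ^ k < C₁ * Real.log 2) (hM : ∀ t ∈ D, ‖α + β * t‖ ≤ M) {r : ℝ} (hr : 0 < r)
    {t : ℂ} (ht : t ∈ D) :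
    Touch (fun t => ∑ᶠ x, m t x • Phi α β k (C₁ / r ^ k) r t x) t := by
  refine h.touch_sum hD ht (r := 4 * r) ?_ ?_
  · filter_upwards [hD.mem_nhds ht] with s hs x hx
    exact Phi_zero hr hM0 hC₁ (hM s hs) hx
  · intro e he
    have he0 : e ≠ 0 := by
      rintro rfl
      have := g.low t ht 0 he
      rw [norm_zero] at this
      exact absurd g.pos (not_lt.2 this)
    exact Phi_touch hr hM0 hC₁ (hM t ht) he0

theorem cont_Phi {D : Set ℂ} (hD : IsOpen D) {m : ℂ → ℂ → ℕ} (h : Dv D m) {δ : ℝ} {C ρ : ℕ}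
    (g : Gr D m δ C ρ) {k : ℕ} {α β : ℂ} {M C₁ : ℝ} (hM0 : 0 ≤ M)
    (hC₁ : M * 2 ^ k < C₁ * Real.log 2) (hM : ∀ t ∈ D, ‖α + β * t‖ ≤ M) {r : ℝ} (hr : 0 < r)
    {t : ℂ} (ht : t ∈ D) :
    ContinuousAt (fun t => ∑ᶠ x, m t x • Phi α β k (C₁ / r ^ k) r t x) t := by
  refine h.continuousAt_sum hD ht (r := 4 * r) ?_ ?_
  · filter_upwards [hD.mem_nhds ht] with s hs x hx
    exact Phi_zero hr hM0 hC₁ (hM s hs) hx
  · intro e he
    have he0 : e ≠ 0 := by
      rintro rfl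
      have := g.low t ht 0 he
      rw [norm_zero] at this
      exact absurd g.pos (not_lt.2 this)
    exact Phi_cont hr hM0 hC₁ (hM t ht) he0

theorem G_analytic {c : ℂ} {R : ℝ} {m : ℂ → ℂ → ℕ} (h : Dv (ball c R) m) {δ : ℝ} {C ρ : ℕ}
    (g : Gr (ball c R) m δ C ρ) {k : ℕ} (hk : ρ + 2 ≤ k) :
    AnalyticOnNhd ℂ (G m k) (ball c R) := by
  have key : ∀ α β : ℂ, ∀ ε > 0, ∃ u : ℂ → ℝ, ContinuousOn u (ball c R) ∧
      (∀ t ∈ ball c R, Touch u t) ∧
      ∀ t ∈ ball c R, |u t - ((α + β * t) * G m k t).re| ≤ ε := by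
    intro α β ε hε
    set M : ℝ := ‖α‖ + ‖β‖ * (‖c‖ + |R|) with hMdef
    have hM0 : 0 ≤ M := by positivity
    have hM : ∀ t ∈ ball c R, ‖α + β * t‖ ≤ M := by
      intro t ht
      have h1 : ‖t‖ ≤ ‖c‖ + |R| := by
        have h2 : ‖t‖ ≤ ‖c‖ + ‖t - c‖ := by
          have := norm_add_le c (t - c)
          rwa [add_sub_cancel] at this
        have h3 := mem_ball_iff_norm.1 ht
        have h4 := le_abs_self R
        linarith
      calc ‖α + β * t‖ ≤ ‖α‖ + ‖β * t‖ := norm_add_le _ _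
        _ = ‖α‖ + ‖β‖ * ‖t‖ := by rw [norm_mul]
        _ ≤ M := by rw [hMdef]; gcongr
    have hlog2 : 0 < Real.log 2 := Real.log_pos (by norm_num)
    set C₁ : ℝ := (M * 2 ^ k + 1) / Real.log 2 with hC₁def
    have hC₁ : M * 2 ^ k < C₁ * Real.log 2 := by
      rw [hC₁def, div_mul_cancel₀ _ hlog2.ne']
      linarith
    set L : ℝ := (2 * C₁ / δ + M + C₁) * C * 5 ^ ρ + M * C * 3 ^ ρ with hL
    obtain ⟨n, hn⟩ := exists_nat_gt (L / ε)
    set n' := n + 1 with hn'
    have hn'0 : (0 : ℝ) < n' := by positivity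
    refine ⟨fun t => ∑ᶠ x, m t x • Phi α β k (C₁ / (n' : ℝ) ^ k) n' t x, ?_, ?_, ?_⟩
    · intro t ht
      exact (cont_Phi isOpen_ball h g hM0 hC₁ hM hn'0 ht).continuousWithinAt
    · intro t ht
      exact touch_Phi isOpen_ball h g hM0 hC₁ hM hn'0 ht
    · intro t ht
      refine (approx h g hk hM0 hC₁ ht (hM t ht) (by omega)).trans ?_
      rw [← hL, div_le_iff₀ hn'0]
      have h1 : L / ε < n' := by
        rw [hn']
        push_cast
        linarith
      rw [div_lt_iff₀ hε] at h1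
      linarith
  refine analytic_crit ?_ key
  have hre : ContinuousOn (fun t => (G m k t).re) (ball c R) := by
    apply continuousOn_of_uniform_approx_of_continuousOn
    intro U hU
    obtain ⟨ε, hε, hεU⟩ := Metric.mem_uniformity_dist.1 hU
    obtain ⟨u, h1, -, h2⟩ := key 1 0 (ε / 2) (by positivity)
    refine ⟨u, h1, fun t ht => hεU ?_⟩
    have := h2 t ht
    rw [show ((1 : ℂ) + 0 * t) * G m k t = G m k t by ring] at this
    rw [dist_comm, Real.dist_eq]
    linarith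
  have him : ContinuousOn (fun t => (G m k t).im) (ball c R) := by
    apply continuousOn_of_uniform_approx_of_continuousOn
    intro U hU
    obtain ⟨ε, hε, hεU⟩ := Metric.mem_uniformity_dist.1 hU
    obtain ⟨u, h1, -, h2⟩ := key (-I) 0 (ε / 2) (by positivity)
    refine ⟨u, h1, fun t ht => hεU ?_⟩
    have := h2 t ht
    rw [show ((-I + 0 * t) * G m k t).re = (G m k t).im by simp [Complex.mul_re]] at this
    rw [dist_comm, Real.dist_eq]
    linarith
  have : G m k = fun t => ((G m k t).re : ℂ) + ((G m k t).im : ℂ) * I := by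
    funext t
    exact (Complex.re_add_im _).symm
  rw [this]
  exact (Complex.continuous_ofReal.comp_continuousOn hre).add
    ((Complex.continuous_ofReal.comp_continuousOn him).mul continuousOn_const)

end Pool.Agent.TH735.FO
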