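import Pool.Agent.TH735.FO.MaxP

/-!
A criterion for analyticity: all real parts of `(α + β t) G t` are uniform limits of functions
with analytic touching minorants.
-/

set_option autoImplicit false

namespace Pool.Agent.TH735.FO

open Set Filter Topology Complex Metric Real ComplexConjugate

theorem poissonKernel_continuousOn {c w : ℂ} {R : ℝ} (hw : w ∈ ball c R) :
    ContinuousOn (poissonKernel c w) (sphere c R) := by
  have hR : 0 < R := pos_of_mem_ball hw
  have h := continuousOn_herglotzRieszKernel_sphere hw
  rw [abs_of_pos hR] at h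
  rw [poissonKernel_eq_re_herglotzRieszKernel]
  exact Complex.continuous_re.comp_continuousOn h

theorem poissonKernel_nonneg {c w z : ℂ} {R : ℝ} (hw : w ∈ ball c R) (hz : z ∈ sphere c R) :
    0 ≤ poissonKernel c w z := by
  rw [poissonKernel_def]
  apply div_nonneg _ (by positivity)
  rw [mem_ball_iff_norm] at hw
  rw [mem_sphere_iff_norm] at hz
  rw [hz]
  have := norm_nonneg (w - c)
  nlinarith

theorem circleAverage_poissonKernel {c w : ℂ} {R : ℝ} (hw : w ∈ ball c R) :
    Real.circleAverage (poissonKernel c w) c R = 1 := by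
  have hR : 0 < R := pos_of_mem_ball hw
  have h1 : DiffContOnCl ℂ (fun _ : ℂ => (1 : ℂ)) (ball c R) := diffContOnCl_const
  have h2 := h1.circleAverage_poissonKernel_smul hw
  have h3 : CircleIntegrable (poissonKernel c w • fun _ : ℂ => (1 : ℂ)) c R := by
    apply ContinuousOn.circleIntegrable hR.le
    exact (poissonKernel_continuousOn hw).smul continuousOn_const
  have h4 := Complex.reCLM.circleAverage_comp_comm h3
  rw [h2] at h4
  simp only [Complex.reCLM_apply, Complex.one_re] at h4
  rw [← h4]
  congr 1
  funext z
  simp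

theorem poisson_real {c : ℂ} {r : ℝ} {H : ℂ → ℝ} (hH : ContinuousOn H (closedBall c r))
    (h : ∀ ε > 0, ∃ u : ℂ → ℝ, ContinuousOn u (closedBall c r) ∧ (∀ t ∈ ball c r, Touch u t) ∧
      ∀ t ∈ closedBall c r, |u t - H t| ≤ ε)
    (h' : ∀ ε > 0, ∃ u : ℂ → ℝ, ContinuousOn u (closedBall c r) ∧ (∀ t ∈ ball c r, Touch u t) ∧
      ∀ t ∈ closedBall c r, |u t + H t| ≤ ε) {w : ℂ} (hw : w ∈ ball c r) :
    Real.circleAverage (poissonKernel c w • H) c r = H w := by
  have hr : 0 < r := pos_of_mem_ball hw
  have hHs : ContinuousOn H (sphere c r) := hH.mono sphere_subset_closedBall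
  have key : ∀ ε > 0, |Real.circleAverage (poissonKernel c w • H) c r - H w| ≤ 4 * ε := by
    intro ε hε
    obtain ⟨Q, hQ, hQH⟩ := circle_dense hr hHs hε
    obtain ⟨u, huc, huT, huH⟩ := h ε hε
    obtain ⟨u', huc', huT', huH'⟩ := h' ε hε
    have hQc : Continuous (fun z => (Q z).re) := Complex.continuous_re.comp hQ.continuous
    have hwc : w ∈ closedBall c r := ball_subset_closedBall hw
    have m1 := max_principle (u := fun z => u z - (Q z).re) (M := 2 * ε)
      (huc.sub hQc.continuousOn) (by
        intro t ht
        obtain ⟨S, hS, hle, heq⟩ := huT t ht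
        refine ⟨fun z => S z - Q z, hS.sub (hQ.analyticAt t), ?_, ?_⟩
        · filter_upwards [hle] with z hz
          rw [Complex.sub_re]
          linarith
        · rw [Complex.sub_re, heq]) (by
        intro t ht
        have h1 := abs_le.1 (hQH t ht)
        have h2 := abs_le.1 (huH t (sphere_subset_closedBall ht))
        linarith [h1.1, h1.2, h2.1, h2.2]) w hwc
    have m2 := max_principle (u := fun z => u' z + (Q z).re) (M := 2 * ε)
      (huc'.add hQc.continuousOn) (by
        intro t ht
        obtain ⟨S, hS, hle, heq⟩ := huT' t ht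
        refine ⟨fun z => S z + Q z, hS.add (hQ.analyticAt t), ?_, ?_⟩
        · filter_upwards [hle] with z hz
          rw [Complex.add_re]
          linarith
        · rw [Complex.add_re, heq]) (by
        intro t ht
        have h1 := abs_le.1 (hQH t ht)
        have h2 := abs_le.1 (huH' t (sphere_subset_closedBall ht))
        linarith [h1.1, h1.2, h2.1, h2.2]) w hwc
    have a1 := abs_le.1 (huH w hwc)
    have a2 := abs_le.1 (huH' w hwc)
    have hQint : CircleIntegrable (poissonKernel c w • Q) c r := by
      apply ContinuousOn.circleIntegrable hr.le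
      exact (poissonKernel_continuousOn hw).smul hQ.continuous.continuousOn
    have hP1 : Real.circleAverage (poissonKernel c w • fun z => (Q z).re) c r = (Q w).re := by
      have h1 := (hQ.diffContOnCl (s := ball c r)).circleAverage_poissonKernel_smul hw
      have h4 := Complex.reCLM.circleAverage_comp_comm hQint
      rw [h1] at h4
      rw [Complex.reCLM_apply] at h4
      rw [← h4]
      congr 1
      funext z
      simp
    have hHint : CircleIntegrable (poissonKernel c w • H) c r := by
      apply ContinuousOn.circleIntegrable hr.le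
      exact (poissonKernel_continuousOn hw).smul hHs
    have hQrint : CircleIntegrable (poissonKernel c w • fun z => (Q z).re) c r := by
      apply ContinuousOn.circleIntegrable hr.le
      exact (poissonKernel_continuousOn hw).smul hQc.continuousOn
    have hd : |Real.circleAverage (poissonKernel c w • H) c r - (Q w).re| ≤ ε := by
      rw [← hP1, ← Real.circleAverage_sub hHint hQrint]
      refine (Real.abs_circleAverage_le_circleAverage_abs).trans ?_
      have h5 : Real.circleAverage (ε • poissonKernel c w) c r = ε := by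
        rw [Real.circleAverage_smul, circleAverage_poissonKernel hw]
        simp
      have h6 : ContinuousOn (poissonKernel c w • H - poissonKernel c w • fun z => (Q z).re)
          (sphere c r) := ((poissonKernel_continuousOn hw).smul hHs).sub
            ((poissonKernel_continuousOn hw).smul hQc.continuousOn)
      rw [← h5]
      apply Real.circleAverage_mono
      · apply ContinuousOn.circleIntegrable hr.le
        exact h6.abs
      · apply ContinuousOn.circleIntegrable hr.le
        exact (poissonKernel_continuousOn hw).const_smul ε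
      · intro z hz
        rw [abs_of_pos hr] at hz
        have h7 : (poissonKernel c w • H - poissonKernel c w • fun z => (Q z).re) z =
            poissonKernel c w z * (H z - (Q z).re) := by
          simp
          ring
        show |(poissonKernel c w • H - poissonKernel c w • fun z => (Q z).re) z| ≤
          ε * poissonKernel c w z
        rw [h7, abs_mul, abs_of_nonneg (poissonKernel_nonneg hw hz), mul_comm]
        exact mul_le_mul_of_nonneg_right (hQH z hz) (poissonKernel_nonneg hw hz)
    have b1 := abs_le.1 hd
    rw [abs_le]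
    constructor <;> linarith [a1.1, a1.2, a2.1, a2.2, b1.1, b1.2]
  have : |Real.circleAverage (poissonKernel c w • H) c r - H w| ≤ 0 := by
    apply le_of_forall_pos_le_add
    intro ε hε
    have := key (ε / 4) (by positivity)
    linarith
  exact sub_eq_zero.1 (abs_eq_zero.1 (le_antisymm this (abs_nonneg _)))

theorem analytic_crit {c : ℂ} {R : ℝ} {G : ℂ → ℂ} (hG : ContinuousOn G (ball c R))
    (h : ∀ α β : ℂ, ∀ ε > 0, ∃ u : ℂ → ℝ, ContinuousOn u (ball c R) ∧
      (∀ t ∈ ball c R, Touch u t) ∧ ∀ t ∈ ball c R, |u t - ((α + β * t) * G t).re| ≤ ε) :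
    AnalyticOnNhd ℂ G (ball c R) := by
  intro t ht
  obtain ⟨r, hr1, hr2⟩ := exists_between (mem_ball.1 ht)
  have hr : 0 < r := lt_of_le_of_lt dist_nonneg hr1
  have hsub : closedBall c r ⊆ ball c R := closedBall_subset_ball hr2
  have hsub' : ball c r ⊆ ball c R := ball_subset_closedBall.trans hsub
  have hGc : ContinuousOn G (closedBall c r) := hG.mono hsub
  have hGs : ContinuousOn G (sphere c r) := hGc.mono sphere_subset_closedBall
  -- the Poisson formula for the real parts
  have P1 : ∀ α β : ℂ, ∀ w ∈ ball c r,
      Real.circleAverage (poissonKernel c w • fun t => ((α + β * t) * G t).re) c r =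
        ((α + β * w) * G w).re := by
    intro α β w hw
    refine poisson_real (H := fun t => ((α + β * t) * G t).re) ?_ ?_ ?_ hw
    · exact Complex.continuous_re.comp_continuousOn ((by fun_prop : ContinuousOn
        (fun t : ℂ => α + β * t) (closedBall c r)).mul hGc)
    · intro ε hε
      obtain ⟨u, h1, h2, h3⟩ := h α β ε hε
      exact ⟨u, h1.mono hsub, fun t ht => h2 t (hsub' ht), fun t ht => h3 t (hsub ht)⟩
    · intro ε hε
      obtain ⟨u, h1, h2, h3⟩ := h (-α) (-β) ε hε
      refine ⟨u, h1.mono hsub, fun t ht => h2 t (hsub' ht), fun t ht => ?_⟩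
      have := h3 t (hsub ht)
      convert this using 2
      rw [show (-α + -β * t) * G t = -((α + β * t) * G t) by ring, Complex.neg_re]
      ring
  -- the Poisson formula
  have P2 : ∀ α β : ℂ, ∀ w ∈ ball c r,
      Real.circleAverage (poissonKernel c w • fun t => (α + β * t) * G t) c r =
        (α + β * w) * G w := by
    intro α β w hw
    have hint : ∀ α β : ℂ, CircleIntegrable (poissonKernel c w • fun t => (α + β * t) * G t) c r := by
      intro α β
      apply ContinuousOn.circleIntegrable hr.le
      exact (poissonKernel_continuousOn hw).smul ((by fun_prop : ContinuousOn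
        (fun t : ℂ => α + β * t) (sphere c r)).mul hGs)
    apply Complex.ext
    · have h4 := Complex.reCLM.circleAverage_comp_comm (hint α β)
      rw [Complex.reCLM_apply] at h4
      rw [← h4, ← P1 α β w hw]
      congr 1
      funext z
      simp
    · have h4 := Complex.imCLM.circleAverage_comp_comm (hint α β)
      rw [Complex.imCLM_apply] at h4
      have h5 := P1 (-I * α) (-I * β) w hw
      have h6 : ∀ z : ℂ, ((-I * α + -I * β * z) * G z).re = ((α + β * z) * G z).im := by
        intro z
        rw [show (-I * α + -I * β * z) * G z = -I * ((α + β * z) * G z) by ring]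
        simp [Complex.mul_re]
      rw [← h4, ← h6 w, ← h5]
      congr 1
      funext z
      have := h6 z
      simp only [Function.comp_apply, Complex.imCLM_apply, Pi.smul_apply', Complex.real_smul,
        smul_eq_mul]
      rw [this, Complex.im_ofReal_mul]
  -- the Cauchy formula
  have P3 : ∀ w ∈ ball c r, G w = (2 * π * I : ℂ)⁻¹ • ∮ z in C(c, r), (z - w)⁻¹ • G z := by
    intro w hw
    have hw' : ‖w - c‖ < r := mem_ball_iff_norm.1 hw
    have hden : ((r : ℂ) ^ 2 - ‖w - c‖ ^ 2) ≠ 0 := by
      have : (r ^ 2 - ‖w - c‖ ^ 2 : ℝ) ≠ 0 := by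
        have := norm_nonneg (w - c)
        nlinarith
      exact_mod_cast this
    have h1 := P2 (((r : ℂ) ^ 2 + conj (w - c) * c) / ((r : ℂ) ^ 2 - ‖w - c‖ ^ 2))
      (-conj (w - c) / ((r : ℂ) ^ 2 - ‖w - c‖ ^ 2)) w hw
    have h2 : ((r : ℂ) ^ 2 + conj (w - c) * c) / ((r : ℂ) ^ 2 - ‖w - c‖ ^ 2) +
      (-conj (w - c) / ((r : ℂ) ^ 2 - ‖w - c‖ ^ 2)) * w = 1 := by
      field_simp
      have : conj (w - c) * (w - c) = (‖w - c‖ : ℂ) ^ 2 := Complex.conj_mul' _
      linear_combination -this
    rw [h2, one_mul] at h1
    rw [← h1, Real.circleAverage_eq_circleIntegral hr.ne']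
    congr 1
    apply circleIntegral.integral_congr hr.le
    intro z hz
    have hzc : ‖z - c‖ = r := mem_sphere_iff_norm.1 hz
    have hzc0 : z - c ≠ 0 := by
      intro h0
      rw [h0, norm_zero] at hzc
      exact hr.ne hzc
    have hzw : z - w ≠ 0 := by
      intro h0
      rw [sub_eq_zero] at h0
      rw [h0] at hzc
      exact hw'.ne hzc
    have e1 : (poissonKernel c w z : ℂ) = ((r : ℂ) ^ 2 - ‖w - c‖ ^ 2) /
        ((z - w) * conj (z - w)) := by
      rw [poissonKernel_def, Complex.mul_conj']
      push_cast
      rw [hzc]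
      congr 2
      ring_nf
    have hzz : (z - c) * conj (z - c) = (r : ℂ) ^ 2 := by
      rw [Complex.mul_conj', hzc]
    have hczw : conj (z - w) ≠ 0 := (map_ne_zero _).2 hzw
    simp only [Pi.smul_apply', Complex.real_smul, smul_eq_mul]
    rw [e1]
    have e2 : ((r : ℂ) ^ 2 + conj (w - c) * c) / ((r : ℂ) ^ 2 - ‖w - c‖ ^ 2) +
        (-conj (w - c) / ((r : ℂ) ^ 2 - ‖w - c‖ ^ 2)) * z =
        (z - c) * conj (z - w) / ((r : ℂ) ^ 2 - ‖w - c‖ ^ 2) := by
      rw [div_add' _ _ _ hden, div_mul_eq_mul_div, div_mul_cancel₀ _ hden]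
      congr 1
      rw [← hzz]
      simp only [map_sub]
      ring
    rw [e2]
    field_simp
  have hint : CircleIntegrable G c r := hGs.circleIntegrable hr.le
  lift r to NNReal using hr.le with r'
  have hps := hasFPowerSeriesOn_cauchy_integral (f := G) (c := c) (R := r') hint
    (by exact_mod_cast hr)
  have han : AnalyticAt ℂ (fun w => (2 * π * I : ℂ)⁻¹ • ∮ z in C(c, r'), (z - w)⁻¹ • G z) t := by
    apply hps.analyticOnNhd t
    rw [Metric.eball_coe]
    exact mem_ball.2 hr1
  refine han.congr ?_
  filter_upwards [isOpen_ball.mem_nhds (mem_ball.2 hr1)] with w hw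
  exact (P3 w hw).symm

end Pool.Agent.TH735.FO
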