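import Pool.Agent.TH735.FO.Ana
import Pool.Agent.TH735.QM.Basic

/-!
The number of points of an analytically moving family of polynomial growth is generically
constant.
-/

set_option autoImplicit false

namespace Pool.Agent.TH735.FO

open Set Filter Topology Complex Metric Real Function Polynomial

noncomputable def wt (m : ℂ → ℂ → ℕ) (K : ℕ) (P : ℂ[X]) (t : ℂ) : ℂ :=
  ∑ j ∈ Finset.range (P.natDegree + 1), P.coeff j * G m (K + j) t

theorem wt_hasSum {D : Set ℂ} {m : ℂ → ℂ → ℕ} (h : Dv D m) {δ : ℝ} {C ρ : ℕ}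
    (g : Gr D m δ C ρ) {t : ℂ} (ht : t ∈ D) {K : ℕ} (hK : ρ + 2 ≤ K) (P : ℂ[X]) :
    HasSum (fun x => m t x • (((x : ℂ) ^ K)⁻¹ * P.eval x⁻¹)) (wt m K P t) := by
  have h1 : ∀ j ∈ Finset.range (P.natDegree + 1),
      HasSum (fun x : ℂ => P.coeff j * (m t x • ((x : ℂ) ^ (K + j))⁻¹))
        (P.coeff j * G m (K + j) t) := fun j _ =>
    (g.summable h ht (by omega)).hasSum.mul_left _
  refine (hasSum_sum h1).congr_fun ?_
  intro x
  rw [eval_eq_sum_range, Finset.mul_sum, Finset.smul_sum]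
  refine Finset.sum_congr rfl fun j _ => ?_
  rw [pow_add, mul_inv, inv_pow, nsmul_eq_mul, nsmul_eq_mul]
  ring

theorem wt_analytic {c : ℂ} {R : ℝ} {m : ℂ → ℂ → ℕ} (h : Dv (ball c R) m) {δ : ℝ} {C ρ : ℕ}
    (g : Gr (ball c R) m δ C ρ) {K : ℕ} (hK : ρ + 2 ≤ K) (P : ℂ[X]) :
    AnalyticOnNhd ℂ (wt m K P) (ball c R) := by
  intro t ht
  exact Finset.analyticAt_fun_sum _ fun j _ =>
    analyticAt_const.mul (G_analytic h g (by omega) t ht)

/-- the interpolation matrix -/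
noncomputable def WW (m : ℂ → ℂ → ℕ) (K : ℕ) (M : Finset ℂ) (t : ℂ) : Matrix M M ℂ :=
  Matrix.of fun a b => wt m K (Lagrange.basis M (fun x : ℂ => x⁻¹) a *
    Lagrange.basis M (fun x : ℂ => x⁻¹) b) t

theorem WW_det_analytic {c : ℂ} {R : ℝ} {m : ℂ → ℂ → ℕ} (h : Dv (ball c R) m) {δ : ℝ}
    {C ρ : ℕ} (g : Gr (ball c R) m δ C ρ) {K : ℕ} (hK : ρ + 2 ≤ K) (M : Finset ℂ) :
    AnalyticOnNhd ℂ (fun t => (WW m K M t).det) (ball c R) := by
  intro t ht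
  simp_rw [Matrix.det_apply']
  refine Finset.analyticAt_fun_sum _ fun σ _ => analyticAt_const.mul ?_
  refine Finset.analyticAt_fun_prod _ fun i _ => ?_
  exact wt_analytic h g hK _ t ht

theorem WW_det_zero {D : Set ℂ} {m : ℂ → ℂ → ℕ} (h : Dv D m) {δ : ℝ} {C ρ : ℕ}
    (g : Gr D m δ C ρ) {t : ℂ} (ht : t ∈ D) {K : ℕ} (hK : ρ + 2 ≤ K) (M : Finset ℂ)
    {T : Finset ℂ} (hT : ∀ x, m t x ≠ 0 → x ∈ T) (hTM : T.card < M.card) :
    (WW m K M t).det = 0 := by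
  classical
  set Q : ℂ → ℂ[X] := fun a => Lagrange.basis M (fun x : ℂ => x⁻¹) a with hQ
  have hfac : WW m K M t = (Matrix.of fun (a : M) (x : T) =>
      (m t x : ℂ) * (((x : ℂ) ^ K)⁻¹ * (Q a).eval (x : ℂ)⁻¹)) *
      (Matrix.of fun (x : T) (b : M) => (Q b).eval (x : ℂ)⁻¹) := by
    ext a b
    rw [Matrix.mul_apply]
    simp only [WW, Matrix.of_apply]
    have h1 := wt_hasSum h g ht hK (Q a * Q b)
    have h2 : HasSum (fun x => m t x • (((x : ℂ) ^ K)⁻¹ * (Q a * Q b).eval x⁻¹))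
        (∑ x ∈ T, m t x • (((x : ℂ) ^ K)⁻¹ * (Q a * Q b).eval x⁻¹)) := by
      apply hasSum_sum_of_ne_finset_zero
      intro x hx
      have : m t x = 0 := by
        by_contra hne
        exact hx (hT x hne)
      rw [this, zero_smul]
    rw [h1.unique h2, ← Finset.sum_coe_sort T]
    refine Finset.sum_congr rfl fun x _ => ?_
    rw [eval_mul, nsmul_eq_mul]
    ring
  by_contra hdet
  have hunit : IsUnit (WW m K M t) := by
    rw [Matrix.isUnit_iff_isUnit_det]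
    exact isUnit_iff_ne_zero.2 hdet
  have h3 := Matrix.rank_of_isUnit _ hunit
  have h4 : (WW m K M t).rank ≤ T.card := by
    rw [hfac]
    refine (Matrix.rank_mul_le_left _ _).trans ?_
    refine (Matrix.rank_le_card_width _).trans ?_
    rw [Fintype.card_coe]
  rw [h3, Fintype.card_coe] at h4
  omega

theorem WW_det_ne {D : Set ℂ} {m : ℂ → ℂ → ℕ} (h : Dv D m) {δ : ℝ} {C ρ : ℕ}
    (g : Gr D m δ C ρ) {t : ℂ} (ht : t ∈ D) {r₀ : ℝ} (hr₀ : 0 < r₀) {M : Finset ℂ}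
    (hM : ∀ x, x ∈ M ↔ (‖x‖ ≤ r₀ ∧ m t x ≠ 0)) :
    ∃ K, ρ + 2 ≤ K ∧ (WW m K M t).det ≠ 0 := by
  classical
  have hδ := g.pos
  set Q : ℂ → ℂ[X] := fun a => Lagrange.basis M (fun x : ℂ => x⁻¹) a with hQ
  have hinj : InjOn (fun x : ℂ => x⁻¹) M := fun x _ y _ hxy => inv_injective hxy
  have hQself : ∀ a ∈ M, (Q a).eval a⁻¹ = 1 := fun a ha => Lagrange.eval_basis_self hinj ha
  have hQne : ∀ a b, a ≠ b → b ∈ M → (Q a).eval b⁻¹ = 0 := fun a b hab hb =>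
    Lagrange.eval_basis_of_ne hab hb
  -- a gap
  obtain ⟨r₁, hr₁, hgap⟩ : ∃ r₁ > r₀, ∀ x, m t x ≠ 0 → x ∉ M → r₁ ≤ ‖x‖ := by
    have hfin : {x | ‖x‖ ≤ r₀ + 1 ∧ m t x ≠ 0}.Finite := h.fin t ht (r₀ + 1)
    set N := hfin.toFinset.filter (fun x => x ∉ M) with hN
    by_cases hne : N.Nonempty
    · obtain ⟨p, hp, hpmin⟩ := Finset.exists_min_image N (fun x => ‖x‖) hne
      refine ⟨min (r₀ + 1) ‖p‖, lt_min (by linarith) ?_, ?_⟩
      · rw [hN, Finset.mem_filter, Set.Finite.mem_toFinset] at hp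
        by_contra hlt
        exact hp.2 ((hM p).2 ⟨not_lt.1 hlt, hp.1.2⟩)
      · intro x hx hxM
        by_cases hx1 : ‖x‖ ≤ r₀ + 1
        · refine (min_le_right _ _).trans (hpmin x ?_)
          rw [hN, Finset.mem_filter, Set.Finite.mem_toFinset]
          exact ⟨⟨hx1, hx⟩, hxM⟩
        · exact (min_le_left _ _).trans (not_le.1 hx1).le
    · refine ⟨r₀ + 1, by linarith, ?_⟩
      intro x hx hxM
      by_contra hlt
      apply hne
      refine ⟨x, ?_⟩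
      rw [hN, Finset.mem_filter, Set.Finite.mem_toFinset]
      exact ⟨⟨(not_le.1 hlt).le, hx⟩, hxM⟩
  have hr₁0 : 0 < r₁ := hr₀.trans hr₁
  -- a bound of the polynomials
  obtain ⟨L, hL0, hL⟩ : ∃ L > 0, ∀ a ∈ M, ∀ b ∈ M, ∀ y : ℂ, ‖y‖ ≤ δ⁻¹ →
      ‖(Q a * Q b).eval y‖ ≤ L := by
    have h1 : ∀ p ∈ M ×ˢ M, ∃ L : ℝ, ∀ y : ℂ, ‖y‖ ≤ δ⁻¹ → ‖(Q p.1 * Q p.2).eval y‖ ≤ L := by
      intro p _
      obtain ⟨L, hL⟩ := (isCompact_closedBall (0 : ℂ) δ⁻¹).exists_bound_of_continuousOn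
        (f := fun y => (Q p.1 * Q p.2).eval y) (by fun_prop)
      exact ⟨L, fun y hy => hL y (by simpa using hy)⟩
    choose! L hL using h1
    refine ⟨∑ p ∈ M ×ˢ M, |L p| + 1, by positivity, ?_⟩
    intro a ha b hb y hy
    have hp : (a, b) ∈ M ×ˢ M := Finset.mem_product.2 ⟨ha, hb⟩
    have h2 := hL (a, b) hp y hy
    have h3 : |L (a, b)| ≤ ∑ p ∈ M ×ˢ M, |L p| :=
      Finset.single_le_sum (f := fun p => |L p|) (fun _ _ => abs_nonneg _) hp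
    linarith [le_abs_self (L (a, b))]
  -- the total mass
  set k₀ := ρ + 2 with hk₀
  set S₀ : ℝ := ∑' x : ℂ, (m t x : ℝ) / ‖x‖ ^ k₀ with hS₀
  have hsum₀ := g.summable_norm h ht (k := k₀) le_rfl
  have hS₀nn : 0 ≤ S₀ := tsum_nonneg fun x => by positivity
  -- choice of K
  set q : ℝ := r₀ / r₁ with hq
  have hq0 : 0 ≤ q := by positivity
  have hq1 : q < 1 := (div_lt_one hr₁0).2 hr₁
  have hlim : Tendsto (fun j : ℕ => q ^ j * (r₀ ^ k₀ * S₀ * L)) atTop (𝓝 0) := by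
    have := (tendsto_pow_atTop_nhds_zero_of_lt_one hq0 hq1).mul_const (r₀ ^ k₀ * S₀ * L)
    rwa [zero_mul] at this
  set η : ℝ := 1 / (2 * (M.card + 1)) with hη
  have hη0 : 0 < η := by positivity
  obtain ⟨j, hj⟩ := (hlim.eventually (gt_mem_nhds hη0)).exists
  refine ⟨k₀ + j, by omega, ?_⟩
  -- entries
  have hentry : ∀ a ∈ M, ∀ b ∈ M, ‖(r₀ : ℂ) ^ (k₀ + j) * wt m (k₀ + j) (Q a * Q b) t -
      (if a = b then (r₀ : ℂ) ^ (k₀ + j) * ((m t a : ℂ) * (a ^ (k₀ + j))⁻¹) else 0)‖ < η := by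
    intro a ha b hb
    have hs := wt_hasSum h g ht (K := k₀ + j) (by omega) (Q a * Q b)
    have hfinite : HasSum (fun x => if x ∈ M then m t x • (((x : ℂ) ^ (k₀ + j))⁻¹ *
        (Q a * Q b).eval x⁻¹) else 0) (∑ x ∈ M, m t x • (((x : ℂ) ^ (k₀ + j))⁻¹ *
        (Q a * Q b).eval x⁻¹)) := by
      have h5 : HasSum (fun x : ℂ => if x ∈ M then m t x • (((x : ℂ) ^ (k₀ + j))⁻¹ *
          (Q a * Q b).eval x⁻¹) else 0) (∑ x ∈ M, if x ∈ M then m t x •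
          (((x : ℂ) ^ (k₀ + j))⁻¹ * (Q a * Q b).eval x⁻¹) else 0) :=
        hasSum_sum_of_ne_finset_zero fun x hx => if_neg hx
      rwa [Finset.sum_congr rfl (g := fun x => m t x • (((x : ℂ) ^ (k₀ + j))⁻¹ *
        (Q a * Q b).eval x⁻¹)) (fun x hx => if_pos hx)] at h5
    have hval : ∑ x ∈ M, m t x • (((x : ℂ) ^ (k₀ + j))⁻¹ * (Q a * Q b).eval x⁻¹) =
        (if a = b then (m t a : ℂ) * (a ^ (k₀ + j))⁻¹ else 0) := by
      rw [Finset.sum_eq_single a]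
      · rw [eval_mul, hQself a ha]
        split_ifs with hab
        · rw [← hab, hQself a ha, nsmul_eq_mul]
          ring
        · rw [hQne b a (fun h => hab h.symm) ha]
          simp
      · intro x hx hxa
        rw [eval_mul, hQne a x (fun h => hxa h.symm) hx]
        simp
      · intro hn
        exact absurd ha hn
    have hdiff := (hs.sub hfinite).mul_left ((r₀ : ℂ) ^ (k₀ + j))
    rw [hval, mul_sub] at hdiff
    have hif : (r₀ : ℂ) ^ (k₀ + j) * (if a = b then (m t a : ℂ) * (a ^ (k₀ + j))⁻¹ else 0) =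
        (if a = b then (r₀ : ℂ) ^ (k₀ + j) * ((m t a : ℂ) * (a ^ (k₀ + j))⁻¹) else 0) := by
      split_ifs <;> simp
    rw [hif] at hdiff
    rw [← hdiff.tsum_eq]
    refine lt_of_le_of_lt ?_ hj
    have hterm : ∀ x : ℂ, ‖(r₀ : ℂ) ^ (k₀ + j) * (m t x • (((x : ℂ) ^ (k₀ + j))⁻¹ *
        (Q a * Q b).eval x⁻¹) - if x ∈ M then m t x • (((x : ℂ) ^ (k₀ + j))⁻¹ *
        (Q a * Q b).eval x⁻¹) else 0)‖ ≤ q ^ j * (r₀ ^ k₀ * L) * ((m t x : ℝ) / ‖x‖ ^ k₀) := by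
      intro x
      by_cases hxM : x ∈ M
      · rw [if_pos hxM, sub_self, mul_zero, norm_zero]
        positivity
      rw [if_neg hxM, sub_zero]
      by_cases hmx : m t x = 0
      · simp [hmx]
      have hx1 := hgap x hmx hxM
      have hxδ := g.low t ht x hmx
      have hx0 : 0 < ‖x‖ := lt_of_lt_of_le hδ hxδ
      rw [nsmul_eq_mul, norm_mul, norm_mul, norm_mul, norm_inv, norm_pow, norm_pow,
        Complex.norm_real, Real.norm_eq_abs, abs_of_pos hr₀, Complex.norm_natCast]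
      have h6 : ‖(Q a * Q b).eval x⁻¹‖ ≤ L := hL a ha b hb x⁻¹ (by
        rw [norm_inv]
        exact inv_anti₀ hδ hxδ)
      have h7 : r₀ ^ (k₀ + j) * (‖x‖ ^ (k₀ + j))⁻¹ ≤ q ^ j * (r₀ ^ k₀ * (‖x‖ ^ k₀)⁻¹) := by
        have h8 : (r₀ * ‖x‖⁻¹) ^ j ≤ q ^ j := by
          apply pow_le_pow_left₀ (by positivity)
          rw [hq, div_eq_mul_inv]
          gcongr
        calc r₀ ^ (k₀ + j) * (‖x‖ ^ (k₀ + j))⁻¹ =
            (r₀ * ‖x‖⁻¹) ^ j * (r₀ ^ k₀ * (‖x‖ ^ k₀)⁻¹) := by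
              rw [mul_pow, inv_pow, pow_add r₀ k₀ j, pow_add ‖x‖ k₀ j, mul_inv]
              ring
          _ ≤ q ^ j * (r₀ ^ k₀ * (‖x‖ ^ k₀)⁻¹) := by gcongr
      calc r₀ ^ (k₀ + j) * ((m t x : ℝ) * ((‖x‖ ^ (k₀ + j))⁻¹ * ‖(Q a * Q b).eval x⁻¹‖))
          = (r₀ ^ (k₀ + j) * (‖x‖ ^ (k₀ + j))⁻¹) * ((m t x : ℝ) * ‖(Q a * Q b).eval x⁻¹‖) := by
            ring
        _ ≤ (q ^ j * (r₀ ^ k₀ * (‖x‖ ^ k₀)⁻¹)) * ((m t x : ℝ) * L) := by gcongr
        _ = q ^ j * (r₀ ^ k₀ * L) * ((m t x : ℝ) / ‖x‖ ^ k₀) := by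
            rw [div_eq_mul_inv]
            ring
    have hmaj := hsum₀.mul_left (q ^ j * (r₀ ^ k₀ * L))
    refine (tsum_of_norm_bounded hmaj.hasSum hterm).trans ?_
    rw [tsum_mul_left, ← hS₀]
    apply le_of_eq
    ring
  intro hdet
  have hscaled : ((r₀ : ℂ) ^ (k₀ + j) • WW m (k₀ + j) M t).det = 0 := by
    rw [Matrix.det_smul, hdet, mul_zero]
  refine det_ne_zero_of_sum_row_lt_diag (A := (r₀ : ℂ) ^ (k₀ + j) • WW m (k₀ + j) M t) ?_ hscaled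
  rintro ⟨a, ha⟩
  have hdiag : 1 - η < ‖((r₀ : ℂ) ^ (k₀ + j) • WW m (k₀ + j) M t) ⟨a, ha⟩ ⟨a, ha⟩‖ := by
    have h1 := hentry a ha a ha
    rw [if_pos rfl] at h1
    have h2 : 1 ≤ ‖(r₀ : ℂ) ^ (k₀ + j) * ((m t a : ℂ) * (a ^ (k₀ + j))⁻¹)‖ := by
      have ham := (hM a).1 ha
      have ha0 : 0 < ‖a‖ := lt_of_lt_of_le hδ (g.low t ht a ham.2)
      rw [norm_mul, norm_mul, norm_inv, norm_pow, norm_pow, Complex.norm_real,
        Real.norm_eq_abs, abs_of_pos hr₀, Complex.norm_natCast]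
      have h3 : (1 : ℝ) ≤ m t a := by exact_mod_cast Nat.one_le_iff_ne_zero.2 ham.2
      have h4 : 1 ≤ r₀ ^ (k₀ + j) * (‖a‖ ^ (k₀ + j))⁻¹ := by
        rw [← div_eq_mul_inv, one_le_div (by positivity)]
        exact pow_le_pow_left₀ ha0.le ham.1 _
      calc (1 : ℝ) ≤ (m t a : ℝ) * (r₀ ^ (k₀ + j) * (‖a‖ ^ (k₀ + j))⁻¹) := by nlinarith
        _ = r₀ ^ (k₀ + j) * ((m t a : ℝ) * (‖a‖ ^ (k₀ + j))⁻¹) := by ring
    have h5 := norm_sub_norm_le ((r₀ : ℂ) ^ (k₀ + j) * ((m t a : ℂ) * (a ^ (k₀ + j))⁻¹))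
      ((r₀ : ℂ) ^ (k₀ + j) * wt m (k₀ + j) (Q a * Q a) t)
    rw [norm_sub_rev] at h1
    simp only [Matrix.smul_apply, smul_eq_mul, WW, Matrix.of_apply]
    simp only [hQ] at h1 h5
    linarith
  have hoff : ∀ b ∈ Finset.univ.erase (⟨a, ha⟩ : M),
      ‖((r₀ : ℂ) ^ (k₀ + j) • WW m (k₀ + j) M t) ⟨a, ha⟩ b‖ ≤ η := by
    rintro ⟨b, hb⟩ hmem
    have hab : a ≠ b := by
      intro hab
      rw [Finset.mem_erase] at hmem
      exact hmem.1 (Subtype.ext hab.symm)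
    have h1 := hentry a ha b hb
    rw [if_neg hab, sub_zero] at h1
    simp only [Matrix.smul_apply, smul_eq_mul, WW, Matrix.of_apply]
    exact h1.le
  refine lt_of_le_of_lt (Finset.sum_le_sum hoff) (lt_of_le_of_lt ?_ hdiag)
  rw [Finset.sum_const, Finset.card_erase_of_mem (Finset.mem_univ _), Finset.card_univ,
    Fintype.card_coe, nsmul_eq_mul]
  have hcard : 1 ≤ M.card := Finset.card_pos.2 ⟨a, ha⟩
  have h1 : ((M.card - 1 : ℕ) : ℝ) = (M.card : ℝ) - 1 := by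
    push_cast [hcard]
    ring
  rw [h1]
  have h2 : (M.card : ℝ) * η ≤ 1 / 2 := by
    rw [hη, mul_one_div, div_le_div_iff₀ (by positivity) (by norm_num)]
    linarith
  have h3 : η ≤ 1 / 2 := by
    rw [hη]
    apply one_div_le_one_div_of_le (by norm_num)
    have : (0 : ℝ) ≤ M.card := Nat.cast_nonneg _
    linarith
  linarith

theorem count_generic {c : ℂ} {R : ℝ} {m : ℂ → ℂ → ℕ} (h : Dv (ball c R) m) {δ : ℝ} {C ρ : ℕ}
    (g : Gr (ball c R) m δ C ρ) (n : ℕ)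
    (hunc : ¬ {t | t ∈ ball c R ∧ {x | m t x ≠ 0}.encard ≤ n}.Countable) :
    ∀ t ∈ ball c R, {x | m t x ≠ 0}.encard ≤ n := by
  classical
  intro t ht
  by_contra hcon
  rw [not_le] at hcon
  have hcon' : ((n + 1 : ℕ) : ℕ∞) ≤ {x | m t x ≠ 0}.encard := by
    push_cast
    exact Order.add_one_le_of_lt hcon
  obtain ⟨T, hT, hTc⟩ := Set.exists_subset_encard_eq hcon'
  have hTfin : T.Finite := by
    rw [← Set.encard_lt_top_iff, hTc]
    exact ENat.natCast_lt_top _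
  obtain ⟨r, hr⟩ := (hTfin.isBounded).subset_closedBall (0 : ℂ)
  set r₀ := max r 1 with hr₀
  have hr₀0 : 0 < r₀ := lt_of_lt_of_le one_pos (le_max_right _ _)
  set M := (h.fin t ht r₀).toFinset with hMdef
  have hM : ∀ x, x ∈ M ↔ (‖x‖ ≤ r₀ ∧ m t x ≠ 0) := by
    intro x
    rw [hMdef, Set.Finite.mem_toFinset]
    rfl
  have hTM : T ⊆ M := by
    intro x hx
    rw [Finset.mem_coe, hM]
    exact ⟨(by simpa using hr hx : ‖x‖ ≤ r).trans (le_max_left _ _), hT hx⟩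
  have hcardM : n + 1 ≤ M.card := by
    have h1 := Set.encard_le_encard hTM
    rw [hTc, Set.encard_coe_eq_coe_finsetCard] at h1
    exact_mod_cast h1
  obtain ⟨K, hK, hdet⟩ := WW_det_ne h g ht hr₀0 hM
  apply hdet
  refine Pool.Agent.TH735.QM.eq_zero_of_uncountableOn (U := ball c R)
    (convex_ball c R).isPreconnected (WW_det_analytic h g hK M)
    (S := {t | t ∈ ball c R ∧ {x | m t x ≠ 0}.encard ≤ n}) (fun s hs => hs.1) hunc ?_ t ht
  rintro s ⟨hs, hsn⟩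
  have hfin : {x | m s x ≠ 0}.Finite := by
    rw [← Set.encard_lt_top_iff]
    exact lt_of_le_of_lt hsn (ENat.natCast_lt_top n)
  refine WW_det_zero h g hs hK M (T := hfin.toFinset) (fun x hx => ?_) ?_
  · rw [Set.Finite.mem_toFinset]
    exact hx
  · rw [hfin.encard_eq_coe_toFinset_card] at hsn
    have : hfin.toFinset.card ≤ n := by exact_mod_cast hsn
    omega

end Pool.Agent.TH735.FO
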