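import Pool.Agent.TH735.FO.Graph
import Pool.Agent.TH735.FO.GenCount
import Pool.Agent.TH735.QM.Local

/-!
The zeros of an analytic function of two variables which lie on a locally constant family of
branches move analytically with the parameter.
-/

set_option autoImplicit false

namespace Pool.Agent.TH735.FO

open Set Filter Topology Complex Metric
open Pool.Agent.TH735.QM (slice_right ball_sdiff_connected)

/-- `Γ` selects a locally constant family of branches of the zero set of `f` -/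
structure Zs (U : Set ℂ) (f : ℂ × ℂ → ℂ) (Γ : ℂ × ℂ → Prop) : Prop where
  op : IsOpen U
  an : AnalyticOnNhd ℂ f (U ×ˢ univ)
  ne : ∀ t ∈ U, ∃ x, f (t, x) ≠ 0
  loc : ∀ p : ℂ × ℂ, p.1 ∈ U → f p = 0 → ∀ φ : ℂ → ℂ, AnalyticAt ℂ φ p.1 → φ p.1 = p.2 →
    (∀ᶠ q in 𝓝 p, (f q = 0 ↔ q.2 = φ q.1)) → ∀ᶠ t in 𝓝 p.1, (Γ (t, φ t) ↔ Γ p)

/-- parameters with a bad point -/
def badT (U : Set ℂ) (f : ℂ × ℂ → ℂ) : Set ℂ := {t | t ∈ U ∧ ∃ x, f (t, x) = 0 ∧ ¬ Good f (t, x)}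

/-- selected zeros in `S` -/
def zs (f : ℂ × ℂ → ℂ) (Γ : ℂ × ℂ → Prop) (t : ℂ) (S : Set ℂ) : Set ℂ :=
  {x | x ∈ S ∧ f (t, x) = 0 ∧ Γ (t, x)}

theorem badT_countable {U : Set ℂ} {f : ℂ × ℂ → ℂ} {Γ : ℂ × ℂ → Prop} (h : Zs U f Γ) :
    (badT U f).Countable := by
  refine ((bad_countable h.op h.an h.ne).image Prod.fst).mono ?_
  rintro t ⟨ht, x, hx, hb⟩
  exact ⟨(t, x), ⟨ht, hx, hb⟩, rfl⟩

theorem zeros_discrete {g : ℂ → ℂ} (hg : Differentiable ℂ g) (h : ∃ z, g z ≠ 0) :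
    IsDiscrete {z | g z = 0} := by
  obtain ⟨x, hx⟩ := h
  have han : AnalyticOnNhd ℂ g univ := fun z _ => hg.analyticAt z
  rcases AnalyticOnNhd.eqOn_zero_or_eventually_ne_zero_of_preconnected
      (f := g) (U := univ) han isPreconnected_univ with h | h
  · exact absurd (h (mem_univ x)) hx
  · have h2 : IsDiscrete ({z | g z = 0} ∩ univ) := by
      apply isDiscrete_of_codiscreteWithin
      filter_upwards [h] with z hz
      exact hz
    rwa [inter_univ] at h2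

theorem Zs.finite {U : Set ℂ} {f : ℂ × ℂ → ℂ} {Γ : ℂ × ℂ → Prop} (h : Zs U f Γ) {t : ℂ}
    (ht : t ∈ U) {K : Set ℂ} (hK : IsCompact K) : {x | x ∈ K ∧ f (t, x) = 0}.Finite := by
  have hd := slice_right h.an ht
  have hcl : IsClosed {x | f (t, x) = 0} := isClosed_eq hd.continuous continuous_const
  have hc : IsCompact (K ∩ {x | f (t, x) = 0}) := hK.inter_right hcl
  exact hc.finite ((zeros_discrete hd (h.ne t ht)).mono inter_subset_right)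

theorem Zs.isolate {U : Set ℂ} {f : ℂ × ℂ → ℂ} {Γ : ℂ × ℂ → Prop} (h : Zs U f Γ) {t : ℂ}
    (ht : t ∈ U) (e : ℂ) : ∃ ε > 0, ∀ x ∈ closedBall e ε, f (t, x) = 0 → x = e := by
  have hd := slice_right h.an ht
  rcases (hd.analyticAt e).eventually_eq_zero_or_eventually_ne_zero with h1 | h1
  · exfalso
    obtain ⟨x, hx⟩ := h.ne t ht
    have h2 : (fun y => f (t, y)) = fun _ => 0 :=
      AnalyticOnNhd.eq_of_eventuallyEq (fun z _ => hd.analyticAt z)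
        (fun z _ => analyticAt_const) h1
    exact hx (congrFun h2 x)
  · rw [eventually_nhdsWithin_iff, Metric.eventually_nhds_iff_ball] at h1
    obtain ⟨ε, hε, h1⟩ := h1
    refine ⟨ε / 2, by positivity, ?_⟩
    intro x hx hfx
    by_contra hne
    exact h1 x (closedBall_subset_ball (by linarith) hx) hne hfx

theorem Zs.nonzero_near {U : Set ℂ} {f : ℂ × ℂ → ℂ} {Γ : ℂ × ℂ → Prop} (h : Zs U f Γ) {t : ℂ}
    (ht : t ∈ U) {K : Set ℂ} (hK : IsCompact K) (h0 : ∀ x ∈ K, f (t, x) ≠ 0) :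
    ∀ᶠ s in 𝓝 t, ∀ x ∈ K, f (s, x) ≠ 0 := by
  apply hK.eventually_forall_of_forall_eventually (P := fun s x => f (s, x) ≠ 0)
  intro x hx
  exact ((h.an (t, x) ⟨ht, mem_univ _⟩).continuousAt).eventually_ne (h0 x hx)

theorem exists_radii (E : Finset ℂ) (b : ℂ → ℝ) (hb : ∀ e, 0 < b e) :
    ∃ ε : ℂ → ℝ, (∀ e, 0 < ε e ∧ ε e ≤ b e) ∧
      ∀ e ∈ E, ∀ e' ∈ E, ∀ x, x ∈ ball e (ε e) → x ∈ ball e' (ε e') → e = e' := by
  classical
  obtain ⟨d, hd, hsep⟩ : ∃ d > 0, ∀ e ∈ E, ∀ e' ∈ E, e ≠ e' → d ≤ dist e e' := by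
    by_cases hne : (E.offDiag).Nonempty
    · obtain ⟨p, hp, hpmin⟩ := Finset.exists_min_image E.offDiag (fun p => dist p.1 p.2) hne
      refine ⟨dist p.1 p.2, ?_, ?_⟩
      · rw [Finset.mem_offDiag] at hp
        exact dist_pos.2 hp.2.2
      · intro e he e' he' hee
        exact hpmin (e, e') (Finset.mem_offDiag.2 ⟨he, he', hee⟩)
    · refine ⟨1, one_pos, ?_⟩
      intro e he e' he' hee
      exact absurd ⟨(e, e'), Finset.mem_offDiag.2 ⟨he, he', hee⟩⟩ hne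
  refine ⟨fun e => min (b e) (d / 2), fun e => ⟨lt_min (hb e) (by positivity), min_le_left _ _⟩,
    ?_⟩
  intro e he e' he' x hx hx'
  by_contra hee
  have h1 := hsep e he e' he' hee
  have h2 : dist e e' < d := by
    calc dist e e' ≤ dist x e + dist x e' := dist_triangle_left _ _ _
      _ < d / 2 + d / 2 := add_lt_add
        (lt_of_lt_of_le (mem_ball.1 hx) (min_le_right _ _))
        (lt_of_lt_of_le (mem_ball.1 hx') (min_le_right _ _))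
      _ = d := by ring
  exact absurd h1 (not_le.2 h2)

theorem Zs.good_window {U : Set ℂ} {f : ℂ × ℂ → ℂ} {Γ : ℂ × ℂ → Prop} (h : Zs U f Γ) {t₁ : ℂ}
    (ht₁ : t₁ ∈ U) {K : Set ℂ} (hK : IsCompact K)
    (hgood : ∀ x ∈ K, f (t₁, x) = 0 → Good f (t₁, x)) :
    ∃ (E : Finset ℂ) (φ : ℂ → ℂ → ℂ), (∀ a, a ∈ E ↔ (a ∈ K ∧ f (t₁, a) = 0)) ∧
      (∀ a ∈ E, AnalyticAt ℂ (φ a) t₁ ∧ φ a t₁ = a) ∧
      ∀ᶠ t in 𝓝 t₁, (∀ x ∈ K, f (t, x) = 0 → ∃ a ∈ E, x = φ a t) ∧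
        (∀ a ∈ E, f (t, φ a t) = 0 ∧ (Γ (t, φ a t) ↔ Γ (t₁, a))) ∧
        (∀ a ∈ E, ∀ b ∈ E, φ a t = φ b t → a = b) := by
  classical
  set E := (h.finite ht₁ hK).toFinset with hE
  have hmem : ∀ a, a ∈ E ↔ (a ∈ K ∧ f (t₁, a) = 0) := by
    intro a
    rw [hE, Set.Finite.mem_toFinset]
    rfl
  have hex : ∀ a, ∃ φ : ℂ → ℂ, a ∈ E → (AnalyticAt ℂ φ t₁ ∧ φ t₁ = a ∧
      ∀ᶠ q : ℂ × ℂ in 𝓝 (t₁, a), (f q = 0 ↔ q.2 = φ q.1)) := by
    intro a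
    by_cases ha : a ∈ E
    · obtain ⟨h1, h2⟩ := (hmem a).1 ha
      obtain ⟨φ, h3, h4, h5⟩ := hgood a h1 h2
      exact ⟨φ, fun _ => ⟨h3, h4, h5⟩⟩
    · exact ⟨fun _ => 0, fun h => absurd h ha⟩
  choose φ hφ using hex
  refine ⟨E, φ, hmem, fun a ha => ⟨(hφ a ha).1, (hφ a ha).2.1⟩, ?_⟩
  have e1 : ∀ᶠ t in 𝓝 t₁, ∀ x ∈ K, (f (t, x) = 0 → ∃ a ∈ E, x = φ a t) := by
    apply hK.eventually_forall_of_forall_eventually
      (P := fun t x => f (t, x) = 0 → ∃ a ∈ E, x = φ a t)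
    intro x hx
    by_cases hfx : f (t₁, x) = 0
    · have hxE : x ∈ E := (hmem x).2 ⟨hx, hfx⟩
      filter_upwards [(hφ x hxE).2.2] with q hq hq0
      exact ⟨x, hxE, hq.1 hq0⟩
    · filter_upwards [((h.an (t₁, x) ⟨ht₁, mem_univ _⟩).continuousAt).eventually_ne hfx] with q hq
      intro hq0
      exact absurd hq0 hq
  have e2 : ∀ᶠ t in 𝓝 t₁, ∀ a ∈ E, f (t, φ a t) = 0 ∧ (Γ (t, φ a t) ↔ Γ (t₁, a)) := by
    rw [Filter.eventually_all_finset]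
    intro a ha
    obtain ⟨h3, h4, h5⟩ := hφ a ha
    have hcont : Tendsto (fun t => (t, φ a t)) (𝓝 t₁) (𝓝 (t₁, a)) := by
      have : Tendsto (φ a) (𝓝 t₁) (𝓝 a) := by
        have := h3.continuousAt.tendsto
        rwa [h4] at this
      exact tendsto_id.prodMk_nhds this
    filter_upwards [hcont.eventually h5,
      h.loc (t₁, a) ht₁ ((hmem a).1 ha).2 (φ a) h3 h4 h5] with t ht ht'
    exact ⟨ht.2 rfl, ht'⟩
  have e3 : ∀ᶠ t in 𝓝 t₁, ∀ a ∈ E, ∀ b ∈ E, φ a t = φ b t → a = b := by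
    rw [Filter.eventually_all_finset]
    intro a ha
    rw [Filter.eventually_all_finset]
    intro b hb
    by_cases hab : a = b
    · exact Filter.Eventually.of_forall fun _ _ => hab
    · have h6 : φ a t₁ ≠ φ b t₁ := by
        rw [(hφ a ha).2.1, (hφ b hb).2.1]
        exact hab
      have h7 := (hφ a ha).1.continuousAt.sub (hφ b hb).1.continuousAt
      filter_upwards [h7.eventually_ne (sub_ne_zero.2 h6)] with t ht heq
      exact absurd (sub_eq_zero.2 heq) ht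
  filter_upwards [e1, e2, e3] with t h1 h2 h3
  exact ⟨h1, h2, h3⟩

theorem Zs.local_window {U : Set ℂ} {f : ℂ × ℂ → ℂ} {Γ : ℂ × ℂ → Prop} (h : Zs U f Γ) {t₁ : ℂ}
    (ht₁ : t₁ ∈ U) {e : ℂ} {ε : ℝ}
    (hgood : ∀ x ∈ closedBall e ε, f (t₁, x) = 0 → Good f (t₁, x))
    (hs : ∀ x ∈ sphere e ε, f (t₁, x) ≠ 0) :
    ∃ (E : Finset ℂ) (φ : ℂ → ℂ → ℂ),
      (∀ a ∈ E, AnalyticAt ℂ (φ a) t₁ ∧ φ a t₁ ∈ ball e ε) ∧
      ∀ᶠ t in 𝓝 t₁, InjOn (fun a => φ a t) E ∧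
        zs f Γ t (ball e ε) = (fun a => φ a t) '' E := by
  classical
  obtain ⟨E, φ, hE, hφ, hev⟩ := h.good_window ht₁ (isCompact_closedBall e ε) hgood
  have hball : ∀ a ∈ E, a ∈ ball e ε := by
    intro a ha
    obtain ⟨h1, h2⟩ := (hE a).1 ha
    rcases (mem_closedBall.1 h1).lt_or_eq with h3 | h3
    · exact h3
    · exact absurd h2 (hs a h3)
  have hin : ∀ᶠ t in 𝓝 t₁, ∀ a ∈ E, φ a t ∈ ball e ε := by
    rw [Filter.eventually_all_finset]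
    intro a ha
    apply (hφ a ha).1.continuousAt
    rw [(hφ a ha).2]
    exact isOpen_ball.mem_nhds (hball a ha)
  refine ⟨E.filter (fun a => Γ (t₁, a)), φ, ?_, ?_⟩
  · intro a ha
    have ha' := (Finset.mem_filter.1 ha).1
    exact ⟨(hφ a ha').1, by rw [(hφ a ha').2]; exact hball a ha'⟩
  · filter_upwards [hev, hin] with t ht htin
    obtain ⟨h1, h2, h3⟩ := ht
    constructor
    · intro a ha b hb hab
      rw [Finset.mem_coe, Finset.mem_filter] at ha hb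
      exact h3 a ha.1 b hb.1 hab
    · ext x
      simp only [zs, Set.mem_ofPred_eq, mem_image, Finset.mem_coe, Finset.mem_filter]
      constructor
      · rintro ⟨hx1, hx2, hx3⟩
        obtain ⟨a, ha, rfl⟩ := h1 x (ball_subset_closedBall hx1) hx2
        exact ⟨a, ⟨ha, (h2 a ha).2.1 hx3⟩, rfl⟩
      · rintro ⟨a, ⟨ha, ha'⟩, rfl⟩
        exact ⟨htin a ha, (h2 a ha).1, (h2 a ha).2.2 ha'⟩

theorem Zs.cnt_loc {U : Set ℂ} {f : ℂ × ℂ → ℂ} {Γ : ℂ × ℂ → Prop} (h : Zs U f Γ) {t₁ : ℂ}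
    (ht₁ : t₁ ∈ U) {e : ℂ} {ε : ℝ}
    (hgood : ∀ x ∈ closedBall e ε, f (t₁, x) = 0 → Good f (t₁, x))
    (hs : ∀ x ∈ sphere e ε, f (t₁, x) ≠ 0) :
    ∀ᶠ t in 𝓝 t₁, (zs f Γ t (ball e ε)).ncard = (zs f Γ t₁ (ball e ε)).ncard := by
  obtain ⟨E, φ, -, hev⟩ := h.local_window ht₁ hgood hs
  have key : ∀ᶠ t in 𝓝 t₁, (zs f Γ t (ball e ε)).ncard = E.card := by
    filter_upwards [hev] with t ht
    rw [ht.2, ht.1.ncard_image, Set.ncard_coe_finset]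
  filter_upwards [key] with t ht
  rw [ht, key.self_of_nhds]

theorem Zs.cnt_const {U : Set ℂ} {f : ℂ × ℂ → ℂ} {Γ : ℂ × ℂ → Prop} (h : Zs U f Γ) {t₀ : ℂ}
    {δ : ℝ} (hδ : 0 < δ) (hδU : ball t₀ δ ⊆ U) {e : ℂ} {ε : ℝ}
    (hs : ∀ t ∈ ball t₀ δ, ∀ x ∈ sphere e ε, f (t, x) ≠ 0) :
    ∃ N, ∀ t ∈ ball t₀ δ, t ∉ badT U f → (zs f Γ t (ball e ε)).ncard = N := by
  have hconn := ball_sdiff_connected t₀ hδ (badT_countable h)
  have hcont : ContinuousOn (fun t => (zs f Γ t (ball e ε)).ncard) (ball t₀ δ \ badT U f) := by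
    rintro t ⟨ht, htb⟩
    apply ContinuousAt.continuousWithinAt
    have hgood : ∀ x ∈ closedBall e ε, f (t, x) = 0 → Good f (t, x) := by
      intro x _ hx
      by_contra hb
      exact htb ⟨hδU ht, x, hx, hb⟩
    have := h.cnt_loc (hδU ht) hgood (hs t ht)
    exact tendsto_nhds_of_eventually_eq this
  obtain ⟨t₁, ht₁⟩ := hconn.nonempty
  refine ⟨(zs f Γ t₁ (ball e ε)).ncard, ?_⟩
  intro t ht htb
  exact hconn.isPreconnected.constant hcont ⟨ht, htb⟩ ht₁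

end Pool.Agent.TH735.FO
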