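import Pool.Agent.TH735.FO.Div

/-!
The multiplicities of the selected zeros.
-/

set_option autoImplicit false

namespace Pool.Agent.TH735.FO

open Set Filter Topology Complex Metric
open Pool.Agent.TH735.QM (slice_right ball_sdiff_connected)

/-- the number of selected zeros near `e` for generic parameters near `t` is `N` -/
def IsLim (U : Set ℂ) (f : ℂ × ℂ → ℂ) (Γ : ℂ × ℂ → Prop) (t e : ℂ) (N : ℕ) : Prop :=
  ∃ ε₀ > 0, ∀ ε ∈ Ioc (0 : ℝ) ε₀, ∀ᶠ s in 𝓝 t, s ∉ badT U f → (zs f Γ s (ball e ε)).ncard = N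

open Classical in
/-- multiplicities -/
noncomputable def mult (U : Set ℂ) (f : ℂ × ℂ → ℂ) (Γ : ℂ × ℂ → Prop) (t e : ℂ) : ℕ :=
  if h : ∃ N, IsLim U f Γ t e N then h.choose else 0

theorem exists_generic {B : Set ℂ} (hB : B.Countable) {t : ℂ} {P : ℂ → Prop}
    (hP : ∀ᶠ s in 𝓝 t, P s) : ∃ s, P s ∧ s ∉ B := by
  have hd := hB.dense_compl ℝ
  obtain ⟨δ, hδ, hδ'⟩ := Metric.eventually_nhds_iff_ball.1 hP
  obtain ⟨s, hs, hsb⟩ := hd.exists_mem_open isOpen_ball (nonempty_ball.2 hδ : (ball t δ).Nonempty)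
  exact ⟨s, hδ' s hsb, hs⟩

theorem IsLim.unique {U : Set ℂ} {f : ℂ × ℂ → ℂ} {Γ : ℂ × ℂ → Prop} (h : Zs U f Γ) {t e : ℂ}
    {N N' : ℕ} (hN : IsLim U f Γ t e N) (hN' : IsLim U f Γ t e N') : N = N' := by
  obtain ⟨ε₀, h0, h1⟩ := hN
  obtain ⟨ε₀', h0', h1'⟩ := hN'
  have e1 := h1 (min ε₀ ε₀') ⟨lt_min h0 h0', min_le_left _ _⟩
  have e2 := h1' (min ε₀ ε₀') ⟨lt_min h0 h0', min_le_right _ _⟩
  obtain ⟨s, ⟨hs1, hs2⟩, hsb⟩ := exists_generic (badT_countable h) (e1.and e2)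
  rw [← hs1 hsb, ← hs2 hsb]

theorem mult_eq {U : Set ℂ} {f : ℂ × ℂ → ℂ} {Γ : ℂ × ℂ → Prop} (h : Zs U f Γ) {t e : ℂ}
    {N : ℕ} (hN : IsLim U f Γ t e N) : mult U f Γ t e = N := by
  unfold mult
  have hex : ∃ N, IsLim U f Γ t e N := ⟨N, hN⟩
  rw [dif_pos hex]
  exact IsLim.unique h hex.choose_spec hN

theorem Zs.mult_spec {U : Set ℂ} {f : ℂ × ℂ → ℂ} {Γ : ℂ × ℂ → Prop} (h : Zs U f Γ) {t e : ℂ}
    (ht : t ∈ U) {ε₀ : ℝ} (hε₀ : 0 < ε₀) (hiso : ∀ x ∈ closedBall e ε₀, f (t, x) = 0 → x = e) :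
    ∀ ε ∈ Ioc (0 : ℝ) ε₀, ∀ᶠ s in 𝓝 t, s ∉ badT U f →
      (zs f Γ s (ball e ε)).ncard = mult U f Γ t e := by
  have key : ∃ N, ∀ ε ∈ Ioc (0 : ℝ) ε₀, ∀ᶠ s in 𝓝 t, s ∉ badT U f →
      (zs f Γ s (ball e ε)).ncard = N := by
    -- windows are constant
    have hwin : ∀ ε ∈ Ioc (0 : ℝ) ε₀, ∃ N, ∀ᶠ s in 𝓝 t, s ∉ badT U f →
        (zs f Γ s (ball e ε)).ncard = N := by
      intro ε hε
      have hsph : ∀ x ∈ sphere e ε, f (t, x) ≠ 0 := by
        intro x hx hfx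
        have := hiso x (closedBall_subset_closedBall hε.2 (sphere_subset_closedBall hx)) hfx
        rw [this, mem_sphere, dist_self] at hx
        exact hε.1.ne hx
      have h1 := h.nonzero_near ht (isCompact_sphere e ε) hsph
      obtain ⟨δ, hδ, hδ'⟩ := Metric.eventually_nhds_iff_ball.1 (h1.and (h.op.mem_nhds ht))
      obtain ⟨N, hN⟩ := h.cnt_const (e := e) (ε := ε) hδ (fun s hs => (hδ' s hs).2)
        (fun s hs => (hδ' s hs).1)
      refine ⟨N, ?_⟩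
      filter_upwards [ball_mem_nhds t hδ] with s hs hsb
      exact hN s hs hsb
    obtain ⟨N, hN⟩ := hwin ε₀ ⟨hε₀, le_rfl⟩
    refine ⟨N, ?_⟩
    intro ε hε
    have hK : IsCompact (closedBall e ε₀ \ ball e ε) := (isCompact_closedBall e ε₀).diff isOpen_ball
    have h0 : ∀ x ∈ closedBall e ε₀ \ ball e ε, f (t, x) ≠ 0 := by
      rintro x ⟨hx, hx'⟩ hfx
      rw [hiso x hx hfx] at hx'
      exact hx' (mem_ball_self hε.1)
    filter_upwards [hN, h.nonzero_near ht hK h0] with s hs hs' hsb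
    rw [← hs hsb]
    congr 1
    ext x
    simp only [zs, Set.mem_ofPred_eq]
    constructor
    · rintro ⟨h1, h2, h3⟩
      exact ⟨ball_subset_ball hε.2 h1, h2, h3⟩
    · rintro ⟨h1, h2, h3⟩
      refine ⟨?_, h2, h3⟩
      by_contra hx
      exact hs' x ⟨ball_subset_closedBall h1, hx⟩ h2
  obtain ⟨N, hN⟩ := key
  rw [mult_eq h ⟨ε₀, hε₀, hN⟩]
  exact hN

theorem Zs.mult_good {U : Set ℂ} {f : ℂ × ℂ → ℂ} {Γ : ℂ × ℂ → Prop} (h : Zs U f Γ) {t e : ℂ}
    (ht : t ∈ U) (hg : f (t, e) = 0 → Good f (t, e)) :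
    (f (t, e) = 0 ∧ Γ (t, e) → mult U f Γ t e = 1) ∧
      (¬ (f (t, e) = 0 ∧ Γ (t, e)) → mult U f Γ t e = 0) := by
  obtain ⟨ε₀, hε₀, hiso⟩ := h.isolate ht e
  have hgood : ∀ x ∈ closedBall e ε₀, f (t, x) = 0 → Good f (t, x) := by
    intro x hx hfx
    have := hiso x hx hfx
    rw [this] at hfx ⊢
    exact hg hfx
  have hsph : ∀ x ∈ sphere e ε₀, f (t, x) ≠ 0 := by
    intro x hx hfx
    have := hiso x (sphere_subset_closedBall hx) hfx
    rw [this, mem_sphere, dist_self] at hx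
    exact hε₀.ne hx
  have h1 := h.cnt_loc ht hgood hsph
  have h2 := h.mult_spec ht hε₀ hiso ε₀ ⟨hε₀, le_rfl⟩
  obtain ⟨s, ⟨hs1, hs2⟩, hsb⟩ := exists_generic (badT_countable h) (h1.and h2)
  have h3 : mult U f Γ t e = (zs f Γ t (ball e ε₀)).ncard := by
    rw [← hs2 hsb, hs1]
  constructor
  · intro hz
    rw [h3]
    have : zs f Γ t (ball e ε₀) = {e} := by
      ext x
      simp only [zs, Set.mem_ofPred_eq, mem_singleton_iff]
      constructor
      · rintro ⟨hx, hx', -⟩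
        exact hiso x (ball_subset_closedBall hx) hx'
      · rintro rfl
        exact ⟨mem_ball_self hε₀, hz⟩
    rw [this, Set.ncard_singleton]
  · intro hz
    rw [h3]
    have : zs f Γ t (ball e ε₀) = ∅ := by
      ext x
      simp only [zs, Set.mem_ofPred_eq, mem_empty_iff_false, iff_false]
      rintro ⟨hx, hx', hx''⟩
      have := hiso x (ball_subset_closedBall hx) hx'
      rw [this] at hx' hx''
      exact hz ⟨hx', hx''⟩
    rw [this, Set.ncard_empty]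

theorem Zs.mult_zero {U : Set ℂ} {f : ℂ × ℂ → ℂ} {Γ : ℂ × ℂ → Prop} (h : Zs U f Γ) {t e : ℂ}
    (ht : t ∈ U) (hm : mult U f Γ t e ≠ 0) : f (t, e) = 0 := by
  by_contra hne
  exact hm ((h.mult_good ht (fun h0 => absurd h0 hne)).2 (fun h0 => hne h0.1))

theorem Zs.mult_add {U : Set ℂ} {f : ℂ × ℂ → ℂ} {Γ : ℂ × ℂ → Prop} (h : Zs U f Γ) {t e : ℂ}
    (ht : t ∈ U) {ε : ℝ} (hsph : ∀ x ∈ sphere e ε, f (t, x) ≠ 0) {N : ℕ}
    (hN : ∀ᶠ s in 𝓝 t, s ∉ badT U f → (zs f Γ s (ball e ε)).ncard = N) :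
    ∑ᶠ x ∈ ball e ε, mult U f Γ t x = N := by
  classical
  set E := (h.finite ht (isCompact_closedBall e ε)).toFinset with hE
  have hmem : ∀ a, a ∈ E ↔ (a ∈ closedBall e ε ∧ f (t, a) = 0) := by
    intro a
    rw [hE, Set.Finite.mem_toFinset]
    rfl
  have hball : ∀ a ∈ E, a ∈ ball e ε := by
    intro a ha
    obtain ⟨h1, h2⟩ := (hmem a).1 ha
    rcases (mem_closedBall.1 h1).lt_or_eq with h3 | h3
    · exact h3
    · exact absurd h2 (hsph a h3)
  choose ε₀ hε₀ hiso using fun e => h.isolate ht e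
  have hin : ∀ a, ∃ r > 0, a ∈ E → ball a r ⊆ ball e ε := by
    intro a
    by_cases ha : a ∈ E
    · obtain ⟨r, hr, hr'⟩ := Metric.isOpen_iff.1 isOpen_ball a (hball a ha)
      exact ⟨r, hr, fun _ => hr'⟩
    · exact ⟨1, one_pos, fun h => absurd h ha⟩
  choose r hr hr' using hin
  obtain ⟨η, hη, hdisj⟩ := exists_radii E (fun a => min (ε₀ a) (r a))
    (fun a => lt_min (hε₀ a) (hr a))
  have hsub : ∀ a ∈ E, ball a (η a) ⊆ ball e ε := fun a ha =>
    (ball_subset_ball ((hη a).2.trans (min_le_right _ _))).trans (hr' a ha)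
  have hK : IsCompact (closedBall e ε \ ⋃ a ∈ E, ball a (η a)) :=
    (isCompact_closedBall e ε).diff (isOpen_biUnion fun _ _ => isOpen_ball)
  have h0 : ∀ x ∈ closedBall e ε \ ⋃ a ∈ E, ball a (η a), f (t, x) ≠ 0 := by
    rintro x ⟨hx, hx'⟩ hfx
    exact hx' (mem_iUnion₂.2 ⟨x, (hmem x).2 ⟨hx, hfx⟩, mem_ball_self (hη x).1⟩)
  have hcnt : ∀ᶠ s in 𝓝 t, ∀ a ∈ E, (s ∉ badT U f →
      (zs f Γ s (ball a (η a))).ncard = mult U f Γ t a) := by
    rw [Filter.eventually_all_finset]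
    intro a _
    exact h.mult_spec ht (hε₀ a) (hiso a) (η a) ⟨(hη a).1, (hη a).2.trans (min_le_left _ _)⟩
  obtain ⟨s, ⟨hs1, hs2, hs3, hsU⟩, hsb⟩ := exists_generic (badT_countable h)
    (hN.and (hcnt.and ((h.nonzero_near ht hK h0).and (h.op.mem_nhds ht))))
  have hfin : ∀ (a : ℂ) (r : ℝ), (zs f Γ s (ball a r)).Finite := by
    intro a r
    refine (h.finite hsU (isCompact_closedBall a r)).subset ?_
    rintro x ⟨h1, h2, -⟩
    exact ⟨ball_subset_closedBall h1, h2⟩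
  have hunion : (hfin e ε).toFinset = E.biUnion (fun a => (hfin a (η a)).toFinset) := by
    ext x
    rw [Set.Finite.mem_toFinset, Finset.mem_biUnion]
    constructor
    · rintro ⟨h1, h2, h3⟩
      by_contra hcon
      push Not at hcon
      refine hs3 x ⟨ball_subset_closedBall h1, ?_⟩ h2
      intro hx
      obtain ⟨a, ha, hxa⟩ := mem_iUnion₂.1 hx
      apply hcon a ha
      rw [Set.Finite.mem_toFinset]
      exact ⟨hxa, h2, h3⟩
    · rintro ⟨a, ha, hx⟩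
      rw [Set.Finite.mem_toFinset] at hx
      exact ⟨hsub a ha hx.1, hx.2⟩
  have hsum : (zs f Γ s (ball e ε)).ncard = ∑ a ∈ E, mult U f Γ t a := by
    rw [Set.ncard_eq_toFinset_card _ (hfin e ε), hunion, Finset.card_biUnion]
    · refine Finset.sum_congr rfl fun a ha => ?_
      rw [← Set.ncard_eq_toFinset_card _ (hfin a (η a)), hs2 a ha hsb]
    · intro a ha b hb hab
      rw [Function.onFun, Finset.disjoint_left]
      intro x hx hx'
      rw [Set.Finite.mem_toFinset] at hx hx'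
      exact hab (hdisj a ha b hb x hx.1 hx'.1)
  rw [hs1 hsb] at hsum
  rw [hsum]
  apply finsum_mem_eq_sum_of_inter_support_eq
  ext x
  simp only [mem_inter_iff, Function.mem_support, Finset.mem_coe]
  constructor
  · rintro ⟨h1, h2⟩
    exact ⟨(hmem x).2 ⟨ball_subset_closedBall h1, h.mult_zero ht h2⟩, h2⟩
  · rintro ⟨h1, h2⟩
    exact ⟨hball x h1, h2⟩

theorem Zs.dv0 {U : Set ℂ} {f : ℂ × ℂ → ℂ} {Γ : ℂ × ℂ → Prop} (h : Zs U f Γ) :
    Dv0 U (mult U f Γ) where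
  fin := by
    intro t ht r
    refine (h.finite ht (isCompact_closedBall (0 : ℂ) r)).subset ?_
    rintro x ⟨h1, h2⟩
    exact ⟨by simpa using h1, h.mult_zero ht h2⟩
  win := by
    intro t₀ ht₀ e
    obtain ⟨ε₀, hε₀, hiso⟩ := h.isolate ht₀ e
    refine ⟨ε₀, hε₀, ?_⟩
    intro ε hε
    constructor
    · have hK : IsCompact (closedBall e ε₀ \ ball e ε) :=
        (isCompact_closedBall e ε₀).diff isOpen_ball
      have h0 : ∀ x ∈ closedBall e ε₀ \ ball e ε, f (t₀, x) ≠ 0 := by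
        rintro x ⟨hx, hx'⟩ hfx
        rw [hiso x hx hfx] at hx'
        exact hx' (mem_ball_self hε.1)
      filter_upwards [h.nonzero_near ht₀ hK h0, h.op.mem_nhds ht₀] with t ht htU x hx hm
      by_contra hx'
      exact ht x ⟨ball_subset_closedBall hx, hx'⟩ (h.mult_zero htU hm)
    · have hsph : ∀ x ∈ sphere e ε, f (t₀, x) ≠ 0 := by
        intro x hx hfx
        have := hiso x (closedBall_subset_closedBall hε.2 (sphere_subset_closedBall hx)) hfx
        rw [this, mem_sphere, dist_self] at hx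
        exact hε.1.ne hx
      have h1 := h.nonzero_near ht₀ (isCompact_sphere e ε) hsph
      have h2 := h.mult_spec ht₀ hε₀ hiso ε hε
      filter_upwards [h1, h2.eventually_nhds, h.op.mem_nhds ht₀] with t ht1 ht2 htU
      exact h.mult_add htU ht1 ht2

end Pool.Agent.TH735.FO
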