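import Pool.Agent.TH735.FO.Div2

/-!
The selected zeros move analytically.
-/

set_option autoImplicit false

namespace Pool.Agent.TH735.FO

open Set Filter Topology Complex Metric

theorem Good.near {f : ℂ × ℂ → ℂ} {p : ℂ × ℂ} (h : Good f p) :
    ∀ᶠ q in 𝓝 p, f q = 0 → Good f q := by
  obtain ⟨φ, h1, h2, h3⟩ := h
  have h4 : ∀ᶠ q : ℂ × ℂ in 𝓝 p, AnalyticAt ℂ φ q.1 :=
    (continuousAt_fst (p := p)).eventually h1.eventually_analyticAt
  filter_upwards [h3.eventually_nhds, h4] with q h5 h6 h7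
  exact ⟨φ, h6, (h5.self_of_nhds.1 h7).symm, h5⟩

theorem Zs.good_near {U : Set ℂ} {f : ℂ × ℂ → ℂ} {Γ : ℂ × ℂ → Prop} (h : Zs U f Γ) {t : ℂ}
    (ht : t ∈ U) {K : Set ℂ} (hK : IsCompact K) (hg : ∀ x ∈ K, f (t, x) = 0 → Good f (t, x)) :
    ∀ᶠ s in 𝓝 t, ∀ x ∈ K, f (s, x) = 0 → Good f (s, x) := by
  apply hK.eventually_forall_of_forall_eventually (P := fun s x => f (s, x) = 0 → Good f (s, x))
  intro x hx
  by_cases hfx : f (t, x) = 0
  · exact (hg x hx hfx).near
  · filter_upwards [((h.an (t, x) ⟨ht, mem_univ _⟩).continuousAt).eventually_ne hfx] with q hq hq0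
    exact absurd hq0 hq

theorem Zs.cont_window {U : Set ℂ} {f : ℂ × ℂ → ℂ} {Γ : ℂ × ℂ → Prop} (h : Zs U f Γ) {t : ℂ}
    (ht : t ∈ U) {e : ℂ} {ε : ℝ} (hsph : ∀ x ∈ sphere e ε, f (t, x) ≠ 0) {ψ : ℂ → ℂ}
    (hψ : ContinuousOn ψ (ball e ε)) :
    ContinuousAt (fun t => ∑ᶠ x ∈ ball e ε, mult U f Γ t x • ψ x) t := by
  classical
  have hre : (fun t => ∑ᶠ x ∈ ball e ε, mult U f Γ t x • ψ x) =
      fun t => ∑ᶠ x, mult U f Γ t x • ((ball e ε).indicator ψ x) := by
    funext t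
    rw [finsum_mem_def]
    refine finsum_congr fun x => ?_
    by_cases hx : x ∈ ball e ε
    · rw [indicator_of_mem hx, indicator_of_mem hx]
    · rw [indicator_of_notMem hx, indicator_of_notMem hx, smul_zero]
  rw [hre]
  refine h.dv0.continuousAt_sum h.op ht (r := ‖e‖ + ε) (Φ := fun _ x => (ball e ε).indicator ψ x)
    ?_ ?_
  · refine Filter.Eventually.of_forall fun t x hx => ?_
    apply indicator_of_notMem
    intro hxb
    rw [mem_ball_iff_norm] at hxb
    have : ‖x‖ ≤ ‖e‖ + ‖x - e‖ := by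
      have := norm_add_le e (x - e)
      rwa [add_sub_cancel] at this
    linarith
  · intro x hm
    have hfx := h.mult_zero ht hm
    have hxs : x ∉ sphere e ε := fun hx => hsph x hx hfx
    by_cases hxb : x ∈ ball e ε
    · have h1 : ContinuousAt ψ x := hψ.continuousAt (isOpen_ball.mem_nhds hxb)
      have h2 : ContinuousAt (fun p : ℂ × ℂ => ψ p.2) (t, x) :=
        ContinuousAt.comp (f := fun p : ℂ × ℂ => p.2) (g := ψ) (x := (t, x)) h1 continuousAt_snd
      refine h2.congr_of_eventuallyEq ?_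
      have h3 : ∀ᶠ p : ℂ × ℂ in 𝓝 (t, x), p.2 ∈ ball e ε :=
        (continuousAt_snd (p := ((t, x) : ℂ × ℂ))).eventually (isOpen_ball.mem_nhds hxb)
      filter_upwards [h3] with p hp
      exact indicator_of_mem hp ψ
    · have hxc : x ∈ (closedBall e ε)ᶜ := by
        intro hx
        rcases (mem_closedBall.1 hx).lt_or_eq with h3 | h3
        · exact hxb h3
        · exact hxs h3
      have h2 : ContinuousAt (fun _ : ℂ × ℂ => (0 : ℂ)) (t, x) := continuousAt_const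
      refine h2.congr_of_eventuallyEq ?_
      have h3 : ∀ᶠ p : ℂ × ℂ in 𝓝 (t, x), p.2 ∈ (closedBall e ε)ᶜ :=
        (continuousAt_snd (p := ((t, x) : ℂ × ℂ))).eventually
          (isClosed_closedBall.isOpen_compl.mem_nhds hxc)
      filter_upwards [h3] with p hp
      exact indicator_of_notMem (fun hx => hp (ball_subset_closedBall hx)) ψ

theorem Zs.diff_window {U : Set ℂ} {f : ℂ × ℂ → ℂ} {Γ : ℂ × ℂ → Prop} (h : Zs U f Γ) {t : ℂ}
    (ht : t ∈ U) {e : ℂ} {ε : ℝ} (hsph : ∀ x ∈ sphere e ε, f (t, x) ≠ 0)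
    (hgood : ∀ x ∈ closedBall e ε, f (t, x) = 0 → Good f (t, x)) {ψ : ℂ → ℂ}
    (hψ : AnalyticOnNhd ℂ ψ (ball e ε)) :
    AnalyticAt ℂ (fun t => ∑ᶠ x ∈ ball e ε, mult U f Γ t x • ψ x) t := by
  classical
  obtain ⟨E, φ, hφ, hev⟩ := h.local_window ht hgood hsph
  have h1 : AnalyticAt ℂ (fun t => ∑ a ∈ E, ψ (φ a t)) t := by
    refine Finset.analyticAt_fun_sum _ fun a ha => ?_
    exact (hψ (φ a t) (hφ a ha).2).comp (hφ a ha).1
  refine h1.congr ?_
  filter_upwards [hev, h.good_near ht (isCompact_closedBall e ε) hgood, h.op.mem_nhds ht]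
    with s hs hg hsU
  obtain ⟨hinj, hzs⟩ := hs
  have hm1 : ∀ x ∈ zs f Γ s (ball e ε), mult U f Γ s x = 1 := by
    rintro x ⟨hx1, hx2, hx3⟩
    exact (h.mult_good hsU (fun h0 => hg x (ball_subset_closedBall hx1) h0)).1 ⟨hx2, hx3⟩
  have h2 : ∑ᶠ x ∈ ball e ε, mult U f Γ s x • ψ x =
      ∑ x ∈ E.image (fun a => φ a s), mult U f Γ s x • ψ x := by
    apply finsum_mem_eq_sum_of_inter_support_eq
    ext x
    simp only [mem_inter_iff, Function.mem_support, Finset.coe_image]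
    rw [← hzs]
    constructor
    · rintro ⟨hx1, hx2⟩
      have hm : mult U f Γ s x ≠ 0 := fun h0 => hx2 (by simp [h0])
      have hfx := h.mult_zero hsU hm
      refine ⟨⟨hx1, hfx, ?_⟩, hx2⟩
      by_contra hΓ
      exact hm ((h.mult_good hsU (fun h0 => hg x (ball_subset_closedBall hx1) h0)).2
        fun h => hΓ h.2)
    · rintro ⟨⟨hx1, -, -⟩, hx2⟩
      exact ⟨hx1, hx2⟩
  show ∑ a ∈ E, ψ (φ a s) = ∑ᶠ x ∈ ball e ε, mult U f Γ s x • ψ x
  rw [h2, Finset.sum_image hinj]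
  refine Finset.sum_congr rfl fun a ha => ?_
  rw [hm1 (φ a s) (by rw [hzs]; exact ⟨a, ha, rfl⟩), one_smul]

theorem Zs.dv {U : Set ℂ} {f : ℂ × ℂ → ℂ} {Γ : ℂ × ℂ → Prop} (h : Zs U f Γ) :
    Dv U (mult U f Γ) where
  toDv0 := h.dv0
  an := by
    intro t₀ ht₀ e
    obtain ⟨ε₀, hε₀, hiso⟩ := h.isolate ht₀ e
    refine ⟨ε₀, hε₀, ?_⟩
    intro ε hε ψ hψ
    have hsph : ∀ x ∈ sphere e ε, f (t₀, x) ≠ 0 := by
      intro x hx hfx
      have := hiso x (closedBall_subset_closedBall hε.2 (sphere_subset_closedBall hx)) hfx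
      rw [this, mem_sphere, dist_self] at hx
      exact hε.1.ne hx
    have h1 := h.nonzero_near ht₀ (isCompact_sphere e ε) hsph
    obtain ⟨δ, hδ, hδ'⟩ := Metric.eventually_nhds_iff_ball.1 (h1.and (h.op.mem_nhds ht₀))
    set δ' : NNReal := ⟨δ / 2, by positivity⟩ with hδ'def
    have hδ'pos : 0 < δ' := by
      rw [← NNReal.coe_pos]
      exact half_pos hδ
    have hsub : closedBall t₀ (δ' : ℝ) ⊆ ball t₀ δ :=
      closedBall_subset_ball (half_lt_self hδ)
    have key := Complex.hasFPowerSeriesOnBall_of_differentiable_off_countable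
      (f := fun t => ∑ᶠ x ∈ ball e ε, mult U f Γ t x • ψ x) (c := t₀) (R := δ')
      (badT_countable h) (by
        intro t ht
        exact (h.cont_window (hδ' t (hsub ht)).2 (hδ' t (hsub ht)).1
          hψ.continuousOn).continuousWithinAt) (by
        rintro t ⟨ht, htb⟩
        have ht' := hδ' t (hsub (ball_subset_closedBall ht))
        refine (h.diff_window ht'.2 ht'.1 ?_ hψ).differentiableAt
        intro x _ hfx
        by_contra hb
        exact htb ⟨ht'.2, x, hfx, hb⟩) hδ'pos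
    exact key.analyticAt

end Pool.Agent.TH735.FO
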