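import Pool.Agent.TH735.FO.Crit

/-!
Families of discrete weights which move analytically, and sums over them.
-/

set_option autoImplicit false

namespace Pool.Agent.TH735.FO

open Set Filter Topology Complex Metric Real ComplexConjugate Function

/-- The weights `m t x` (at the point `x`) move continuously with the parameter `t`. -/
structure Dv0 (D : Set ℂ) (m : ℂ → ℂ → ℕ) : Prop where
  fin : ∀ t ∈ D, ∀ r : ℝ, {x | ‖x‖ ≤ r ∧ m t x ≠ 0}.Finite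
  win : ∀ t₀ ∈ D, ∀ e : ℂ, ∃ ε₀ > 0, ∀ ε ∈ Ioc (0 : ℝ) ε₀,
    (∀ᶠ t in 𝓝 t₀, ∀ x ∈ ball e ε₀, m t x ≠ 0 → x ∈ ball e ε) ∧
    (∀ᶠ t in 𝓝 t₀, ∑ᶠ x ∈ ball e ε, m t x = m t₀ e)

/-- The weights `m t x` (at the point `x`) move analytically with the parameter `t`. -/
structure Dv (D : Set ℂ) (m : ℂ → ℂ → ℕ) : Prop extends Dv0 D m where
  an : ∀ t₀ ∈ D, ∀ e : ℂ, ∃ ε₀ > 0, ∀ ε ∈ Ioc (0 : ℝ) ε₀,
    ∀ ψ : ℂ → ℂ, AnalyticOnNhd ℂ ψ (ball e ε) →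
      AnalyticAt ℂ (fun t => ∑ᶠ x ∈ ball e ε, m t x • ψ x) t₀

theorem Dv0.finS {D : Set ℂ} {m : ℂ → ℂ → ℕ} (h : Dv0 D m) {t : ℂ} (ht : t ∈ D) {S : Set ℂ}
    (hS : Bornology.IsBounded S) : {x | x ∈ S ∧ m t x ≠ 0}.Finite := by
  obtain ⟨r, hr⟩ := hS.subset_closedBall 0
  refine (h.fin t ht r).subset ?_
  rintro x ⟨hx, hx'⟩
  exact ⟨by simpa using hr hx, hx'⟩

theorem sm_eq {V : Type*} [AddCommMonoid V] {w : ℂ → ℕ} {S : Set ℂ}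
    (hfin : {x | x ∈ S ∧ w x ≠ 0}.Finite) (Φ : ℂ → V) :
    ∑ᶠ x ∈ S, w x • Φ x = ∑ x ∈ hfin.toFinset, w x • Φ x := by
  apply finsum_mem_eq_sum_of_inter_support_eq
  ext x
  simp only [mem_inter_iff, Function.mem_support, Set.Finite.coe_toFinset, Set.mem_ofPred_eq]
  constructor
  · rintro ⟨h1, h2⟩
    exact ⟨⟨h1, fun h => h2 (by simp [h])⟩, h2⟩
  · rintro ⟨⟨h1, -⟩, h2⟩
    exact ⟨h1, h2⟩

theorem sm_eq_nat {w : ℂ → ℕ} {S : Set ℂ}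
    (hfin : {x | x ∈ S ∧ w x ≠ 0}.Finite) :
    ∑ᶠ x ∈ S, w x = ∑ x ∈ hfin.toFinset, w x := by
  have := sm_eq hfin (fun _ => (1 : ℕ))
  simpa using this

/-- the weights vanish near a compact set where they vanish for `t₀` -/
theorem Dv0.compact {D : Set ℂ} (hD : IsOpen D) {m : ℂ → ℂ → ℕ} (h : Dv0 D m) {t₀ : ℂ}
    (ht₀ : t₀ ∈ D) {K : Set ℂ} (hK : IsCompact K) (hK0 : ∀ x ∈ K, m t₀ x = 0) :
    ∀ᶠ t in 𝓝 t₀, ∀ x ∈ K, m t x = 0 := by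
  refine hK.induction_on (p := fun K => ∀ᶠ t in 𝓝 t₀, ∀ x ∈ K, m t x = 0) ?_ ?_ ?_ ?_
  · exact Filter.Eventually.of_forall fun t x hx => absurd hx (notMem_empty x)
  · intro s t hst ht
    filter_upwards [ht] with z hz x hx
    exact hz x (hst hx)
  · intro s t hs ht
    filter_upwards [hs, ht] with z hz hz' x hx
    rcases hx with hx | hx
    · exact hz x hx
    · exact hz' x hx
  · intro e he
    obtain ⟨ε₀, hε₀, hwin⟩ := h.win t₀ ht₀ e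
    obtain ⟨-, h2⟩ := hwin ε₀ ⟨hε₀, le_rfl⟩
    refine ⟨ball e ε₀, mem_nhdsWithin_of_mem_nhds (ball_mem_nhds e hε₀), ?_⟩
    rw [hK0 e he] at h2
    filter_upwards [h2, hD.mem_nhds ht₀] with t ht htD x hx
    have hfin := h.finS htD (isBounded_ball (x := e) (r := ε₀))
    rw [sm_eq_nat hfin, Finset.sum_eq_zero_iff] at ht
    by_contra hne
    exact hne (ht x (by simp only [Set.Finite.mem_toFinset, Set.mem_ofPred_eq]; exact ⟨hx, hne⟩))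

/-- decomposition of sums over the weights -/
theorem Dv0.decomp {D : Set ℂ} (hD : IsOpen D) {m : ℂ → ℂ → ℕ} (h : Dv0 D m) {t₀ : ℂ}
    (ht₀ : t₀ ∈ D) (r : ℝ) (b : ℂ → ℝ) (hb : ∀ e, 0 < b e) :
    ∃ (E : Finset ℂ) (ε : ℂ → ℝ), (∀ e, e ∈ E ↔ (‖e‖ ≤ r ∧ m t₀ e ≠ 0)) ∧
      (∀ e, 0 < ε e ∧ ε e ≤ b e) ∧
      (∀ e, ∀ ε' > 0, ∀ᶠ t in 𝓝 t₀, ∀ x ∈ ball e (ε e), m t x ≠ 0 → x ∈ ball e ε') ∧
      (∀ e, ∀ᶠ t in 𝓝 t₀, ∑ᶠ x ∈ ball e (ε e), m t x = m t₀ e) ∧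
      (∀ e ∈ E, ∀ e' ∈ E, ∀ x, x ∈ ball e (ε e) → x ∈ ball e' (ε e') → e = e') ∧
      (∀ᶠ t in 𝓝 t₀, ∀ (V : Type) [AddCommMonoid V] (Φ : ℂ → V), (∀ x, r < ‖x‖ → Φ x = 0) →
        ∑ᶠ x, m t x • Φ x = ∑ e ∈ E, ∑ᶠ x ∈ ball e (ε e), m t x • Φ x) := by
  classical
  choose ε₀ hε₀ hwin using fun e => h.win t₀ ht₀ e
  set E := (h.fin t₀ ht₀ r).toFinset with hE
  have hmemE : ∀ e, e ∈ E ↔ (‖e‖ ≤ r ∧ m t₀ e ≠ 0) := by
    intro e
    rw [hE, Set.Finite.mem_toFinset]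
    rfl
  -- separation
  obtain ⟨d, hd, hsep⟩ : ∃ d > 0, ∀ e ∈ E, ∀ e' ∈ E, e ≠ e' → d ≤ dist e e' := by
    by_cases hne : (E.offDiag).Nonempty
    · obtain ⟨p, hp, hpmin⟩ := Finset.exists_min_image E.offDiag (fun p => dist p.1 p.2) hne
      refine ⟨dist p.1 p.2, ?_, ?_⟩
      · rw [Finset.mem_offDiag] at hp
        exact dist_pos.2 hp.2.2
      · intro e he e' he' hee
        exact hpmin (e, e') (Finset.mem_offDiag.2 ⟨he, he', hee⟩)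
    · refine ⟨1, one_pos, ?_⟩
      intro e he e' he' hee
      exact absurd ⟨(e, e'), Finset.mem_offDiag.2 ⟨he, he', hee⟩⟩ hne
  set ε : ℂ → ℝ := fun e => min (min (ε₀ e) (b e)) (d / 2) with hε
  have hεpos : ∀ e, 0 < ε e := fun e => lt_min (lt_min (hε₀ e) (hb e)) (by positivity)
  have hεle : ∀ e, ε e ≤ ε₀ e := fun e => (min_le_left _ _).trans (min_le_left _ _)
  have hdisj : ∀ e ∈ E, ∀ e' ∈ E, ∀ x, x ∈ ball e (ε e) → x ∈ ball e' (ε e') → e = e' := by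
    intro e he e' he' x hx hx'
    by_contra hee
    have h1 := hsep e he e' he' hee
    have h2 : dist e e' < d := by
      calc dist e e' ≤ dist x e + dist x e' := dist_triangle_left _ _ _
        _ < d / 2 + d / 2 := add_lt_add
          (lt_of_lt_of_le (mem_ball.1 hx) (min_le_right _ _))
          (lt_of_lt_of_le (mem_ball.1 hx') (min_le_right _ _))
        _ = d := by ring
    exact absurd h1 (not_le.2 h2)
  have hcomp : ∀ᶠ t in 𝓝 t₀, ∀ x ∈ closedBall (0 : ℂ) r \ ⋃ e ∈ E, ball e (ε e), m t x = 0 := by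
    apply h.compact hD ht₀
    · apply (isCompact_closedBall (0 : ℂ) r).diff
      exact isOpen_biUnion fun e _ => isOpen_ball
    · rintro x ⟨hx, hx'⟩
      by_contra hne
      apply hx'
      refine mem_iUnion₂.2 ⟨x, (hmemE x).2 ⟨by simpa using hx, hne⟩, mem_ball_self (hεpos x)⟩
  refine ⟨E, ε, hmemE, fun e => ⟨hεpos e, (min_le_left _ _).trans (min_le_right _ _)⟩, ?_, ?_,
    hdisj, ?_⟩
  · intro e ε' hε'
    obtain ⟨h1, -⟩ := hwin e (min ε' (ε₀ e)) ⟨lt_min hε' (hε₀ e), min_le_right _ _⟩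
    filter_upwards [h1] with t ht x hx hxm
    exact ball_subset_ball (min_le_left _ _) (ht x (ball_subset_ball (hεle e) hx) hxm)
  · intro e
    exact (hwin e (ε e) ⟨hεpos e, hεle e⟩).2
  · filter_upwards [hcomp, hD.mem_nhds ht₀] with t ht htD V _ Φ hΦ
    have hfin : ∀ e, {x | x ∈ ball e (ε e) ∧ m t x ≠ 0}.Finite := fun e =>
      h.finS htD isBounded_ball
    have h1 : ∀ e, ∑ᶠ x ∈ ball e (ε e), m t x • Φ x = ∑ x ∈ (hfin e).toFinset, m t x • Φ x :=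
      fun e => sm_eq (hfin e) Φ
    simp_rw [h1]
    rw [← Finset.sum_biUnion]
    · apply finsum_eq_sum_of_support_subset
      intro x hx
      rw [Function.mem_support] at hx
      have hm : m t x ≠ 0 := fun h0 => hx (by simp [h0])
      have hxr : ‖x‖ ≤ r := by
        by_contra hlt
        exact hx (by simp [hΦ x (not_le.1 hlt)])
      simp only [Finset.coe_biUnion, mem_iUnion, Finset.mem_coe, Set.Finite.mem_toFinset,
        Set.mem_ofPred_eq]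
      by_contra hcon
      apply hm
      apply ht x
      refine ⟨by simpa using hxr, ?_⟩
      intro hx'
      obtain ⟨e, he, hxe⟩ := mem_iUnion₂.1 hx'
      exact hcon ⟨e, he, hxe, hm⟩
    · intro e he e' he' hee
      rw [Function.onFun, Finset.disjoint_left]
      intro x hx hx'
      rw [Set.Finite.mem_toFinset] at hx hx'
      exact hee (hdisj e he e' he' x hx.1 hx'.1)

theorem Dv.decomp {D : Set ℂ} (hD : IsOpen D) {m : ℂ → ℂ → ℕ} (h : Dv D m) {t₀ : ℂ}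
    (ht₀ : t₀ ∈ D) (r : ℝ) (b : ℂ → ℝ) (hb : ∀ e, 0 < b e) :
    ∃ (E : Finset ℂ) (ε : ℂ → ℝ), (∀ e, e ∈ E ↔ (‖e‖ ≤ r ∧ m t₀ e ≠ 0)) ∧
      (∀ e, 0 < ε e ∧ ε e ≤ b e) ∧
      (∀ e, ∀ ε' > 0, ∀ᶠ t in 𝓝 t₀, ∀ x ∈ ball e (ε e), m t x ≠ 0 → x ∈ ball e ε') ∧
      (∀ e, ∀ᶠ t in 𝓝 t₀, ∑ᶠ x ∈ ball e (ε e), m t x = m t₀ e) ∧
      (∀ e, ∀ ψ : ℂ → ℂ, AnalyticOnNhd ℂ ψ (ball e (ε e)) →
        AnalyticAt ℂ (fun t => ∑ᶠ x ∈ ball e (ε e), m t x • ψ x) t₀) ∧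
      (∀ᶠ t in 𝓝 t₀, ∀ (V : Type) [AddCommMonoid V] (Φ : ℂ → V), (∀ x, r < ‖x‖ → Φ x = 0) →
        ∑ᶠ x, m t x • Φ x = ∑ e ∈ E, ∑ᶠ x ∈ ball e (ε e), m t x • Φ x) := by
  choose ε₀ hε₀ han using fun e => h.an t₀ ht₀ e
  obtain ⟨E, ε, h1, h2, h3, h4, -, h5⟩ := h.toDv0.decomp hD ht₀ r (fun e => min (b e) (ε₀ e))
    (fun e => lt_min (hb e) (hε₀ e))
  refine ⟨E, ε, h1, fun e => ⟨(h2 e).1, (h2 e).2.trans (min_le_left _ _)⟩, h3, h4, ?_, h5⟩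
  intro e
  exact han e (ε e) ⟨(h2 e).1, (h2 e).2.trans (min_le_right _ _)⟩

end Pool.Agent.TH735.FO
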