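import Pool.Agent.TH735.FO.Dv

/-!
Continuity of sums, and touching minorants.
-/

set_option autoImplicit false

namespace Pool.Agent.TH735.FO

open Set Filter Topology Complex Metric Real ComplexConjugate Function

theorem Dv0.tendsto_window {V : Type} [NormedAddCommGroup V] {D : Set ℂ} (hD : IsOpen D)
    {m : ℂ → ℂ → ℕ} (h : Dv0 D m) {t₀ : ℂ}
    (ht₀ : t₀ ∈ D) {e : ℂ} {ε : ℝ}
    (h1 : ∀ ε' > 0, ∀ᶠ t in 𝓝 t₀, ∀ x ∈ ball e ε, m t x ≠ 0 → x ∈ ball e ε')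
    (h2 : ∀ᶠ t in 𝓝 t₀, ∑ᶠ x ∈ ball e ε, m t x = m t₀ e) {Φ : ℂ → ℂ → V}
    (hΦ : ContinuousAt (fun p : ℂ × ℂ => Φ p.1 p.2) (t₀, e)) :
    Tendsto (fun t => ∑ᶠ x ∈ ball e ε, m t x • Φ t x) (𝓝 t₀) (𝓝 (m t₀ e • Φ t₀ e)) := by
  rw [Metric.tendsto_nhds]
  intro η hη
  set η' := η / (m t₀ e + 1) with hη'
  have hη'0 : 0 < η' := by positivity
  obtain ⟨ρ, hρ, hρ'⟩ := Metric.continuousAt_iff.1 hΦ η' hη'0
  filter_upwards [h1 ρ hρ, h2, hD.mem_nhds ht₀, ball_mem_nhds t₀ hρ] with t ht1 ht2 htD htρ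
  have hfin := h.finS htD (isBounded_ball (x := e) (r := ε))
  rw [sm_eq_nat hfin] at ht2
  rw [sm_eq hfin, dist_eq_norm]
  have e1 : ∑ x ∈ hfin.toFinset, m t x • Φ t x - m t₀ e • Φ t₀ e =
      ∑ x ∈ hfin.toFinset, m t x • (Φ t x - Φ t₀ e) := by
    rw [← ht2, Finset.sum_smul, ← Finset.sum_sub_distrib]
    refine Finset.sum_congr rfl fun x _ => ?_
    rw [smul_sub]
  rw [e1]
  calc ‖∑ x ∈ hfin.toFinset, m t x • (Φ t x - Φ t₀ e)‖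
      ≤ ∑ x ∈ hfin.toFinset, ‖m t x • (Φ t x - Φ t₀ e)‖ := norm_sum_le _ _
    _ ≤ ∑ x ∈ hfin.toFinset, m t x • η' := by
      refine Finset.sum_le_sum fun x hx => ?_
      rw [Set.Finite.mem_toFinset] at hx
      have hxρ := ht1 x hx.1 hx.2
      have h3 := hρ' (x := (t, x)) (by
        rw [Prod.dist_eq]
        exact max_lt (mem_ball.1 htρ) (mem_ball.1 hxρ))
      rw [dist_eq_norm] at h3
      refine (norm_nsmul_le).trans ?_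
      rw [nsmul_eq_mul]
      exact mul_le_mul_of_nonneg_left h3.le (Nat.cast_nonneg _)
    _ = m t₀ e • η' := by rw [← Finset.sum_smul, ht2]
    _ < η := by
      rw [nsmul_eq_mul, hη', mul_div_assoc', div_lt_iff₀ (by positivity)]
      nlinarith

theorem Dv0.continuousAt_sum {V : Type} [NormedAddCommGroup V] {D : Set ℂ} (hD : IsOpen D)
    {m : ℂ → ℂ → ℕ} (h : Dv0 D m) {t₀ : ℂ}
    (ht₀ : t₀ ∈ D) {r : ℝ} {Φ : ℂ → ℂ → V}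
    (hsupp : ∀ᶠ t in 𝓝 t₀, ∀ x, r < ‖x‖ → Φ t x = 0)
    (hcont : ∀ e, m t₀ e ≠ 0 → ContinuousAt (fun p : ℂ × ℂ => Φ p.1 p.2) (t₀, e)) :
    ContinuousAt (fun t => ∑ᶠ x, m t x • Φ t x) t₀ := by
  obtain ⟨E, ε, hE, hε, h1, h2, -, h4⟩ := h.decomp hD ht₀ r (fun _ => 1) (fun _ => one_pos)
  apply continuousAt_of_tendsto_nhds (y := ∑ e ∈ E, m t₀ e • Φ t₀ e)
  have h5 : Tendsto (fun t => ∑ e ∈ E, ∑ᶠ x ∈ ball e (ε e), m t x • Φ t x) (𝓝 t₀)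
      (𝓝 (∑ e ∈ E, m t₀ e • Φ t₀ e)) :=
    tendsto_finsetSum _ fun e he =>
      h.tendsto_window hD ht₀ (h1 e) (h2 e) (hcont e ((hE e).1 he).2)
  refine h5.congr' ?_
  filter_upwards [h4, hsupp] with t ht hts
  exact (ht V (Φ t) hts).symm

theorem Dv.touch_sum {D : Set ℂ} (hD : IsOpen D) {m : ℂ → ℂ → ℕ} (h : Dv D m) {t₀ : ℂ}
    (ht₀ : t₀ ∈ D) {r : ℝ} {Φ : ℂ → ℂ → ℝ}
    (hsupp : ∀ᶠ t in 𝓝 t₀, ∀ x, r < ‖x‖ → Φ t x = 0)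
    (hΦ : ∀ e, m t₀ e ≠ 0 → ((∃ b > 0, ∃ P₁ P₂ ψ₁ ψ₂ : ℂ → ℂ, AnalyticAt ℂ P₁ t₀ ∧
        AnalyticAt ℂ P₂ t₀ ∧ AnalyticOnNhd ℂ ψ₁ (ball e b) ∧ AnalyticOnNhd ℂ ψ₂ (ball e b) ∧
        ∀ᶠ p : ℂ × ℂ in 𝓝 (t₀, e), Φ p.1 p.2 = (P₁ p.1 * ψ₁ p.2 + P₂ p.1 * ψ₂ p.2).re) ∨
      (Φ t₀ e = 0 ∧ ∀ᶠ p : ℂ × ℂ in 𝓝 (t₀, e), 0 ≤ Φ p.1 p.2))) :
    Touch (fun t => ∑ᶠ x, m t x • Φ t x) t₀ := by
  classical
  -- uniform choice of data
  have hdata : ∀ e, ∃ b > 0, ∃ P₁ P₂ ψ₁ ψ₂ : ℂ → ℂ, AnalyticAt ℂ P₁ t₀ ∧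
      AnalyticAt ℂ P₂ t₀ ∧ AnalyticOnNhd ℂ ψ₁ (ball e b) ∧ AnalyticOnNhd ℂ ψ₂ (ball e b) ∧
      (m t₀ e ≠ 0 → ∀ᶠ p : ℂ × ℂ in 𝓝 (t₀, e),
        (P₁ p.1 * ψ₁ p.2 + P₂ p.1 * ψ₂ p.2).re ≤ Φ p.1 p.2) ∧
      (m t₀ e ≠ 0 → (P₁ t₀ * ψ₁ e + P₂ t₀ * ψ₂ e).re = Φ t₀ e) := by
    intro e
    by_cases he : m t₀ e ≠ 0
    · rcases hΦ e he with ⟨b, hb, P₁, P₂, ψ₁, ψ₂, a1, a2, a3, a4, a5⟩ | ⟨hz, hn⟩
      · refine ⟨b, hb, P₁, P₂, ψ₁, ψ₂, a1, a2, a3, a4, fun _ => ?_, fun _ => ?_⟩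
        · filter_upwards [a5] with p hp
          exact hp.ge
        · exact a5.self_of_nhds.symm
      · refine ⟨1, one_pos, fun _ => 0, fun _ => 0, fun _ => 0, fun _ => 0, analyticAt_const,
          analyticAt_const, fun _ _ => analyticAt_const, fun _ _ => analyticAt_const, fun _ => ?_,
          fun _ => ?_⟩
        · filter_upwards [hn] with p hp
          simpa using hp
        · simpa using hz.symm
    · exact ⟨1, one_pos, fun _ => 0, fun _ => 0, fun _ => 0, fun _ => 0, analyticAt_const,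
          analyticAt_const, fun _ _ => analyticAt_const, fun _ _ => analyticAt_const,
          fun h => absurd h he, fun h => absurd h he⟩
  choose b hb P₁ P₂ ψ₁ ψ₂ a1 a2 a3 a4 a5 a6 using hdata
  obtain ⟨E, ε, hE, hε, h1, h2, h3, h4⟩ := h.decomp hD ht₀ r b hb
  have hsub : ∀ e, ball e (ε e) ⊆ ball e (b e) := fun e => ball_subset_ball (hε e).2
  set A₁ : ℂ → ℂ → ℂ := fun e t => ∑ᶠ x ∈ ball e (ε e), m t x • ψ₁ e x with hA₁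
  set A₂ : ℂ → ℂ → ℂ := fun e t => ∑ᶠ x ∈ ball e (ε e), m t x • ψ₂ e x with hA₂
  have hA₁an : ∀ e, AnalyticAt ℂ (A₁ e) t₀ := fun e => h3 e (ψ₁ e) ((a3 e).mono (hsub e))
  have hA₂an : ∀ e, AnalyticAt ℂ (A₂ e) t₀ := fun e => h3 e (ψ₂ e) ((a4 e).mono (hsub e))
  -- rewriting the real part
  have hre : ∀ e t, t ∈ D → (P₁ e t * A₁ e t + P₂ e t * A₂ e t).re =
      ∑ᶠ x ∈ ball e (ε e), m t x • (P₁ e t * ψ₁ e x + P₂ e t * ψ₂ e x).re := by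
    intro e t htD
    have hfin := h.finS htD (isBounded_ball (x := e) (r := ε e))
    simp only [hA₁, hA₂]
    rw [sm_eq hfin, sm_eq hfin, sm_eq hfin, Finset.mul_sum, Finset.mul_sum,
      ← Finset.sum_add_distrib, Complex.re_sum]
    refine Finset.sum_congr rfl fun x _ => ?_
    rw [nsmul_eq_mul, nsmul_eq_mul, nsmul_eq_mul, show P₁ e t * ((m t x : ℂ) * ψ₁ e x) +
      P₂ e t * ((m t x : ℂ) * ψ₂ e x) = ((m t x : ℝ) : ℂ) * (P₁ e t * ψ₁ e x +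
      P₂ e t * ψ₂ e x) by push_cast; ring, Complex.re_ofReal_mul]
  refine ⟨fun t => ∑ e ∈ E, (P₁ e t * A₁ e t + P₂ e t * A₂ e t), ?_, ?_, ?_⟩
  · exact Finset.analyticAt_fun_sum _ fun e _ =>
      ((a1 e).mul (hA₁an e)).add ((a2 e).mul (hA₂an e))
  · have hev : ∀ᶠ t in 𝓝 t₀, ∀ e ∈ E, ∀ x ∈ ball e (ε e), m t x ≠ 0 →
        (P₁ e t * ψ₁ e x + P₂ e t * ψ₂ e x).re ≤ Φ t x := by
      rw [Filter.eventually_all_finset]
      intro e he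
      obtain ⟨ρ, hρ, hρ'⟩ := Metric.eventually_nhds_iff_ball.1 (a5 e ((hE e).1 he).2)
      filter_upwards [h1 e ρ hρ, ball_mem_nhds t₀ hρ] with t ht htρ x hx hxm
      refine hρ' (t, x) ?_
      rw [← ball_prod_same]
      exact ⟨htρ, ht x hx hxm⟩
    filter_upwards [hev, h4, hsupp, hD.mem_nhds ht₀] with t ht ht4 hts htD
    rw [ht4 ℝ (Φ t) hts, Complex.re_sum]
    refine Finset.sum_le_sum fun e he => ?_
    have hfin := h.finS htD (isBounded_ball (x := e) (r := ε e))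
    rw [hre e t htD, sm_eq hfin, sm_eq hfin]
    refine Finset.sum_le_sum fun x hx => ?_
    rw [Set.Finite.mem_toFinset] at hx
    exact nsmul_le_nsmul_right (ht e he x hx.1 hx.2) _
  · show (∑ e ∈ E, (P₁ e t₀ * A₁ e t₀ + P₂ e t₀ * A₂ e t₀)).re = ∑ᶠ x, m t₀ x • Φ t₀ x
    rw [h4.self_of_nhds ℝ (Φ t₀) hsupp.self_of_nhds, Complex.re_sum]
    refine Finset.sum_congr rfl fun e he => ?_
    have hfin := h.finS ht₀ (isBounded_ball (x := e) (r := ε e))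
    rw [hre e t₀ ht₀, sm_eq hfin, sm_eq hfin]
    refine Finset.sum_congr rfl fun x hx => ?_
    rw [Set.Finite.mem_toFinset] at hx
    have hxe : x = e := by
      by_contra hne
      have hpos : 0 < dist x e := dist_pos.2 hne
      have := (h1 e (dist x e) hpos).self_of_nhds x hx.1 hx.2
      exact absurd (mem_ball.1 this) (lt_irrefl _)
    rw [hxe, a6 e ((hE e).1 he).2]

end Pool.Agent.TH735.FO
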