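import Pool.Agent.TH735.FO.Jen
import Pool.Agent.TH735.QM.GenCard

/-!
For an analytic function of two variables of finite order in the second variable, the number of
zeros satisfying a condition all of whose analytic curve sections are countable or cocountable is
generically constant.
-/

set_option autoImplicit false

namespace Pool.Agent.TH735.FO

open Set Filter Topology Complex Metric Cardinal
open Pool.Agent.TH735.QM

/-- the condition `Y` holds at all but countably many points of the branch of the zero set of `f`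
through the good point `p` -/
def Gen (f : ℂ × ℂ → ℂ) (Y : ℂ → ℂ → Prop) (p : ℂ × ℂ) : Prop :=
  ∃ φ : ℂ → ℂ, AnalyticAt ℂ φ p.1 ∧ φ p.1 = p.2 ∧ (∀ᶠ q : ℂ × ℂ in 𝓝 p, (f q = 0 ↔ q.2 = φ q.1)) ∧
    ∃ r > 0, (ball p.1 r ∩ {t | ¬ Y t (φ t)}).Countable

/-- the type of a branch -/
theorem branch_type {U : Set ℂ} (hU : IsOpen U) {f : ℂ × ℂ → ℂ} {Y : ℂ → ℂ → Prop}
    (hY : LQ U Y) {p : ℂ × ℂ} (hp : p.1 ∈ U) {φ : ℂ → ℂ} (hφ : AnalyticAt ℂ φ p.1)
    (hφp : φ p.1 = p.2) (hev : ∀ᶠ q : ℂ × ℂ in 𝓝 p, (f q = 0 ↔ q.2 = φ q.1)) :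
    ∃ r > 0, ball p.1 r ⊆ U ∧ (∀ t ∈ ball p.1 r, ∀ᶠ q : ℂ × ℂ in 𝓝 (t, φ t),
        (f q = 0 ↔ q.2 = φ q.1)) ∧
      (((ball p.1 r ∩ {t | Y t (φ t)}).Countable ∧ ∀ t ∈ ball p.1 r, ¬ Gen f Y (t, φ t)) ∨
      ((ball p.1 r ∩ {t | ¬ Y t (φ t)}).Countable ∧ ∀ t ∈ ball p.1 r, Gen f Y (t, φ t))) := by
  have hcont : Tendsto (fun t => (t, φ t)) (𝓝 p.1) (𝓝 p) := by
    have h1 : Tendsto φ (𝓝 p.1) (𝓝 p.2) := by
      have := hφ.continuousAt.tendsto
      rwa [hφp] at this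
    exact tendsto_id.prodMk_nhds h1
  have h1 : ∀ᶠ t in 𝓝 p.1, t ∈ U ∧ AnalyticAt ℂ φ t ∧ ∀ᶠ q : ℂ × ℂ in 𝓝 (t, φ t),
      (f q = 0 ↔ q.2 = φ q.1) := by
    filter_upwards [hU.mem_nhds hp, hφ.eventually_analyticAt, hcont.eventually hev.eventually_nhds]
      with t h1 h2 h3
    exact ⟨h1, h2, h3⟩
  obtain ⟨r, hr, hr'⟩ := Metric.eventually_nhds_iff_ball.1 h1
  refine ⟨r, hr, fun t ht => (hr' t ht).1, fun t ht => (hr' t ht).2.2, ?_⟩
  rcases hY (ball p.1 r) (fun t ht => (hr' t ht).1) isOpen_ball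
      (convex_ball p.1 r).isPreconnected φ (fun t ht => (hr' t ht).2.1) with h2 | h2
  · left
    refine ⟨h2, ?_⟩
    rintro t ht ⟨φ', hφ', hφ't, hev', r', hr'0, hc⟩
    -- the two functions agree near `t`
    have hcont' : Tendsto (fun s => (s, φ s)) (𝓝 t) (𝓝 (t, φ t)) :=
      tendsto_id.prodMk_nhds (hr' t ht).2.1.continuousAt
    have hagree : ∀ᶠ s in 𝓝 t, φ s = φ' s := by
      filter_upwards [hcont'.eventually (hr' t ht).2.2, hcont'.eventually hev'] with s hs hs'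
      exact hs'.1 (hs.2 rfl)
    obtain ⟨d, hd, hd'⟩ := Metric.eventually_nhds_iff_ball.1 (hagree.and
      (isOpen_ball.mem_nhds ht))
    apply ball_not_countable t (lt_min hd hr'0)
    refine (h2.union hc).mono ?_
    intro s hs
    have hs1 := hd' s (ball_subset_ball (min_le_left _ _) hs)
    by_cases hYs : Y s (φ s)
    · exact Or.inl ⟨hs1.2, hYs⟩
    · right
      refine ⟨ball_subset_ball (min_le_right _ _) hs, ?_⟩
      show ¬ Y s (φ' s)
      rw [← hs1.1]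
      exact hYs
  · right
    have h3 : (ball p.1 r ∩ {t | ¬ Y t (φ t)}).Countable := h2
    refine ⟨h3, ?_⟩
    intro t ht
    obtain ⟨d, hd, hd'⟩ := Metric.isOpen_iff.1 isOpen_ball t ht
    exact ⟨φ, (hr' t ht).2.1, rfl, (hr' t ht).2.2, d, hd,
      h3.mono (inter_subset_inter_left _ hd')⟩

theorem zs_gen {U : Set ℂ} (hU : IsOpen U) {f : ℂ × ℂ → ℂ}
    (hf : AnalyticOnNhd ℂ f (U ×ˢ Set.univ)) (hne : ∀ t ∈ U, ∃ x, f (t, x) ≠ 0) {Y : ℂ → ℂ → Prop}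
    (hY : LQ U Y) : Zs U f (Gen f Y) where
  op := hU
  an := hf
  ne := hne
  loc := by
    intro p hp _ φ hφ hφp hev
    obtain ⟨r, hr, -, -, h1 | h1⟩ := branch_type hU hY hp hφ hφp hev
    · have hp1 := h1.2 p.1 (mem_ball_self hr)
      rw [hφp] at hp1
      filter_upwards [ball_mem_nhds p.1 hr] with t ht
      exact ⟨fun h => absurd h (h1.2 t ht), fun h => absurd h hp1⟩
    · have hp1 := h1.2 p.1 (mem_ball_self hr)
      rw [hφp] at hp1
      filter_upwards [ball_mem_nhds p.1 hr] with t ht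
      exact ⟨fun _ => hp1, fun _ => h1.2 t ht⟩

theorem countable_of_locally {X : Type*} [TopologicalSpace X] [SecondCountableTopology X]
    {S : Set X} (h : ∀ p ∈ S, ∃ N ∈ 𝓝 p, (N ∩ S).Countable) : S.Countable := by
  choose! N hN hc using h
  obtain ⟨T, hTS, hT, hcov⟩ := TopologicalSpace.countable_cover_nhdsWithin
    (f := N) (s := S) (fun p hp => mem_nhdsWithin_of_mem_nhds (hN p hp))
  refine (hT.biUnion fun p hp => hc p (hTS hp)).mono ?_
  intro x hx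
  obtain ⟨p, hp, hxp⟩ := mem_iUnion₂.1 (hcov hx)
  exact mem_iUnion₂.2 ⟨p, hp, hxp, hx⟩

theorem exc_countable {U : Set ℂ} (hU : IsOpen U) {f : ℂ × ℂ → ℂ} {Y : ℂ → ℂ → Prop}
    (hY : LQ U Y) :
    {p : ℂ × ℂ | p.1 ∈ U ∧ f p = 0 ∧ Good f p ∧ ¬ (Y p.1 p.2 ↔ Gen f Y p)}.Countable := by
  apply countable_of_locally
  rintro p ⟨hp, -, ⟨φ, hφ, hφp, hev⟩, -⟩
  obtain ⟨r, hr, hrU, -, htype⟩ := branch_type hU hY hp hφ hφp hev
  have hN : {q : ℂ × ℂ | q.1 ∈ ball p.1 r ∧ (f q = 0 ↔ q.2 = φ q.1)} ∈ 𝓝 p := by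
    have h1 : ∀ᶠ q : ℂ × ℂ in 𝓝 p, q.1 ∈ ball p.1 r :=
      (continuousAt_fst (p := p)).eventually (ball_mem_nhds p.1 hr)
    filter_upwards [h1, hev] with q h2 h3
    exact ⟨h2, h3⟩
  refine ⟨_, hN, ?_⟩
  rcases htype with ⟨hc, hg⟩ | ⟨hc, hg⟩
  · refine (hc.image (fun t => (t, φ t))).mono ?_
    rintro ⟨t, x⟩ ⟨⟨ht, hfx⟩, -, hfx0, -, hne⟩
    simp only at ht hfx
    have hx : x = φ t := hfx.1 hfx0
    subst hx
    refine ⟨t, ⟨ht, ?_⟩, rfl⟩
    by_contra hY'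
    exact hne ⟨fun h => absurd h hY', fun h => absurd h (hg t ht)⟩
  · refine (hc.image (fun t => (t, φ t))).mono ?_
    rintro ⟨t, x⟩ ⟨⟨ht, hfx⟩, -, hfx0, -, hne⟩
    simp only at ht hfx
    have hx : x = φ t := hfx.1 hfx0
    subst hx
    refine ⟨t, ⟨ht, ?_⟩, rfl⟩
    intro hY'
    exact hne ⟨fun _ => hg t ht, fun _ => hY'⟩

/-- local version, normalised -/
theorem local_count {t₀ : ℂ} {R : ℝ} {f : ℂ × ℂ → ℂ}
    (hf : AnalyticOnNhd ℂ f (ball t₀ R ×ˢ Set.univ)) {Y : ℂ → ℂ → Prop} (hY : LQ (ball t₀ R) Y)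
    {c₀ A δ : ℝ} {ρ : ℕ}
    (hc₀ : 0 < c₀) (hA0 : 0 ≤ A) (hlow : ∀ t ∈ ball t₀ R, c₀ ≤ ‖f (t, 0)‖)
    (hup : ∀ t ∈ ball t₀ R, ∀ x, ‖f (t, x)‖ ≤ Real.exp (A * (1 + ‖x‖) ^ ρ)) (hδ : 0 < δ)
    (hδf : ∀ t ∈ ball t₀ R, ∀ x, ‖x‖ < δ → f (t, x) ≠ 0) (n : ℕ) :
    QmOn (ball t₀ R) {t | {x | f (t, x) = 0 ∧ Y t x}.encard ≤ n} := by
  have hne : ∀ t ∈ ball t₀ R, ∃ x, f (t, x) ≠ 0 := by
    intro t ht
    refine ⟨0, fun h0 => ?_⟩
    have := hlow t ht
    rw [h0, norm_zero] at this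
    exact absurd hc₀ (not_lt.2 this)
  have h := zs_gen isOpen_ball hf hne hY
  obtain ⟨C, g⟩ := h.gr hc₀ hA0 hlow hup hδ hδf
  have key : QmOn (ball t₀ R) {t | {x | mult (ball t₀ R) f (Gen f Y) t x ≠ 0}.encard ≤ n} := by
    by_cases hunc : {t | t ∈ ball t₀ R ∧
        {x | mult (ball t₀ R) f (Gen f Y) t x ≠ 0}.encard ≤ n}.Countable
    · left
      exact hunc
    · right
      have := count_generic h.dv g n hunc
      convert countable_empty using 1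
      ext t
      simp only [Set.mem_sdiff, Set.mem_ofPred_eq, mem_empty_iff_false, iff_false, not_and,
        not_not]
      exact this t
  have hexc := (exc_countable (f := f) isOpen_ball hY).image Prod.fst
  refine key.congr ((badT_countable h).union hexc) ?_
  intro t ht htb
  have hset : {x | mult (ball t₀ R) f (Gen f Y) t x ≠ 0} = {x | f (t, x) = 0 ∧ Y t x} := by
    ext x
    simp only [Set.mem_ofPred_eq]
    have hg : f (t, x) = 0 → Good f (t, x) := by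
      intro h0
      by_contra hb
      exact htb (Or.inl ⟨ht, x, h0, hb⟩)
    have hYG : f (t, x) = 0 → (Y t x ↔ Gen f Y (t, x)) := by
      intro h0
      by_contra hb
      exact htb (Or.inr ⟨(t, x), ⟨ht, h0, hg h0, hb⟩, rfl⟩)
    constructor
    · intro hm
      have h0 := h.mult_zero ht hm
      refine ⟨h0, (hYG h0).2 ?_⟩
      by_contra hG
      exact hm ((h.mult_good ht hg).2 fun h => hG h.2)
    · rintro ⟨h0, hYx⟩
      rw [(h.mult_good ht hg).1 ⟨h0, (hYG h0).1 hYx⟩]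
      exact one_ne_zero
  simp only [Set.mem_ofPred_eq]
  rw [hset]

end Pool.Agent.TH735.FO
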