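import Pool.Agent.TH735.FO.Glob

/-!
For an analytic function of two variables of finite order in the second variable, the number of
zeros satisfying a condition all of whose analytic curve sections are countable or cocountable is
generically constant.
-/

set_option autoImplicit false

namespace Pool.Agent.TH735.FO

open Set Filter Topology Complex Metric Cardinal
open Pool.Agent.TH735.QM

theorem local_count' {U : Set ℂ} (hU : IsOpen U) {f : ℂ × ℂ → ℂ}
    (hf : AnalyticOnNhd ℂ f (U ×ˢ Set.univ)) {Y : ℂ → ℂ → Prop} (hY : LQ U Y)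
    (hgrow : ∀ t₀ ∈ U, ∃ (A : ℝ) (ρ : ℕ), ∀ᶠ t in 𝓝 t₀, ∀ x,
      ‖f (t, x)‖ ≤ Real.exp (A * (1 + ‖x‖) ^ ρ)) {t₀ x₁ : ℂ} (ht₀ : t₀ ∈ U)
    (hx₁ : f (t₀, x₁) ≠ 0) :
    ∃ R > 0, ∀ n : ℕ, QmOn (ball t₀ R) {t | {x | f (t, x) = 0 ∧ Y t x}.encard ≤ n} := by
  obtain ⟨A, ρ, hA⟩ := hgrow t₀ ht₀
  have hcont : ContinuousAt f (t₀, x₁) := (hf (t₀, x₁) ⟨ht₀, mem_univ _⟩).continuousAt
  set c₀ := ‖f (t₀, x₁)‖ / 2 with hc₀
  have hpos : 0 < ‖f (t₀, x₁)‖ := norm_pos_iff.2 hx₁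
  have hc₀0 : 0 < c₀ := by positivity
  have hlt : c₀ < ‖f (t₀, x₁)‖ := half_lt_self hpos
  obtain ⟨d, hd, hd'⟩ := Metric.eventually_nhds_iff_ball.1 (hcont.norm.eventually
    (lt_mem_nhds hlt))
  obtain ⟨d₁, hd₁, hd₁'⟩ := Metric.eventually_nhds_iff_ball.1 (hA.and (hU.mem_nhds ht₀))
  refine ⟨min d d₁, lt_min hd hd₁, ?_⟩
  intro n
  set R := min d d₁ with hR
  have hRd : ball t₀ R ⊆ ball t₀ d := ball_subset_ball (min_le_left _ _)
  have hRd₁ : ball t₀ R ⊆ ball t₀ d₁ := ball_subset_ball (min_le_right _ _)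
  have hRU : ball t₀ R ⊆ U := fun t ht => (hd₁' t (hRd₁ ht)).2
  set f' : ℂ × ℂ → ℂ := fun p => f (p.1, p.2 + x₁) with hf'
  have hf'an : AnalyticOnNhd ℂ f' (ball t₀ R ×ˢ Set.univ) := by
    rintro ⟨t, x⟩ ⟨ht, -⟩
    have h1 : AnalyticAt ℂ (fun p : ℂ × ℂ => (p.1, p.2 + x₁)) (t, x) :=
      analyticAt_fst.prod (analyticAt_snd.add analyticAt_const)
    exact (hf (t, x + x₁) ⟨hRU ht, mem_univ _⟩).comp (f := fun p : ℂ × ℂ => (p.1, p.2 + x₁))
      (x := (t, x)) h1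
  have hY' : LQ (ball t₀ R) fun t x => Y t (x + x₁) := by
    intro W hW hWo hWc z hz
    exact hY W (hW.trans hRU) hWo hWc (fun t => z t + x₁) fun t ht => (hz t ht).add analyticAt_const
  have key := local_count (f := f') hf'an hY' (c₀ := c₀) (A := |A| * (1 + ‖x₁‖) ^ ρ) (δ := d)
    (ρ := ρ) hc₀0 (by positivity) (by
      intro t ht
      have := hd' (t, x₁) (by
        rw [← ball_prod_same]
        exact ⟨hRd ht, mem_ball_self hd⟩)
      show c₀ ≤ ‖f (t, 0 + x₁)‖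
      rw [zero_add]
      exact le_of_lt this) (by
      intro t ht x
      refine ((hd₁' t (hRd₁ ht)).1 (x + x₁)).trans ?_
      apply Real.exp_le_exp.2
      have h1 : 1 + ‖x + x₁‖ ≤ (1 + ‖x₁‖) * (1 + ‖x‖) := by
        have h2 := norm_add_le x x₁
        have h3 : 0 ≤ ‖x₁‖ * ‖x‖ := by positivity
        nlinarith
      calc A * (1 + ‖x + x₁‖) ^ ρ ≤ |A| * (1 + ‖x + x₁‖) ^ ρ := by
            gcongr
            exact le_abs_self A
        _ ≤ |A| * ((1 + ‖x₁‖) * (1 + ‖x‖)) ^ ρ := by gcongr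
        _ = |A| * (1 + ‖x₁‖) ^ ρ * (1 + ‖x‖) ^ ρ := by rw [mul_pow]; ring) hd (by
      intro t ht x hx h0
      have := hd' (t, x + x₁) (by
        rw [← ball_prod_same]
        refine ⟨hRd ht, ?_⟩
        rw [mem_ball_iff_norm, add_sub_cancel_right]
        exact hx)
      have h0' : f (t, x + x₁) = 0 := h0
      rw [h0', norm_zero] at this
      exact absurd hc₀0 (not_lt.2 (le_of_lt this))) n
  refine key.congr' ?_
  intro t _
  have himg : {x | f (t, x) = 0 ∧ Y t x} =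
      (fun x => x + x₁) '' {x | f' (t, x) = 0 ∧ Y t (x + x₁)} := by
    ext y
    simp only [Set.mem_ofPred_eq, mem_image]
    constructor
    · rintro ⟨h1, h2⟩
      refine ⟨y - x₁, ⟨?_, ?_⟩, by ring⟩
      · show f (t, y - x₁ + x₁) = 0
        rw [sub_add_cancel]
        exact h1
      · rw [sub_add_cancel]
        exact h2
    · rintro ⟨x, ⟨h1, h2⟩, rfl⟩
      exact ⟨h1, h2⟩
  simp only [Set.mem_ofPred_eq]
  rw [himg, (add_left_injective x₁).encard_image]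

theorem finite_order_count {U : Set ℂ} (hU : IsOpen U) (hUc : IsPreconnected U) {f : ℂ × ℂ → ℂ}
    (hf : AnalyticOnNhd ℂ f (U ×ˢ Set.univ)) {Y : ℂ → ℂ → Prop} (hY : LQ U Y)
    (hgrow : ∀ t₀ ∈ U, ∃ (A : ℝ) (ρ : ℕ), ∀ᶠ t in 𝓝 t₀, ∀ x,
      ‖f (t, x)‖ ≤ Real.exp (A * (1 + ‖x‖) ^ ρ)) :
    GenCard U fun t x => (∃ x', f (t, x') ≠ 0) ∧ f (t, x) = 0 ∧ Y t x := by
  by_cases hne : ∃ t ∈ U, ∃ x, f (t, x) ≠ 0
  · obtain ⟨t₁, ht₁, x₁, hx₁⟩ := hne
    have hB := zeros_countableOn hUc (slice_left hf x₁) ⟨t₁, ht₁, hx₁⟩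
    set B := U ∩ {t | f (t, x₁) = 0} with hBdef
    have hloc : ∀ n : ℕ, QmOn U {t | {x | f (t, x) = 0 ∧ Y t x}.encard ≤ n} := by
      intro n
      refine QmOn.of_local hU hUc hB ?_
      intro t ht htB
      have hx : f (t, x₁) ≠ 0 := fun h0 => htB ⟨ht, h0⟩
      obtain ⟨R, hR, h⟩ := local_count' hU hf hY hgrow ht hx
      exact ⟨R, hR, h n⟩
    have h1 : GenCard U fun t x => f (t, x) = 0 ∧ Y t x := by
      refine genCard_of_encard (B₀ := B) ?_ hB ?_
      · intro k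
        rcases k with _ | n
        · right
          convert countable_empty using 1
          ext t
          simp
        · refine (hloc n).compl.congr' ?_
          intro t _
          simp only [mem_compl_iff, Set.mem_ofPred_eq, not_le]
          rw [show ((n + 1 : ℕ) : ℕ∞) = (n : ℕ∞) + 1 by push_cast; rfl]
          exact (ENat.add_one_le_iff (ENat.natCast_ne_top n)).symm
      · intro t ht htB
        have hx : f (t, x₁) ≠ 0 := fun h0 => htB ⟨ht, h0⟩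
        exact (zeros_countable (slice_right hf ht) ⟨x₁, hx⟩).mono fun x hx => hx.1
    refine h1.congr hB ?_
    intro t ht htB x
    have hx : f (t, x₁) ≠ 0 := fun h0 => htB ⟨ht, h0⟩
    exact ⟨fun h => ⟨⟨x₁, hx⟩, h⟩, fun h => h.2⟩
  · push Not at hne
    refine (GenCard.const (∅ : Set ℂ)).congr countable_empty ?_
    intro t ht _ x
    simp [hne t ht]

end Pool.Agent.TH735.FO
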