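import Pool.Agent.TH735.QM.Star

/-!
Local structure of the zero set of an analytic function of two variables: outside of a countable
set of points it is locally the graph of an analytic function.
-/

set_option autoImplicit false

namespace Pool.Agent.TH735.FO

open Set Filter Topology Complex Metric
open Pool.Agent.TH735.QM (tow tow_analytic tow_iteratedDeriv slice_left slice_right)

/-- near `p` the zero set of `f` is the graph of an analytic function -/
def Good (f : ℂ × ℂ → ℂ) (p : ℂ × ℂ) : Prop :=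
  ∃ φ : ℂ → ℂ, AnalyticAt ℂ φ p.1 ∧ φ p.1 = p.2 ∧ ∀ᶠ q : ℂ × ℂ in 𝓝 p, (f q = 0 ↔ q.2 = φ q.1)

theorem ift {g : ℂ × ℂ → ℂ} {p : ℂ × ℂ} (hg : AnalyticAt ℂ g p) (h0 : g p = 0)
    (h1 : fderiv ℂ g p (0, 1) ≠ 0) :
    ∃ φ : ℂ → ℂ, AnalyticAt ℂ φ p.1 ∧ φ p.1 = p.2 ∧
      ∀ᶠ q : ℂ × ℂ in 𝓝 p, (g q = 0 ↔ q.2 = φ q.1) := by
  have hcd : ContDiffAt ℂ ⊤ g p := hg.contDiffAt
  have hinv : (fderiv ℂ g p ∘L .inr ℂ ℂ ℂ).IsInvertible := by
    refine ⟨ContinuousLinearEquiv.unitsEquivAut ℂ (Units.mk0 _ h1), ?_⟩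
    apply ContinuousLinearMap.ext_ring
    simp
  refine ⟨hcd.implicitFunction (by simp) hinv,
    (hcd.contDiffAt_implicitFunction (by simp) hinv).analyticAt,
    hcd.implicitFunction_apply_self (by simp) hinv, ?_⟩
  filter_upwards [hcd.eventually_apply_eq_iff_implicitFunction (by simp) hinv] with q hq
  rw [h0] at hq
  rw [hq]
  exact eq_comm

theorem tow_hasDerivAt {U : Set ℂ} {F : ℂ × ℂ → ℂ} (hF : AnalyticOnNhd ℂ F (U ×ˢ univ))
    (n : ℕ) {t : ℂ} (ht : t ∈ U) (x : ℂ) :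
    HasDerivAt (fun y => tow F n (t, y)) (tow F (n + 1) (t, x)) x := by
  have h1 : HasFDerivAt (tow F n) (fderiv ℂ (tow F n) (t, x)) (t, x) :=
    ((tow_analytic hF n) (t, x) ⟨ht, mem_univ _⟩).differentiableAt.hasFDerivAt
  have h2 : HasDerivAt (fun y : ℂ => ((t, y) : ℂ × ℂ)) (0, 1) x :=
    (hasDerivAt_const x t).prodMk (hasDerivAt_id x)
  exact h1.comp_hasDerivAt x h2

theorem taylor {g : ℕ → ℂ → ℂ} (hg : ∀ j y, HasDerivAt (g j) (g (j + 1) y) y) {K : Set ℂ}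
    (hK : Convex ℝ K) {a : ℂ} (ha : a ∈ K) {μ : ℕ} (h0 : ∀ j < μ, g j a = 0) {κ : ℂ} {η : ℝ}
    (hη : ∀ y ∈ K, ‖g μ y - κ‖ ≤ η) :
    ∀ i ≤ μ, ∀ y ∈ K, ‖g (μ - i) y - κ * (y - a) ^ i / i.factorial‖ ≤ η * ‖y - a‖ ^ i := by
  intro i
  induction i with
  | zero =>
    intro _ y hy
    simpa using hη y hy
  | succ i ih =>
    intro hi y hy
    have ih' := ih (by omega)
    set H : ℂ → ℂ := fun z => g (μ - (i + 1)) z - κ * (z - a) ^ (i + 1) / (i + 1).factorial with hH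
    have hH0 : H a = 0 := by
      simp only [hH, sub_self]
      rw [h0 _ (by omega)]
      simp
    have hHd : ∀ z, HasDerivAt H (g (μ - i) z - κ * (z - a) ^ i / i.factorial) z := by
      intro z
      have h1 := hg (μ - (i + 1)) z
      rw [show μ - (i + 1) + 1 = μ - i by omega] at h1
      have h2 : HasDerivAt (fun z : ℂ => κ * (z - a) ^ (i + 1) / (i + 1).factorial)
          (κ * (z - a) ^ i / i.factorial) z := by
        have h3 : HasDerivAt (fun z : ℂ => (z - a) ^ (i + 1)) (((i + 1 : ℕ) : ℂ) * (z - a) ^ i) z := by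
          have h4 := ((hasDerivAt_id z).sub_const a).pow (i + 1)
          simp only [Nat.add_sub_cancel, mul_one] at h4
          exact h4
        refine ((h3.const_mul κ).div_const ((i + 1).factorial : ℂ)).congr_deriv ?_
        have h4 : ((i.factorial : ℕ) : ℂ) ≠ 0 := by exact_mod_cast i.factorial_ne_zero
        have h5 : ((i : ℂ) + 1) ≠ 0 := by exact_mod_cast Nat.succ_ne_zero i
        rw [Nat.factorial_succ]
        push_cast
        field_simp
      exact h1.sub h2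
    have hseg : segment ℝ a y ⊆ K := hK.segment_subset ha hy
    have hmv := (convex_segment (𝕜 := ℝ) a y).norm_image_sub_le_of_norm_hasDerivWithin_le
      (f := H) (C := η * ‖y - a‖ ^ i) (fun z _ => (hHd z).hasDerivWithinAt) (by
        intro z hz
        refine (ih' z (hseg hz)).trans ?_
        have hη0 : 0 ≤ η := (norm_nonneg _).trans (hη a ha)
        have : ‖z - a‖ ≤ ‖y - a‖ := by
          obtain ⟨u, v, hu, hv, huv, rfl⟩ := hz
          have : u • a + v • y - a = v • (y - a) := by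
            have : u = 1 - v := by linarith
            rw [this, sub_smul, one_smul, smul_sub]
            ring
          rw [this, norm_smul, Real.norm_eq_abs, abs_of_nonneg hv]
          have : v ≤ 1 := by linarith
          nlinarith [norm_nonneg (y - a)]
        gcongr) (left_mem_segment ℝ a y) (right_mem_segment ℝ a y)
    rw [hH0, sub_zero] at hmv
    have e1 : η * ‖y - a‖ ^ (i + 1) = η * ‖y - a‖ ^ i * ‖y - a‖ := by ring
    rw [e1]
    exact hmv

/-- all derivatives in the second variable of order less than `μ` vanish, and the `μ`-th does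
not -/
def Ord (f : ℂ × ℂ → ℂ) (μ : ℕ) (p : ℂ × ℂ) : Prop := (∀ j < μ, tow f j p = 0) ∧ tow f μ p ≠ 0

theorem exists_ord {U : Set ℂ} {f : ℂ × ℂ → ℂ} (hf : AnalyticOnNhd ℂ f (U ×ˢ univ))
    {p : ℂ × ℂ} (hp : p.1 ∈ U) (hne : ∃ x, f (p.1, x) ≠ 0) : ∃ μ, Ord f μ p := by
  classical
  have hex : ∃ j, tow f j p ≠ 0 := by
    by_contra hcon
    push Not at hcon
    obtain ⟨x, hx⟩ := hne
    have han : AnalyticAt ℂ (fun y => f (p.1, y)) p.2 := (slice_right hf hp).analyticAt _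
    have hord : analyticOrderAt (fun y => f (p.1, y)) p.2 = ⊤ := by
      rw [ENat.eq_top_iff_forall_ge]
      intro n
      rw [natCast_le_analyticOrderAt_iff_iteratedDeriv_eq_zero han]
      intro i _
      rw [tow_iteratedDeriv hf i hp]
      exact hcon i
    rw [analyticOrderAt_eq_top] at hord
    have h2 : (fun y => f (p.1, y)) = fun _ => 0 :=
      AnalyticOnNhd.eq_of_eventuallyEq (fun z _ => (slice_right hf hp).analyticAt z)
        (fun z _ => analyticAt_const) hord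
    exact hx (congrFun h2 x)
  refine ⟨Nat.find hex, ?_, Nat.find_spec hex⟩
  intro j hj
  by_contra h
  exact Nat.find_min hex hj h

theorem bad_isolated {U : Set ℂ} (hU : IsOpen U) {f : ℂ × ℂ → ℂ}
    (hf : AnalyticOnNhd ℂ f (U ×ˢ univ)) {p : ℂ × ℂ} (hp : p.1 ∈ U) {μ : ℕ} (hμ : 1 ≤ μ)
    (ho : Ord f μ p) (hbad : ¬ Good f p) :
    ∀ᶠ q in 𝓝[≠] p, ¬ Ord f μ q := by
  obtain ⟨t₀, x₀⟩ := p
  obtain ⟨ho1, ho2⟩ := ho
  simp only at hp
  have hmem : ((t₀, x₀) : ℂ × ℂ) ∈ U ×ˢ (univ : Set ℂ) := ⟨hp, mem_univ _⟩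
  obtain ⟨φ, hφ, hφ0, hφev⟩ := ift (g := tow f (μ - 1)) (tow_analytic hf (μ - 1) _ hmem)
    (ho1 _ (by omega)) (by
      have : tow f (μ - 1 + 1) (t₀, x₀) = fderiv ℂ (tow f (μ - 1)) (t₀, x₀) (0, 1) := rfl
      rw [← this, show μ - 1 + 1 = μ by omega]
      exact ho2)
  simp only at hφ hφ0
  have hcurve : ∀ j, AnalyticAt ℂ (fun t => tow f j (t, φ t)) t₀ := by
    intro j
    have h1 : AnalyticAt ℂ (tow f j) (t₀, φ t₀) := tow_analytic hf j _ ⟨hp, mem_univ _⟩
    exact h1.comp (f := fun t => (t, φ t)) (analyticAt_id.prod hφ)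
  by_cases hall : ∀ j < μ, ∀ᶠ t in 𝓝 t₀, tow f j (t, φ t) = 0
  · exfalso
    apply hbad
    refine ⟨φ, hφ, hφ0, ?_⟩
    have hall' : ∀ᶠ t in 𝓝 t₀, ∀ j < μ, tow f j (t, φ t) = 0 := by
      have := (Filter.eventually_all_finset (Finset.range μ) (l := 𝓝 t₀)
        (p := fun j t => tow f j (t, φ t) = 0)).2 (fun j hj => hall j (Finset.mem_range.1 hj))
      filter_upwards [this] with t ht j hj
      exact ht j (Finset.mem_range.2 hj)
    set κ := tow f μ (t₀, x₀) with hκ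
    have hfac : (0 : ℝ) < μ.factorial := by exact_mod_cast μ.factorial_pos
    set η := ‖κ‖ / (2 * μ.factorial) with hη
    have hκ0 : 0 < ‖κ‖ := norm_pos_iff.2 ho2
    have hη0 : 0 < η := by positivity
    have hc : ContinuousAt (tow f μ) (t₀, x₀) := (tow_analytic hf μ _ hmem).continuousAt
    obtain ⟨ε, hε, hε'⟩ := Metric.continuousAt_iff.1 hc η hη0
    have hφc : ∀ᶠ t in 𝓝 t₀, φ t ∈ ball x₀ ε := by
      apply hφ.continuousAt
      rw [hφ0]
      exact ball_mem_nhds _ hε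
    have hev : ∀ᶠ t in 𝓝 t₀, t ∈ U ∧ t ∈ ball t₀ ε ∧ φ t ∈ ball x₀ ε ∧
        ∀ j < μ, tow f j (t, φ t) = 0 := by
      filter_upwards [hU.mem_nhds hp, ball_mem_nhds t₀ hε, hφc, hall'] with t h1 h2 h3 h4
      exact ⟨h1, h2, h3, h4⟩
    have hev1 : ∀ᶠ q : ℂ × ℂ in 𝓝 (t₀, x₀), q.1 ∈ U ∧ q.1 ∈ ball t₀ ε ∧ φ q.1 ∈ ball x₀ ε ∧
        ∀ j < μ, tow f j (q.1, φ q.1) = 0 :=
      (continuousAt_fst (p := ((t₀, x₀) : ℂ × ℂ))).eventually hev
    have hev2 : ∀ᶠ q : ℂ × ℂ in 𝓝 (t₀, x₀), q.2 ∈ ball x₀ ε :=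
      (continuousAt_snd (p := ((t₀, x₀) : ℂ × ℂ))).eventually (ball_mem_nhds x₀ hε)
    filter_upwards [hev1, hev2] with q hq hq2
    obtain ⟨t, x⟩ := q
    obtain ⟨htU, htε, hφε, hz⟩ := hq
    simp only at htU htε hφε hz hq2 ⊢
    have hT := taylor (g := fun j y => tow f j (t, y)) (fun j y => tow_hasDerivAt hf j htU y)
      (convex_ball x₀ ε) hφε (μ := μ) hz (κ := κ) (η := η) (by
        intro y hy
        have := hε' (x := (t, y)) (by
          rw [Prod.dist_eq]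
          exact max_lt (mem_ball.1 htε) (mem_ball.1 hy))
        rw [dist_eq_norm] at this
        exact this.le) μ le_rfl x hq2
    rw [Nat.sub_self] at hT
    constructor
    · intro hfx
      by_contra hne
      have hT' : ‖κ * (x - φ t) ^ μ / μ.factorial‖ ≤ η * ‖x - φ t‖ ^ μ := by
        have : tow f 0 (t, x) = 0 := hfx
        rw [this, zero_sub, norm_neg] at hT
        exact hT
      rw [norm_div, norm_mul, norm_pow, Complex.norm_natCast, hη] at hT'
      have hpos : 0 < ‖x - φ t‖ ^ μ := pow_pos (norm_pos_iff.2 (sub_ne_zero.2 hne)) μ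
      rw [div_le_iff₀ hfac] at hT'
      have e1 : ‖κ‖ / (2 * μ.factorial) * ‖x - φ t‖ ^ μ * μ.factorial =
          ‖κ‖ * ‖x - φ t‖ ^ μ / 2 := by
        field_simp
      rw [e1] at hT'
      have : 0 < ‖κ‖ * ‖x - φ t‖ ^ μ := by positivity
      linarith
    · rintro rfl
      exact hz 0 (by omega)
  · push Not at hall
    obtain ⟨j, hj, hne⟩ := hall
    have hev : ∀ᶠ t in 𝓝[≠] t₀, tow f j (t, φ t) ≠ 0 :=
      ((hcurve j).eventually_eq_zero_or_eventually_ne_zero).resolve_left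
        (Filter.not_eventually.2 hne)
    rw [eventually_nhdsWithin_iff] at hev ⊢
    have hev1 : ∀ᶠ q : ℂ × ℂ in 𝓝 (t₀, x₀), q.1 ∈ ({t₀}ᶜ : Set ℂ) → tow f j (q.1, φ q.1) ≠ 0 :=
      (continuousAt_fst (p := ((t₀, x₀) : ℂ × ℂ))).eventually hev
    filter_upwards [hev1, hφev] with q hq1 hq2 hqp hord
    have h1 : q.2 = φ q.1 := hq2.1 (hord.1 _ (by omega))
    have h2 : q.1 = t₀ := by
      by_contra hne'
      apply hq1 hne'
      have := hord.1 j hj
      rw [← h1]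
      exact this
    apply hqp
    rw [mem_singleton_iff]
    apply Prod.ext
    · exact h2
    · show q.2 = x₀
      rw [h1, h2, hφ0]

theorem bad_countable {U : Set ℂ} (hU : IsOpen U) {f : ℂ × ℂ → ℂ}
    (hf : AnalyticOnNhd ℂ f (U ×ˢ univ)) (hne : ∀ t ∈ U, ∃ x, f (t, x) ≠ 0) :
    {p : ℂ × ℂ | p.1 ∈ U ∧ f p = 0 ∧ ¬ Good f p}.Countable := by
  have hsub : {p : ℂ × ℂ | p.1 ∈ U ∧ f p = 0 ∧ ¬ Good f p} ⊆
      ⋃ μ : ℕ, {p : ℂ × ℂ | p.1 ∈ U ∧ 1 ≤ μ ∧ Ord f μ p ∧ ¬ Good f p} := by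
    rintro p ⟨h1, h2, h3⟩
    obtain ⟨μ, hμ⟩ := exists_ord hf h1 (hne _ h1)
    refine mem_iUnion.2 ⟨μ, h1, ?_, hμ, h3⟩
    by_contra h0
    have : μ = 0 := by omega
    rw [this] at hμ
    exact hμ.2 h2
  refine (countable_iUnion fun μ => ?_).mono hsub
  apply (HereditarilyLindelofSpace.isLindelof _).countable_of_isDiscrete
  apply IsDiscrete.of_nhdsWithin
  rintro p ⟨h1, hμ, h2, h3⟩
  have h4 := bad_isolated hU hf h1 hμ h2 h3
  rw [le_pure_iff, mem_nhdsWithin_iff_eventually]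
  rw [eventually_nhdsWithin_iff] at h4
  filter_upwards [h4] with q hq hqS
  by_contra hne'
  exact hq hne' hqS.2.2.1

end Pool.Agent.TH735.FO
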