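import Pool.Agent.TH735.FO.Div3

/-!
Number of zeros and growth.
-/

set_option autoImplicit false

namespace Pool.Agent.TH735.FO

open Set Filter Topology Complex Metric

theorem factor {g : ℂ → ℂ} (hg : Differentiable ℂ g) (F : Finset ℂ) (hF : ∀ a ∈ F, g a = 0) :
    ∃ h : ℂ → ℂ, Differentiable ℂ h ∧ ∀ x, g x = (∏ a ∈ F, (x - a)) * h x := by
  classical
  induction F using Finset.induction_on with
  | empty => exact ⟨g, hg, fun x => by simp⟩
  | insert a F ha ih =>
    obtain ⟨h, hh, hgh⟩ := ih fun b hb => hF b (Finset.mem_insert_of_mem hb)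
    have h0 : h a = 0 := by
      have h1 := hF a (Finset.mem_insert_self a F)
      rw [hgh a] at h1
      rcases mul_eq_zero.1 h1 with h2 | h2
      · exfalso
        rw [Finset.prod_eq_zero_iff] at h2
        obtain ⟨b, hb, hab⟩ := h2
        rw [sub_eq_zero] at hab
        exact ha (hab ▸ hb)
      · exact h2
    refine ⟨dslope h a, ?_, ?_⟩
    · rw [← differentiableOn_univ]
      rw [Complex.differentiableOn_dslope Filter.univ_mem]
      exact hh.differentiableOn
    · intro x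
      rw [hgh x, Finset.prod_insert ha]
      by_cases hx : x = a
      · rw [hx, h0]
        simp
      · rw [dslope_of_ne _ hx, slope_def_field, h0, sub_zero]
        have : x - a ≠ 0 := sub_ne_zero.2 hx
        field_simp

theorem count_zeros {g : ℂ → ℂ} (hg : Differentiable ℂ g) {r A : ℝ} (hr : 0 < r)
    (hA : ∀ x, ‖x‖ ≤ 4 * r → ‖g x‖ ≤ Real.exp A) (h0 : g 0 ≠ 0) {F : Finset ℂ}
    (hF : ∀ a ∈ F, g a = 0 ∧ ‖a‖ ≤ r) : (F.card : ℝ) ≤ A - Real.log ‖g 0‖ := by
  obtain ⟨h, hh, hgh⟩ := factor hg F fun a ha => (hF a ha).1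
  have hbound : ‖h 0‖ ≤ Real.exp A / (3 * r) ^ F.card := by
    have hd : DiffContOnCl ℂ h (ball 0 (4 * r)) := hh.diffContOnCl
    refine Complex.norm_le_of_forall_mem_frontier_norm_le (U := ball 0 (4 * r)) isBounded_ball hd ?_
      (subset_closure (mem_ball_self (by positivity)))
    intro z hz
    rw [frontier_ball _ (by positivity), mem_sphere_zero_iff_norm] at hz
    have h1 := hA z hz.le
    rw [hgh z, norm_mul, norm_prod] at h1
    have h2 : (3 * r) ^ F.card ≤ ∏ a ∈ F, ‖z - a‖ := by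
      rw [← Finset.prod_const]
      refine Finset.prod_le_prod (fun _ _ => by positivity) fun a ha => ?_
      have := norm_sub_norm_le z a
      have h3 := (hF a ha).2
      linarith
    rw [le_div_iff₀ (by positivity)]
    calc ‖h z‖ * (3 * r) ^ F.card ≤ ‖h z‖ * ∏ a ∈ F, ‖z - a‖ := by gcongr
      _ = (∏ a ∈ F, ‖z - a‖) * ‖h z‖ := mul_comm _ _
      _ ≤ Real.exp A := h1
  have hg0 : ‖g 0‖ ≤ r ^ F.card * (Real.exp A / (3 * r) ^ F.card) := by
    rw [hgh 0, norm_mul, norm_prod]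
    have h2 : ∏ a ∈ F, ‖0 - a‖ ≤ r ^ F.card := by
      rw [← Finset.prod_const]
      refine Finset.prod_le_prod (fun _ _ => norm_nonneg _) fun a ha => ?_
      rw [zero_sub, norm_neg]
      exact (hF a ha).2
    gcongr
  have hg0pos : 0 < ‖g 0‖ := norm_pos_iff.2 h0
  have h3 : ‖g 0‖ * 3 ^ F.card ≤ Real.exp A := by
    calc ‖g 0‖ * 3 ^ F.card ≤ r ^ F.card * (Real.exp A / (3 * r) ^ F.card) * 3 ^ F.card := by gcongr
      _ = Real.exp A := by
        rw [mul_pow]
        field_simp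
  have h4 := Real.log_le_log (by positivity) h3
  rw [Real.log_exp, Real.log_mul hg0pos.ne' (by positivity), Real.log_pow] at h4
  have h5 : (1 : ℝ) ≤ Real.log 3 := by
    rw [Real.le_log_iff_exp_le (by norm_num)]
    have := Real.exp_one_lt_d9
    linarith
  have h6 : (F.card : ℝ) ≤ F.card * Real.log 3 := by
    have : (0 : ℝ) ≤ F.card := Nat.cast_nonneg _
    nlinarith
  linarith

theorem Zs.gr {U : Set ℂ} {f : ℂ × ℂ → ℂ} {Γ : ℂ × ℂ → Prop} (h : Zs U f Γ) {c₀ A : ℝ} {ρ : ℕ}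
    (hc₀ : 0 < c₀) (hA0 : 0 ≤ A) (hlow : ∀ t ∈ U, c₀ ≤ ‖f (t, 0)‖)
    (hup : ∀ t ∈ U, ∀ x, ‖f (t, x)‖ ≤ Real.exp (A * (1 + ‖x‖) ^ ρ)) {δ : ℝ} (hδ : 0 < δ)
    (hδf : ∀ t ∈ U, ∀ x, ‖x‖ < δ → f (t, x) ≠ 0) :
    ∃ C, Gr U (mult U f Γ) δ C ρ := by
  classical
  set C := ⌈A * 5 ^ ρ + |Real.log c₀|⌉₊ with hC
  have hCle : A * 5 ^ ρ + |Real.log c₀| ≤ C := Nat.le_ceil _
  -- generic parameters
  have hgen : ∀ t ∈ U, t ∉ badT U f → ∀ n : ℕ,
      ∑ᶠ x ∈ closedBall 0 (n : ℝ), mult U f Γ t x ≤ C * (n + 1) ^ ρ := by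
    intro t ht htb n
    have hfin := h.dv0.finS ht (isBounded_closedBall (x := (0 : ℂ)) (r := (n : ℝ)))
    rw [sm_eq_nat hfin]
    have h1 : ∀ x ∈ hfin.toFinset, mult U f Γ t x = 1 := by
      intro x hx
      rw [Set.Finite.mem_toFinset] at hx
      have hfx := h.mult_zero ht hx.2
      have hg : f (t, x) = 0 → Good f (t, x) := by
        intro h0
        by_contra hb
        exact htb ⟨ht, x, h0, hb⟩
      by_cases hΓ : f (t, x) = 0 ∧ Γ (t, x)
      · exact (h.mult_good ht hg).1 hΓ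
      · exact absurd ((h.mult_good ht hg).2 hΓ) hx.2
    rw [Finset.sum_congr rfl h1, Finset.sum_const, smul_eq_mul, mul_one]
    have h2 := count_zeros (g := fun x => f (t, x))
      (Pool.Agent.TH735.QM.slice_right h.an ht) (r := n + 1)
      (A := A * (1 + 4 * ((n : ℝ) + 1)) ^ ρ) (by positivity) (by
        intro x hx
        refine (hup t ht x).trans ?_
        apply Real.exp_le_exp.2
        gcongr) (by
        intro h0
        have := hlow t ht
        rw [h0, norm_zero] at this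
        exact absurd hc₀ (not_lt.2 this)) (F := hfin.toFinset) (by
        intro a ha
        rw [Set.Finite.mem_toFinset] at ha
        refine ⟨h.mult_zero ht ha.2, ?_⟩
        have : ‖a‖ ≤ n := by simpa using ha.1
        linarith)
    have h3 : Real.log c₀ ≤ Real.log ‖f (t, 0)‖ := Real.log_le_log hc₀ (hlow t ht)
    have h4 : (hfin.toFinset.card : ℝ) ≤ C * ((n : ℝ) + 1) ^ ρ := by
      have h5 : (1 + 4 * ((n : ℝ) + 1)) ^ ρ ≤ 5 ^ ρ * ((n : ℝ) + 1) ^ ρ := by
        rw [← mul_pow]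
        have : (0 : ℝ) ≤ n := Nat.cast_nonneg n
        gcongr
        linarith
      have h6 : (1 : ℝ) ≤ ((n : ℝ) + 1) ^ ρ := by
        apply one_le_pow₀
        have : (0 : ℝ) ≤ n := Nat.cast_nonneg n
        linarith
      have h7 : -Real.log c₀ ≤ |Real.log c₀| := neg_le_abs _
      calc (hfin.toFinset.card : ℝ) ≤ A * (1 + 4 * ((n : ℝ) + 1)) ^ ρ - Real.log ‖f (t, 0)‖ := h2
        _ ≤ A * (5 ^ ρ * ((n : ℝ) + 1) ^ ρ) + |Real.log c₀| * ((n : ℝ) + 1) ^ ρ := by
            have h8 : A * (1 + 4 * ((n : ℝ) + 1)) ^ ρ ≤ A * (5 ^ ρ * ((n : ℝ) + 1) ^ ρ) := by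
              gcongr
            have h9 : |Real.log c₀| ≤ |Real.log c₀| * ((n : ℝ) + 1) ^ ρ := by
              nlinarith [abs_nonneg (Real.log c₀)]
            linarith
        _ = (A * 5 ^ ρ + |Real.log c₀|) * ((n : ℝ) + 1) ^ ρ := by ring
        _ ≤ C * ((n : ℝ) + 1) ^ ρ := by gcongr
    exact_mod_cast h4
  refine ⟨C * 2 ^ ρ, hδ, ?_, ?_⟩
  · intro t ht x hx
    by_contra hlt
    exact hδf t ht x (not_le.1 hlt) (h.mult_zero ht hx)
  · intro t ht n
    obtain ⟨E, ε, hE, hε, -, h2, hdisj, -⟩ := h.dv0.decomp h.op ht (n : ℝ) (fun _ => 1)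
      (fun _ => one_pos)
    have hev : ∀ᶠ s in 𝓝 t, ∀ e ∈ E, ∑ᶠ x ∈ ball e (ε e), mult U f Γ s x = mult U f Γ t e := by
      rw [Filter.eventually_all_finset]
      intro e _
      exact h2 e
    obtain ⟨s, ⟨hs, hsU⟩, hsb⟩ := exists_generic (badT_countable h)
      (hev.and (h.op.mem_nhds ht))
    have hg := hgen s hsU hsb (n + 1)
    have hfin := h.dv0.finS ht (isBounded_closedBall (x := (0 : ℂ)) (r := (n : ℝ)))
    have hfins := h.dv0.finS hsU (isBounded_closedBall (x := (0 : ℂ)) (r := ((n + 1 : ℕ) : ℝ)))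
    have hfine : ∀ e, {x | x ∈ ball e (ε e) ∧ mult U f Γ s x ≠ 0}.Finite := fun e =>
      h.dv0.finS hsU isBounded_ball
    have e1 : ∑ᶠ x ∈ closedBall 0 (n : ℝ), mult U f Γ t x = ∑ e ∈ E, mult U f Γ t e := by
      rw [sm_eq_nat hfin]
      refine Finset.sum_congr ?_ fun _ _ => rfl
      ext x
      rw [Set.Finite.mem_toFinset, hE]
      simp
    have e2 : ∑ e ∈ E, mult U f Γ t e =
        ∑ x ∈ E.biUnion (fun e => (hfine e).toFinset), mult U f Γ s x := by
      rw [Finset.sum_biUnion]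
      · refine Finset.sum_congr rfl fun e he => ?_
        rw [← hs e he, sm_eq_nat (hfine e)]
      · intro a ha b hb hab
        rw [Function.onFun, Finset.disjoint_left]
        intro x hx hx'
        rw [Set.Finite.mem_toFinset] at hx hx'
        exact hab (hdisj a ha b hb x hx.1 hx'.1)
    rw [e1, e2]
    rw [sm_eq_nat hfins] at hg
    calc ∑ x ∈ E.biUnion (fun e => (hfine e).toFinset), mult U f Γ s x
        ≤ ∑ x ∈ hfins.toFinset, mult U f Γ s x := by
          apply Finset.sum_le_sum_of_subset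
          intro x hx
          rw [Finset.mem_biUnion] at hx
          obtain ⟨e, he, hx⟩ := hx
          rw [Set.Finite.mem_toFinset] at hx ⊢
          refine ⟨?_, hx.2⟩
          have h3 := ((hE e).1 he).1
          have h4 := mem_ball_iff_norm.1 hx.1
          have h5 := (hε e).2
          have h6 : ‖x‖ ≤ ‖e‖ + ‖x - e‖ := by
            have := norm_add_le e (x - e)
            rwa [add_sub_cancel] at this
          simp only [mem_closedBall, dist_zero_right]
          push_cast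
          linarith
      _ ≤ C * (n + 1 + 1) ^ ρ := hg
      _ ≤ C * (2 * (n + 1)) ^ ρ := by
          gcongr
          omega
      _ = C * 2 ^ ρ * (n + 1) ^ ρ := by rw [mul_pow]; ring

end Pool.Agent.TH735.FO
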