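import Mathlib

/-!
A maximum principle, and density of the real parts of entire functions in the continuous functions
on a circle.
-/

set_option autoImplicit false

namespace Pool.Agent.TH735.FO

open Set Filter Topology Complex Metric Real ComplexConjugate

/-- `u` has at `t₀` a touching minorant which is the real part of an analytic function -/
def Touch (u : ℂ → ℝ) (t₀ : ℂ) : Prop :=
  ∃ S : ℂ → ℂ, AnalyticAt ℂ S t₀ ∧ (∀ᶠ t in 𝓝 t₀, (S t).re ≤ u t) ∧ (S t₀).re = u t₀

/-- an analytic function whose real part is smaller on small circles than at the centre -/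
theorem no_peak {S : ℂ → ℂ} {t₀ : ℂ} (hS : AnalyticAt ℂ S t₀) {ε : ℝ} (hε : 0 < ε)
    (h : ∀ᶠ t in 𝓝 t₀, (S t).re ≤ (S t₀).re - ε * ‖t - t₀‖ ^ 2) : False := by
  obtain ⟨r, hr, hr'⟩ := Metric.eventually_nhds_iff_ball.1 (h.and hS.eventually_analyticAt)
  set δ := r / 2 with hδ
  have hδ0 : 0 < δ := by positivity
  have hsub : closedBall t₀ δ ⊆ ball t₀ r := closedBall_subset_ball (by linarith)
  have hd : DiffContOnCl ℂ (fun t => Complex.exp (S t)) (ball t₀ δ) := by
    apply DifferentiableOn.diffContOnCl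
    rw [closure_ball _ hδ0.ne']
    intro t ht
    exact ((hr' t (hsub ht)).2.differentiableAt.cexp).differentiableWithinAt
  have key := Complex.norm_le_of_forall_mem_frontier_norm_le (U := ball t₀ δ) isBounded_ball hd
    (C := Real.exp ((S t₀).re - ε * δ ^ 2)) (by
      intro z hz
      rw [frontier_ball _ hδ0.ne', mem_sphere_iff_norm] at hz
      rw [Complex.norm_exp]
      apply Real.exp_le_exp.2
      have := (hr' z (hsub (by rw [mem_closedBall_iff_norm]; exact hz.le))).1
      rw [hz] at this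
      exact this) (z := t₀) (subset_closure (mem_ball_self hδ0))
  rw [Complex.norm_exp, Real.exp_le_exp] at key
  have : 0 < ε * δ ^ 2 := by positivity
  linarith

theorem max_principle {c : ℂ} {R : ℝ} {u : ℂ → ℝ} (hu : ContinuousOn u (closedBall c R))
    (hT : ∀ t ∈ ball c R, Touch u t) {M : ℝ} (hM : ∀ t ∈ sphere c R, u t ≤ M) :
    ∀ t ∈ closedBall c R, u t ≤ M := by
  intro t ht
  have hR : 0 ≤ R := le_trans dist_nonneg (mem_closedBall.1 ht)
  apply le_of_forall_pos_le_add
  intro ε' hε'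
  set ε := ε' / (R ^ 2 + 1) with hε
  have hε0 : 0 < ε := by positivity
  have hεR : ε * R ^ 2 ≤ ε' := by
    rw [hε, div_mul_eq_mul_div, div_le_iff₀ (by positivity)]
    nlinarith
  set v : ℂ → ℝ := fun t => u t + ε * ‖t - c‖ ^ 2 with hv
  have hvc : ContinuousOn v (closedBall c R) := hu.add (by fun_prop)
  obtain ⟨t₀, ht₀, hmax⟩ := (isCompact_closedBall c R).exists_isMaxOn ⟨t, ht⟩ hvc
  rw [isMaxOn_iff] at hmax
  have hle : u t ≤ v t₀ := by
    have h1 := hmax t ht
    have h2 : 0 ≤ ε * ‖t - c‖ ^ 2 := by positivity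
    simp only [hv] at h1 ⊢
    linarith
  rcases (mem_closedBall.1 ht₀).lt_or_eq with hlt | heq
  · exfalso
    obtain ⟨S, hS, hSle, hSeq⟩ := hT t₀ (mem_ball.2 hlt)
    refine no_peak (S := fun t => S t + ε * (2 * ((t - t₀) * conj (t₀ - c))))
      (t₀ := t₀) (hS.add (by fun_prop)) hε0 ?_
    have hball : ∀ᶠ t in 𝓝 t₀, t ∈ closedBall c R :=
      Filter.mem_of_superset (isOpen_ball.mem_nhds (mem_ball.2 hlt)) ball_subset_closedBall
    filter_upwards [hSle, hball] with t h1 h2
    have h3 := hmax t h2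
    simp only [hv] at h3
    have h4 : ‖t - c‖ ^ 2 = ‖t - t₀‖ ^ 2 + 2 * ((t - t₀) * conj (t₀ - c)).re + ‖t₀ - c‖ ^ 2 := by
      have : t - c = (t - t₀) + (t₀ - c) := by ring
      rw [this, ← Complex.normSq_eq_norm_sq, Complex.normSq_add, Complex.normSq_eq_norm_sq,
        Complex.normSq_eq_norm_sq]
      ring
    rw [h4] at h3
    have h5 : ((ε : ℂ) * (2 * ((t - t₀) * conj (t₀ - c)))).re =
        ε * (2 * ((t - t₀) * conj (t₀ - c)).re) := by
      rw [Complex.re_ofReal_mul]
      congr 1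
      simp [Complex.mul_re]
    simp only [sub_self, zero_mul, mul_zero, add_zero, Complex.add_re, h5]
    rw [hSeq]
    nlinarith
  · have h1 := hM t₀ (mem_sphere.2 heq)
    have h2 : ‖t₀ - c‖ = R := by rw [← dist_eq_norm]; exact heq
    simp only [hv, h2] at hle
    linarith

/-- harmonic trigonometric polynomials are dense -/
theorem circle_dense {c : ℂ} {R : ℝ} (hR : 0 < R) {g : ℂ → ℝ} (hg : ContinuousOn g (sphere c R))
    {ε : ℝ} (hε : 0 < ε) :
    ∃ Q : ℂ → ℂ, Differentiable ℂ Q ∧ ∀ z ∈ sphere c R, |g z - (Q z).re| ≤ ε := by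
  have hmap : ∀ ζ : Circle, c + R * (ζ : ℂ) ∈ sphere c R := by
    intro ζ
    rw [mem_sphere_iff_norm]
    simp [abs_of_pos hR, Circle.norm_coe]
  have hcont : Continuous (fun ζ : Circle => ((g (c + R * (ζ : ℂ)) : ℝ) : ℂ)) := by
    refine Complex.continuous_ofReal.comp ?_
    rw [← continuousOn_univ]
    exact hg.comp (by fun_prop) (fun ζ _ => hmap ζ)
  have : Fact (0 < 2 * π) := ⟨by positivity⟩
  set G : C(AddCircle (2 * π), ℂ) :=
    ⟨fun x => ((g (c + R * ((AddCircle.homeomorphCircle' x : Circle) : ℂ)) : ℝ) : ℂ),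
      hcont.comp AddCircle.homeomorphCircle'.continuous⟩ with hG
  have hmem : G ∈ (Submodule.span ℂ (range (@fourier (2 * π)))).topologicalClosure := by
    rw [span_fourier_closure_eq_top]
    trivial
  obtain ⟨p, hp, hpG⟩ := Metric.mem_closure_iff.1 hmem ε hε
  have hrep : ∃ Q₁ Q₂ : ℂ → ℂ, Differentiable ℂ Q₁ ∧ Differentiable ℂ Q₂ ∧
      ∀ x : AddCircle (2 * π), p x = Q₁ (c + R * ((AddCircle.homeomorphCircle' x : Circle) : ℂ)) +
        conj (Q₂ (c + R * ((AddCircle.homeomorphCircle' x : Circle) : ℂ))) := by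
    refine Submodule.span_induction (p := fun p _ => ∃ Q₁ Q₂ : ℂ → ℂ, Differentiable ℂ Q₁ ∧
      Differentiable ℂ Q₂ ∧ ∀ x : AddCircle (2 * π), p x =
        Q₁ (c + R * ((AddCircle.homeomorphCircle' x : Circle) : ℂ)) +
        conj (Q₂ (c + R * ((AddCircle.homeomorphCircle' x : Circle) : ℂ)))) ?_ ?_ ?_ ?_ hp
    · rintro _ ⟨n, rfl⟩
      have hpow : ∀ (k : ℕ) (x : AddCircle (2 * π)), fourier (k : ℤ) x =
          ((((AddCircle.homeomorphCircle' x : Circle) : ℂ) * R) / R) ^ k := by
        intro k x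
        rw [mul_div_cancel_right₀ _ (by exact_mod_cast hR.ne')]
        induction x using QuotientAddGroup.induction_on with
        | H y =>
          rw [fourier_coe_apply, AddCircle.homeomorphCircle'_apply_mk, Circle.coe_exp,
            ← Complex.exp_nat_mul]
          congr 1
          push_cast
          field_simp
      rcases n with k | k
      · refine ⟨fun z => ((z - c) / R) ^ k, fun _ => 0, by fun_prop, by fun_prop, ?_⟩
        intro x
        rw [Int.ofNat_eq_natCast, hpow]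
        simp
        ring
      · refine ⟨fun _ => 0, fun z => ((z - c) / R) ^ (k + 1), by fun_prop, by fun_prop, ?_⟩
        intro x
        rw [Int.negSucc_eq, fourier_neg]
        have := hpow (k + 1) x
        push_cast at this
        rw [this]
        simp
        ring
    · exact ⟨fun _ => 0, fun _ => 0, by fun_prop, by fun_prop, by simp⟩
    · rintro p q _ _ ⟨P₁, P₂, hP₁, hP₂, hP⟩ ⟨Q₁, Q₂, hQ₁, hQ₂, hQ⟩
      refine ⟨fun z => P₁ z + Q₁ z, fun z => P₂ z + Q₂ z, by fun_prop, by fun_prop, ?_⟩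
      intro x
      rw [ContinuousMap.add_apply, hP, hQ, map_add]
      ring
    · rintro a p _ ⟨P₁, P₂, hP₁, hP₂, hP⟩
      refine ⟨fun z => a * P₁ z, fun z => conj a * P₂ z, by fun_prop, by fun_prop, ?_⟩
      intro x
      rw [ContinuousMap.smul_apply, hP, map_mul, Complex.conj_conj, smul_eq_mul]
      ring
  obtain ⟨Q₁, Q₂, hQ₁, hQ₂, hQ⟩ := hrep
  refine ⟨fun z => Q₁ z + Q₂ z, by fun_prop, ?_⟩
  intro z hz
  have hz1 : ‖(z - c) / R‖ = 1 := by
    rw [norm_div, Complex.norm_real, Real.norm_eq_abs, abs_of_pos hR, mem_sphere_iff_norm.1 hz,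
      div_self hR.ne']
  set ζ : Circle := ⟨(z - c) / R, mem_sphere_zero_iff_norm.2 hz1⟩ with hζ
  set x := AddCircle.homeomorphCircle'.symm ζ with hx
  have hxz : c + R * ((AddCircle.homeomorphCircle' x : Circle) : ℂ) = z := by
    rw [hx, Homeomorph.apply_symm_apply]
    show c + R * ((z - c) / R) = z
    rw [mul_div_cancel₀ _ (by exact_mod_cast hR.ne')]
    ring
  have h1 := hQ x
  rw [hxz] at h1
  have h2 : ‖G x - p x‖ ≤ ε := by
    have := (ContinuousMap.norm_coe_le_norm (G - p) x)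
    rw [dist_eq_norm] at hpG
    exact this.trans hpG.le
  have h3 : G x = ((g z : ℝ) : ℂ) := by
    show ((g (c + R * ((AddCircle.homeomorphCircle' x : Circle) : ℂ)) : ℝ) : ℂ) = _
    rw [hxz]
  have h4 : (G x - p x).re = g z - (Q₁ z + Q₂ z).re := by
    rw [h3, h1]
    simp
  rw [← h4]
  exact (Complex.abs_re_le_norm _).trans h2

end Pool.Agent.TH735.FO
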