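import Pool.Agent.TH735.FO.Tail

/-!
Analyticity of the sums of negative powers of the points of an analytically moving family of
polynomial growth.
-/

set_option autoImplicit false

namespace Pool.Agent.TH735.FO

open Set Filter Topology Complex Metric Real ComplexConjugate Function

/-- the main term -/
noncomputable def AA (α β : ℂ) (k : ℕ) (t x : ℂ) : ℝ := ((α + β * t) * ((x : ℂ) ^ k)⁻¹).re

/-- main term and logarithmic correction -/
noncomputable def Psi (α β : ℂ) (k : ℕ) (c r : ℝ) (t x : ℂ) : ℝ :=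
  AA α β k t x + c * Real.log (2 * r / ‖x‖)

/-- the truncated weight -/
noncomputable def Phi (α β : ℂ) (k : ℕ) (c r : ℝ) (t x : ℂ) : ℝ :=
  if ‖x‖ ≤ r then Psi α β k c r t x else max 0 (Psi α β k c r t x)

theorem AA_le {α β : ℂ} {k : ℕ} {t x : ℂ} {M : ℝ} (hM : ‖α + β * t‖ ≤ M) :
    |AA α β k t x| ≤ M / ‖x‖ ^ k := by
  refine (Complex.abs_re_le_norm _).trans ?_
  rw [norm_mul, norm_inv, norm_pow, ← div_eq_mul_inv]
  gcongr

theorem Psi_pos {α β : ℂ} {k : ℕ} {M C₁ r : ℝ} (hr : 0 < r) (hM0 : 0 ≤ M)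
    (hC₁ : M * 2 ^ k < C₁ * Real.log 2) {t x : ℂ} (hM : ‖α + β * t‖ ≤ M) (h1 : r / 2 ≤ ‖x‖)
    (h2 : ‖x‖ ≤ r) : 0 < Psi α β k (C₁ / r ^ k) r t x := by
  have hlog2 : 0 < Real.log 2 := Real.log_pos (by norm_num)
  have hC0 : 0 < C₁ := by
    by_contra hneg
    push Not at hneg
    have : 0 ≤ M * 2 ^ k := by positivity
    nlinarith
  have hx : 0 < ‖x‖ := by linarith
  have a1 := abs_le.1 (AA_le (k := k) (x := x) hM)
  have a2 : M / ‖x‖ ^ k ≤ M * 2 ^ k / r ^ k := by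
    rw [div_le_div_iff₀ (by positivity) (by positivity)]
    have : r ^ k ≤ (2 * ‖x‖) ^ k := pow_le_pow_left₀ hr.le (by linarith) k
    rw [mul_pow] at this
    calc M * r ^ k ≤ M * (2 ^ k * ‖x‖ ^ k) := by gcongr
      _ = M * 2 ^ k * ‖x‖ ^ k := by ring
  have a3 : Real.log 2 ≤ Real.log (2 * r / ‖x‖) := by
    apply Real.log_le_log (by norm_num)
    rw [le_div_iff₀ hx]
    linarith
  have a4 : M * 2 ^ k / r ^ k < C₁ / r ^ k * Real.log 2 := by
    rw [div_mul_eq_mul_div]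
    gcongr
  have a5 : C₁ / r ^ k * Real.log 2 ≤ C₁ / r ^ k * Real.log (2 * r / ‖x‖) := by
    gcongr
  unfold Psi
  linarith [a1.1]

theorem Psi_neg {α β : ℂ} {k : ℕ} {M C₁ r : ℝ} (hr : 0 < r) (hM0 : 0 ≤ M)
    (hC₁ : M * 2 ^ k < C₁ * Real.log 2) {t x : ℂ} (hM : ‖α + β * t‖ ≤ M) (h1 : 4 * r ≤ ‖x‖) :
    Psi α β k (C₁ / r ^ k) r t x < 0 := by
  have hlog2 : 0 < Real.log 2 := Real.log_pos (by norm_num)
  have hC0 : 0 < C₁ := by
    by_contra hneg
    push Not at hneg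
    have : 0 ≤ M * 2 ^ k := by positivity
    nlinarith
  have hx : 0 < ‖x‖ := by linarith
  have a1 := abs_le.1 (AA_le (k := k) (x := x) hM)
  have a2 : M / ‖x‖ ^ k ≤ M * 2 ^ k / r ^ k := by
    rw [div_le_div_iff₀ (by positivity) (by positivity)]
    have : r ^ k ≤ (2 * ‖x‖) ^ k := pow_le_pow_left₀ hr.le (by linarith) k
    rw [mul_pow] at this
    calc M * r ^ k ≤ M * (2 ^ k * ‖x‖ ^ k) := by gcongr
      _ = M * 2 ^ k * ‖x‖ ^ k := by ring
  have a3 : Real.log (2 * r / ‖x‖) ≤ - Real.log 2 := by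
    rw [← Real.log_inv]
    apply Real.log_le_log (by positivity)
    rw [div_le_iff₀ hx]
    linarith
  have a4 : M * 2 ^ k / r ^ k < C₁ / r ^ k * Real.log 2 := by
    rw [div_mul_eq_mul_div]
    gcongr
  have a5 : C₁ / r ^ k * Real.log (2 * r / ‖x‖) ≤ C₁ / r ^ k * (- Real.log 2) := by
    gcongr
  unfold Psi
  linarith [a1.2]

theorem Phi_zero {α β : ℂ} {k : ℕ} {M C₁ r : ℝ} (hr : 0 < r) (hM0 : 0 ≤ M)
    (hC₁ : M * 2 ^ k < C₁ * Real.log 2) {t x : ℂ} (hM : ‖α + β * t‖ ≤ M) (h1 : 4 * r < ‖x‖) :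
    Phi α β k (C₁ / r ^ k) r t x = 0 := by
  have := Psi_neg hr hM0 hC₁ hM h1.le
  rw [Phi, if_neg (by linarith), max_eq_left this.le]

theorem Psi_cont (α β : ℂ) (k : ℕ) (c : ℝ) {r : ℝ} (hr : 0 < r) (t₀ : ℂ) {e : ℂ} (he : e ≠ 0) :
    ContinuousAt (fun p : ℂ × ℂ => Psi α β k c r p.1 p.2) (t₀, e) := by
  unfold Psi AA
  have h1 : ContinuousAt (fun p : ℂ × ℂ => ((α + β * p.1) * ((p.2 : ℂ) ^ k)⁻¹).re) (t₀, e) := by
    apply Complex.continuous_re.continuousAt.comp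
    apply ContinuousAt.mul (by fun_prop)
    apply ContinuousAt.inv₀ (by fun_prop)
    exact pow_ne_zero k he
  have h2 : ContinuousAt (fun p : ℂ × ℂ => c * Real.log (2 * r / ‖p.2‖)) (t₀, e) := by
    apply ContinuousAt.mul continuousAt_const
    apply ContinuousAt.log
    · apply ContinuousAt.div continuousAt_const (by fun_prop)
      exact norm_ne_zero_iff.2 he
    · have : 0 < ‖e‖ := norm_pos_iff.2 he
      positivity
  exact h1.add h2

theorem Phi_cases {α β : ℂ} {k : ℕ} {M C₁ r : ℝ} (hr : 0 < r) (hM0 : 0 ≤ M)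
    (hC₁ : M * 2 ^ k < C₁ * Real.log 2) {t₀ e : ℂ} (hM : ‖α + β * t₀‖ ≤ M) (he : e ≠ 0) :
    (∀ᶠ p : ℂ × ℂ in 𝓝 (t₀, e), Phi α β k (C₁ / r ^ k) r p.1 p.2 =
      Psi α β k (C₁ / r ^ k) r p.1 p.2) ∨
    (Phi α β k (C₁ / r ^ k) r t₀ e = 0 ∧ ∀ᶠ p : ℂ × ℂ in 𝓝 (t₀, e),
      Phi α β k (C₁ / r ^ k) r p.1 p.2 = max 0 (Psi α β k (C₁ / r ^ k) r p.1 p.2)) := by
  have hcont := Psi_cont α β k (C₁ / r ^ k) hr t₀ he
  by_cases h1 : 0 < Psi α β k (C₁ / r ^ k) r t₀ e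
  · left
    filter_upwards [hcont.eventually (lt_mem_nhds h1)] with p hp
    unfold Phi
    split_ifs
    · rfl
    · exact max_eq_right (le_of_lt hp)
  rcases lt_trichotomy ‖e‖ r with h2 | h2 | h2
  · left
    have h3 : ContinuousAt (fun p : ℂ × ℂ => ‖p.2‖) (t₀, e) := by fun_prop
    filter_upwards [h3.eventually (gt_mem_nhds h2)] with p hp
    rw [Phi, if_pos (le_of_lt hp)]
  · exact absurd (Psi_pos hr hM0 hC₁ hM (by linarith) h2.le) h1
  · right
    constructor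
    · rw [Phi, if_neg (not_le.2 h2), max_eq_left (not_lt.1 h1)]
    · have h3 : ContinuousAt (fun p : ℂ × ℂ => ‖p.2‖) (t₀, e) := by fun_prop
      filter_upwards [h3.eventually (lt_mem_nhds h2)] with p hp
      rw [Phi, if_neg (not_le.2 hp)]

theorem Phi_cont {α β : ℂ} {k : ℕ} {M C₁ r : ℝ} (hr : 0 < r) (hM0 : 0 ≤ M)
    (hC₁ : M * 2 ^ k < C₁ * Real.log 2) {t₀ e : ℂ} (hM : ‖α + β * t₀‖ ≤ M) (he : e ≠ 0) :
    ContinuousAt (fun p : ℂ × ℂ => Phi α β k (C₁ / r ^ k) r p.1 p.2) (t₀, e) := by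
  have hcont := Psi_cont α β k (C₁ / r ^ k) hr t₀ he
  rcases Phi_cases hr hM0 hC₁ hM he with h | ⟨-, h⟩
  · exact hcont.congr_of_eventuallyEq h
  · have h2 : ContinuousAt (fun p : ℂ × ℂ => max 0 (Psi α β k (C₁ / r ^ k) r p.1 p.2)) (t₀, e) :=
      Tendsto.max tendsto_const_nhds hcont
    exact h2.congr_of_eventuallyEq h

theorem Phi_touch {α β : ℂ} {k : ℕ} {M C₁ r : ℝ} (hr : 0 < r) (hM0 : 0 ≤ M)
    (hC₁ : M * 2 ^ k < C₁ * Real.log 2) {t₀ e : ℂ} (hM : ‖α + β * t₀‖ ≤ M) (he : e ≠ 0) :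
    (∃ b > 0, ∃ P₁ P₂ ψ₁ ψ₂ : ℂ → ℂ, AnalyticAt ℂ P₁ t₀ ∧
        AnalyticAt ℂ P₂ t₀ ∧ AnalyticOnNhd ℂ ψ₁ (ball e b) ∧ AnalyticOnNhd ℂ ψ₂ (ball e b) ∧
        ∀ᶠ p : ℂ × ℂ in 𝓝 (t₀, e), Phi α β k (C₁ / r ^ k) r p.1 p.2 =
          (P₁ p.1 * ψ₁ p.2 + P₂ p.1 * ψ₂ p.2).re) ∨
      (Phi α β k (C₁ / r ^ k) r t₀ e = 0 ∧
        ∀ᶠ p : ℂ × ℂ in 𝓝 (t₀, e), 0 ≤ Phi α β k (C₁ / r ^ k) r p.1 p.2) := by
  rcases Phi_cases hr hM0 hC₁ hM he with h | ⟨h0, h⟩
  · left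
    have he0 : 0 < ‖e‖ := norm_pos_iff.2 he
    refine ⟨‖e‖ / 2, by positivity, fun t => α + β * t, fun _ => ((C₁ / r ^ k : ℝ) : ℂ),
      fun x => (x ^ k)⁻¹, fun x => (Real.log (2 * r) : ℂ) - Real.log ‖e‖ - Complex.log (x / e),
      by fun_prop, analyticAt_const, ?_, ?_, ?_⟩
    · intro x hx
      have hx0 : x ≠ 0 := by
        rintro rfl
        rw [mem_ball, dist_zero_left] at hx
        linarith
      exact (analyticAt_id.pow k).inv (pow_ne_zero k hx0)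
    · intro x hx
      have hs : x / e ∈ slitPlane := by
        have : x / e = 1 + (x - e) / e := by field_simp; ring
        rw [this]
        apply Complex.mem_slitPlane_of_norm_lt_one
        rw [norm_div, div_lt_one he0]
        rw [mem_ball_iff_norm] at hx
        linarith
      exact (analyticAt_const.sub analyticAt_const).sub
        ((analyticAt_id.div analyticAt_const he).clog hs)
    · have hx0 : ∀ᶠ p : ℂ × ℂ in 𝓝 (t₀, e), p.2 ≠ 0 :=
        continuousAt_snd.eventually_ne he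
      filter_upwards [h, hx0] with p hp hp0
      have hp0' : 0 < ‖p.2‖ := norm_pos_iff.2 hp0
      rw [hp, Psi, AA, Complex.add_re, Complex.re_ofReal_mul]
      congr 2
      rw [Complex.sub_re, Complex.sub_re, Complex.ofReal_re, Complex.ofReal_re, Complex.log_re,
        norm_div, Real.log_div hp0'.ne' he0.ne', Real.log_div (by positivity) hp0'.ne']
      ring
  · right
    refine ⟨h0, ?_⟩
    filter_upwards [h] with p hp
    rw [hp]
    exact le_max_left _ _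

theorem Phi_sub {α β : ℂ} {k : ℕ} {M C₁ r δ : ℝ} (hr : 0 < r) (hM0 : 0 ≤ M)
    (hC₁0 : 0 ≤ C₁) (hδ : 0 < δ) {t x : ℂ}
    (hM : ‖α + β * t‖ ≤ M) (hδx : δ ≤ ‖x‖) (hx : ‖x‖ ≤ 4 * r) :
    |Phi α β k (C₁ / r ^ k) r t x - AA α β k t x| ≤
      C₁ / r ^ k * (2 * r / δ) + M / r ^ k + C₁ / r ^ k := by
  have hx0 : 0 < ‖x‖ := lt_of_lt_of_le hδ hδx
  have hc : 0 ≤ C₁ / r ^ k := by positivity
  have hMr : 0 ≤ M / r ^ k := by positivity
  have h2rδ : 0 ≤ 2 * r / δ := by positivity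
  unfold Phi
  split_ifs with h
  · unfold Psi
    rw [add_sub_cancel_left, abs_mul, abs_of_nonneg hc]
    have h1 : 1 ≤ 2 * r / ‖x‖ := by
      rw [le_div_iff₀ hx0]
      linarith
    rw [abs_of_nonneg (Real.log_nonneg h1)]
    have h2 : Real.log (2 * r / ‖x‖) ≤ 2 * r / δ := by
      refine (Real.log_le_self (by positivity)).trans ?_
      gcongr
    have h3 : C₁ / r ^ k * Real.log (2 * r / ‖x‖) ≤ C₁ / r ^ k * (2 * r / δ) := by gcongr
    linarith
  · push Not at h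
    have a1 := AA_le (k := k) (x := x) hM
    have a2 : M / ‖x‖ ^ k ≤ M / r ^ k := by gcongr
    have a3 : |Real.log (2 * r / ‖x‖)| ≤ 1 := by
      rw [abs_le]
      have b1 : Real.log 2 ≤ 1 := by
        have := Real.log_two_lt_d9
        linarith
      constructor
      · have : Real.log (1 / 2) ≤ Real.log (2 * r / ‖x‖) := by
          apply Real.log_le_log (by norm_num)
          rw [le_div_iff₀ hx0]
          linarith
        rw [one_div, Real.log_inv] at this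
        linarith
      · have : Real.log (2 * r / ‖x‖) ≤ Real.log 2 := by
          apply Real.log_le_log (by positivity)
          rw [div_le_iff₀ hx0]
          linarith
        linarith
    have a4 : |C₁ / r ^ k * Real.log (2 * r / ‖x‖)| ≤ C₁ / r ^ k := by
      rw [abs_mul, abs_of_nonneg hc]
      nlinarith [abs_nonneg (Real.log (2 * r / ‖x‖))]
    have a5 : |max 0 (Psi α β k (C₁ / r ^ k) r t x) - AA α β k t x| ≤
        |AA α β k t x| + |C₁ / r ^ k * Real.log (2 * r / ‖x‖)| := by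
      unfold Psi
      rcases le_total (AA α β k t x + C₁ / r ^ k * Real.log (2 * r / ‖x‖)) 0 with h5 | h5
      · rw [max_eq_left h5, zero_sub, abs_neg]
        linarith [abs_nonneg (C₁ / r ^ k * Real.log (2 * r / ‖x‖))]
      · rw [max_eq_right h5, add_sub_cancel_left]
        linarith [abs_nonneg (AA α β k t x)]
    have a6 : 0 ≤ C₁ / r ^ k * (2 * r / δ) := by positivity
    linarith

end Pool.Agent.TH735.FO
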