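import Pool.Agent.TH735.FO.Glob2

/-!
Quantifiers guarded by an equation of finite order.
-/

set_option autoImplicit false

namespace Pool.Agent.TH735.FO

open Set Filter Topology Complex Metric Cardinal
open Pool.Agent.TH735.QM

/-- `F(s, x)` is of finite order in `x`, locally uniformly in `s` -/
def FiniteOrder {m : ℕ} (F : (Fin m → ℂ) → ℂ → ℂ) : Prop :=
  ∀ s₀ : Fin m → ℂ, ∃ (A : ℝ) (ρ : ℕ), ∀ᶠ s in 𝓝 s₀, ∀ x, ‖F s x‖ ≤ Real.exp (A * (1 + ‖x‖) ^ ρ)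

/-- `x` is a zero of `F(s, ·)`, which is not identically zero -/
def IsZero {m : ℕ} (F : (Fin m → ℂ) → ℂ → ℂ) (s : Fin m → ℂ) (x : ℂ) : Prop :=
  (∃ x', F s x' ≠ 0) ∧ F s x = 0

theorem genCard_off {U : Set ℂ} (hU : IsOpen U) (hUc : IsPreconnected U) {f : ℂ × ℂ → ℂ}
    (hf : AnalyticOnNhd ℂ f (U ×ˢ Set.univ)) {X : Set ℂ} (hX : Qm X) :
    GenCard U fun t x => x ∈ X ∧ ¬ ((∃ x', f (t, x') ≠ 0) ∧ f (t, x) = 0) := by
  by_cases hne : ∃ t ∈ U, ∃ x, f (t, x) ≠ 0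
  · obtain ⟨t₁, ht₁, x₁, hx₁⟩ := hne
    have hB := zeros_countableOn hUc (slice_left hf x₁) ⟨t₁, ht₁, hx₁⟩
    have hne' : ∀ t ∈ U, t ∉ U ∩ {t | f (t, x₁) = 0} → ∃ x, f (t, x) ≠ 0 := fun t ht htB =>
      ⟨x₁, fun h0 => htB ⟨ht, h0⟩⟩
    rcases hX with hX | hX
    · refine (genCard_countable hU hUc (LQ.zero hf).not hX).congr hB ?_
      intro t ht htB x
      have := hne' t ht htB
      tauto
    · refine ⟨_, hB, ?_⟩
      have key : ∀ t ∈ U, t ∉ U ∩ {t | f (t, x₁) = 0} →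
          #({x | x ∈ X ∧ ¬ ((∃ x', f (t, x') ≠ 0) ∧ f (t, x) = 0)} : Set ℂ) = #ℂ := by
        intro t ht htB
        have h1 : ({x | x ∈ X ∧ ¬ ((∃ x', f (t, x') ≠ 0) ∧ f (t, x) = 0)} : Set ℂ)ᶜ.Countable := by
          refine (hX.union (zeros_countable (slice_right hf ht) (hne' t ht htB))).mono ?_
          intro x hx
          by_cases hxX : x ∈ X
          · right
            by_contra h0
            exact hx ⟨hxX, fun h => h0 h.2⟩
          · exact Or.inl hxX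
        have h2 : #(({x | x ∈ X ∧ ¬ ((∃ x', f (t, x') ≠ 0) ∧ f (t, x) = 0)} : Set ℂ)ᶜ : Set ℂ)
            < #ℂ := by
          refine lt_of_le_of_lt (Cardinal.le_aleph0_iff_set_countable.2 h1) ?_
          rw [Cardinal.mk_complex]
          exact Cardinal.aleph0_lt_continuum
        have h3 := Cardinal.mk_compl_of_infinite _ h2
        rwa [compl_compl] at h3
      intro t ht htB t' ht' htB'
      rw [key t ht htB, key t' ht' htB']
  · push Not at hne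
    refine (GenCard.const X).congr countable_empty ?_
    intro t ht _ x
    simp [hne t ht]

/-- Quantifiers guarded by an equation of finite order. -/
theorem CQ.guard {m : ℕ} {F : (Fin m → ℂ) → ℂ → ℂ}
    (hF : AnalyticOnNhd ℂ (fun p : (Fin m → ℂ) × ℂ => F p.1 p.2) Set.univ)
    (hord : FiniteOrder F) {X : Set (Fin (m + 1) → ℂ)} (hX : CQ (m + 1) X)
    {P : Set (Fin m → ℂ) → Prop} {Q : Set (Fin 1 → ℂ) → Prop}
    (hP : ∀ E, P E → CQ m E) (hQ : ∀ D, Q D → CQ 1 D)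
    {R : Set ((Fin m → ℂ) × (Fin 1 → ℂ))} (hR : Rect P Q R) (κ : Cardinal.{0}) :
    CQ m {s | κ ≤ #({x : ℂ | (IsZero F s x ∧
      (Fin.snoc (α := fun _ => ℂ) s x : Fin (m + 1) → ℂ) ∈ X) ∨
      (¬ IsZero F s x ∧ (s, fun _ => x) ∈ R)} : Set ℂ)} := by
  intro U hU hUc γ hγ
  obtain ⟨B, hB, X₀, hX₀, h₀⟩ := hR.slice_one hP hQ hU hUc hγ
  set f : ℂ × ℂ → ℂ := fun p => F (γ p.1) p.2 with hf
  have hfan : AnalyticOnNhd ℂ f (U ×ˢ Set.univ) := by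
    rintro ⟨t, x⟩ ⟨ht, -⟩
    have h1 : AnalyticAt ℂ (fun p : ℂ × ℂ => (γ p.1, p.2)) (t, x) :=
      ((hγ t ht).comp (f := fun p : ℂ × ℂ => p.1) (x := (t, x)) analyticAt_fst).prod
        analyticAt_snd
    exact (hF (γ t, x) (mem_univ _)).comp (f := fun p : ℂ × ℂ => (γ p.1, p.2))
      (x := (t, x)) h1
  have hgrow : ∀ t₀ ∈ U, ∃ (A : ℝ) (ρ : ℕ), ∀ᶠ t in 𝓝 t₀, ∀ x,
      ‖f (t, x)‖ ≤ Real.exp (A * (1 + ‖x‖) ^ ρ) := by
    intro t₀ ht₀
    obtain ⟨A, ρ, h⟩ := hord (γ t₀)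
    exact ⟨A, ρ, (hγ t₀ ht₀).continuousAt.eventually h⟩
  have h1 := finite_order_count hU hUc hfan (LQ.CQ hγ hX) hgrow
  have h2 := genCard_off hU hUc hfan hX₀
  have h3 := h1.or h2 (fun t x h h' => h'.2 ⟨h.1, h.2.1⟩)
  refine ((h3.congr hB ?_).qm κ)
  intro t ht htB x
  have hR' := h₀ t ht htB x
  show _ ↔ (IsZero F (γ t) x ∧ (Fin.snoc (α := fun _ => ℂ) (γ t) x : Fin (m + 1) → ℂ) ∈ X) ∨
      (¬ IsZero F (γ t) x ∧ (γ t, fun _ => x) ∈ R)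
  rw [hR']
  unfold IsZero
  tauto

end Pool.Agent.TH735.FO
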