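import Pool.Agent.TH735.FO.Dv2

/-!
Sums over weights of polynomial growth.
-/

set_option autoImplicit false

namespace Pool.Agent.TH735.FO

open Set Filter Topology Complex Metric Real ComplexConjugate Function

/-- polynomial growth of the number of points -/
structure Gr (D : Set ℂ) (m : ℂ → ℂ → ℕ) (δ : ℝ) (C ρ : ℕ) : Prop where
  pos : 0 < δ
  low : ∀ t ∈ D, ∀ x, m t x ≠ 0 → δ ≤ ‖x‖
  cnt : ∀ t ∈ D, ∀ n : ℕ, ∑ᶠ x ∈ closedBall 0 (n : ℝ), m t x ≤ C * (n + 1) ^ ρ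

theorem Gr.sum_le {D : Set ℂ} {m : ℂ → ℂ → ℕ} (h : Dv D m) {δ : ℝ} {C ρ : ℕ}
    (g : Gr D m δ C ρ) {t : ℂ} (ht : t ∈ D) (n : ℕ) {F : Finset ℂ} (hF : ∀ x ∈ F, ‖x‖ ≤ n) :
    ∑ x ∈ F, m t x ≤ C * (n + 1) ^ ρ := by
  classical
  refine le_trans ?_ (g.cnt t ht n)
  have hfin := h.finS ht (isBounded_closedBall (x := (0 : ℂ)) (r := (n : ℝ)))
  rw [sm_eq_nat hfin, ← Finset.sum_filter_ne_zero (s := F)]
  apply Finset.sum_le_sum_of_subset
  intro x hx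
  rw [Finset.mem_filter] at hx
  rw [Set.Finite.mem_toFinset]
  exact ⟨by simpa using hF x hx.1, hx.2⟩

theorem Gr.tail {D : Set ℂ} {m : ℂ → ℂ → ℕ} (h : Dv D m) {δ : ℝ} {C ρ : ℕ}
    (g : Gr D m δ C ρ) {t : ℂ} (ht : t ∈ D) {k : ℕ} (hk : ρ + 2 ≤ k) {N : ℕ} (hN : 1 ≤ N)
    {F : Finset ℂ} (hF : ∀ x ∈ F, (N : ℝ) ≤ ‖x‖) :
    ∑ x ∈ F, (m t x : ℝ) / ‖x‖ ^ k ≤ C * 3 ^ ρ * 2 / N := by
  classical
  set fl : ℂ → ℕ := fun x => ⌊‖x‖⌋₊ with hfl
  have hflN : ∀ x ∈ F, N ≤ fl x := fun x hx => Nat.le_floor (hF x hx)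
  have h1 : ∀ x ∈ F, (m t x : ℝ) / ‖x‖ ^ k ≤ (m t x : ℝ) / (fl x : ℝ) ^ k := by
    intro x hx
    have h2 : (0 : ℝ) < fl x := by exact_mod_cast lt_of_lt_of_le (by omega) (hflN x hx)
    apply div_le_div_of_nonneg_left (Nat.cast_nonneg _) (by positivity)
    exact pow_le_pow_left₀ h2.le (Nat.floor_le (norm_nonneg x)) k
  set J := F.image fl with hJ
  have hJN : ∀ j ∈ J, N ≤ j := by
    intro j hj
    obtain ⟨x, hx, rfl⟩ := Finset.mem_image.1 hj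
    exact hflN x hx
  calc ∑ x ∈ F, (m t x : ℝ) / ‖x‖ ^ k ≤ ∑ x ∈ F, (m t x : ℝ) / (fl x : ℝ) ^ k :=
        Finset.sum_le_sum h1
    _ = ∑ j ∈ J, ∑ x ∈ F with fl x = j, (m t x : ℝ) / (fl x : ℝ) ^ k :=
        (Finset.sum_fiberwise_of_maps_to (fun x hx => Finset.mem_image_of_mem fl hx) _).symm
    _ ≤ ∑ j ∈ J, C * 3 ^ ρ * ((j : ℝ) ^ 2)⁻¹ := by
        refine Finset.sum_le_sum fun j hj => ?_
        have hj1 : 1 ≤ j := hN.trans (hJN j hj)
        have hj0 : (0 : ℝ) < j := by exact_mod_cast hj1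
        have h3 : ∑ x ∈ F with fl x = j, (m t x : ℝ) / (fl x : ℝ) ^ k =
            ((∑ x ∈ F with fl x = j, m t x : ℕ) : ℝ) / (j : ℝ) ^ k := by
          push_cast
          rw [Finset.sum_div]
          refine Finset.sum_congr rfl fun x hx => ?_
          rw [(Finset.mem_filter.1 hx).2]
        have h4 : (∑ x ∈ F with fl x = j, m t x) ≤ C * (j + 2) ^ ρ := by
          have := g.sum_le h ht (j + 1) (F := F.filter (fun x => fl x = j)) (by
            intro x hx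
            have h5 := (Finset.mem_filter.1 hx).2
            have h6 := (Nat.lt_floor_add_one ‖x‖).le
            rw [show ⌊‖x‖⌋₊ = j from h5] at h6
            exact_mod_cast h6)
          exact this
        rw [h3]
        have h7 : ((∑ x ∈ F with fl x = j, m t x : ℕ) : ℝ) ≤ C * (3 * j : ℝ) ^ ρ := by
          calc ((∑ x ∈ F with fl x = j, m t x : ℕ) : ℝ) ≤ ((C * (j + 2) ^ ρ : ℕ) : ℝ) := by
                exact_mod_cast h4
            _ = C * ((j : ℝ) + 2) ^ ρ := by push_cast; ring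
            _ ≤ C * (3 * j : ℝ) ^ ρ := by
                have : (1 : ℝ) ≤ j := by exact_mod_cast hj1
                gcongr
                linarith
        rw [div_le_iff₀ (by positivity)]
        refine h7.trans ?_
        rw [mul_pow]
        have h8 : (j : ℝ) ^ ρ ≤ ((j : ℝ) ^ 2)⁻¹ * (j : ℝ) ^ k := by
          rw [← div_eq_inv_mul, le_div_iff₀ (by positivity), ← pow_add]
          exact pow_le_pow_right₀ (by exact_mod_cast hj1) hk
        calc (C : ℝ) * (3 ^ ρ * (j : ℝ) ^ ρ) = C * 3 ^ ρ * (j : ℝ) ^ ρ := by ring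
          _ ≤ C * 3 ^ ρ * (((j : ℝ) ^ 2)⁻¹ * (j : ℝ) ^ k) := by gcongr
          _ = C * 3 ^ ρ * ((j : ℝ) ^ 2)⁻¹ * (j : ℝ) ^ k := by ring
    _ = C * 3 ^ ρ * ∑ j ∈ J, ((j : ℝ) ^ 2)⁻¹ := by rw [Finset.mul_sum]
    _ ≤ C * 3 ^ ρ * (2 / N) := by
        have h9 : ∑ j ∈ J, ((j : ℝ) ^ 2)⁻¹ ≤ 2 / N := by
          have h10 := sum_Ioo_inv_sq_le (α := ℝ) (N - 1) (J.sup id + 1)
          have h11 : ((N - 1 : ℕ) : ℝ) + 1 = N := by
            have : N - 1 + 1 = N := by omega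
            exact_mod_cast this
          rw [h11] at h10
          refine le_trans ?_ h10
          apply Finset.sum_le_sum_of_subset_of_nonneg
          · intro j hj
            rw [Finset.mem_Ioo]
            have h12 := hJN j hj
            have h13 : j ≤ J.sup id := Finset.le_sup (f := id) hj
            omega
          · intro i _ _
            positivity
        gcongr
    _ = C * 3 ^ ρ * 2 / N := by ring

/-- the sum of the powers of the inverses of the points -/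
noncomputable def G (m : ℂ → ℂ → ℕ) (k : ℕ) (t : ℂ) : ℂ := ∑' x, m t x • ((x : ℂ) ^ k)⁻¹

theorem norm_term (m : ℂ → ℂ → ℕ) (k : ℕ) (t x : ℂ) :
    ‖m t x • ((x : ℂ) ^ k)⁻¹‖ = (m t x : ℝ) / ‖x‖ ^ k := by
  rw [nsmul_eq_mul, norm_mul, norm_inv, norm_pow]
  simp [div_eq_mul_inv]

theorem Gr.total {D : Set ℂ} {m : ℂ → ℂ → ℕ} (h : Dv D m) {δ : ℝ} {C ρ : ℕ}
    (g : Gr D m δ C ρ) {t : ℂ} (ht : t ∈ D) {k : ℕ} (hk : ρ + 2 ≤ k) (F : Finset ℂ) :
    ∑ x ∈ F, (m t x : ℝ) / ‖x‖ ^ k ≤ C * 2 ^ ρ / δ ^ k + C * 3 ^ ρ * 2 := by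
  classical
  rw [← Finset.sum_filter_add_sum_filter_not F (fun x : ℂ => ‖x‖ ≤ 1)]
  apply add_le_add
  · have h1 : ∑ x ∈ F with ‖x‖ ≤ 1, (m t x : ℝ) / ‖x‖ ^ k ≤
        ∑ x ∈ F with ‖x‖ ≤ 1, (m t x : ℝ) / δ ^ k := by
      refine Finset.sum_le_sum fun x _ => ?_
      by_cases hx : m t x = 0
      · simp [hx]
      · apply div_le_div_of_nonneg_left (Nat.cast_nonneg _) (pow_pos g.pos k)
        exact pow_le_pow_left₀ g.pos.le (g.low t ht x hx) k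
    refine h1.trans ?_
    rw [← Finset.sum_div]
    have h2 := g.sum_le h ht 1 (F := F.filter (fun x : ℂ => ‖x‖ ≤ 1)) (by
      intro x hx
      simpa using (Finset.mem_filter.1 hx).2)
    have h3 : (∑ x ∈ F with ‖x‖ ≤ 1, (m t x : ℝ)) ≤ C * 2 ^ ρ := by
      have : ((∑ x ∈ F with ‖x‖ ≤ 1, m t x : ℕ) : ℝ) ≤ ((C * (1 + 1) ^ ρ : ℕ) : ℝ) := by
        exact_mod_cast h2
      push_cast at this
      norm_num at this
      exact this
    have := pow_pos g.pos k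
    gcongr
  · have := g.tail h ht hk (N := 1) le_rfl (F := F.filter (fun x : ℂ => ¬ ‖x‖ ≤ 1)) (by
      intro x hx
      have := (Finset.mem_filter.1 hx).2
      push_cast
      linarith)
    simpa using this

theorem Gr.summable_norm {D : Set ℂ} {m : ℂ → ℂ → ℕ} (h : Dv D m) {δ : ℝ} {C ρ : ℕ}
    (g : Gr D m δ C ρ) {t : ℂ} (ht : t ∈ D) {k : ℕ} (hk : ρ + 2 ≤ k) :
    Summable fun x : ℂ => (m t x : ℝ) / ‖x‖ ^ k :=
  summable_of_sum_le (fun x => by positivity) (g.total h ht hk)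

theorem Gr.summable {D : Set ℂ} {m : ℂ → ℂ → ℕ} (h : Dv D m) {δ : ℝ} {C ρ : ℕ}
    (g : Gr D m δ C ρ) {t : ℂ} (ht : t ∈ D) {k : ℕ} (hk : ρ + 2 ≤ k) :
    Summable fun x : ℂ => m t x • ((x : ℂ) ^ k)⁻¹ := by
  apply Summable.of_norm
  simp_rw [norm_term]
  exact g.summable_norm h ht hk

end Pool.Agent.TH735.FO
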